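import Mathlib

/-!
Combinatorial core: for the circulant cubic `∑ x_i x_{i+1} x_{i+2}` (indices mod `r`, `r ≥ 8`)
a functional vanishing on `I^2` and on the monomials `x_a x_{a+3} x_{a+4} x_{a+5}` vanishes on all
quartic monomials.
-/

namespace Pool.Agent.J6H80.Cubic

variable {A : Type*} [CommRing A]

/-- Abstract data: a periodic sequence of elements `x n` of a commutative ring and an ideal `I`
containing the far products, the squares and the three-term quadrics. -/
structure Cyc (r : ℤ) (x : ℤ → A) (I : Ideal A) : Prop where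
  hr : 8 ≤ r
  per : ∀ n, x (n + r) = x n
  sq : ∀ n, x n * x n ∈ I
  far : ∀ a d : ℤ, 3 ≤ d → d ≤ r - 3 → x a * x (a + d) ∈ I
  rel : ∀ j, x j * x (j + 1) - x (j - 2) * x j - x (j + 1) * x (j + 3) ∈ I

variable {r : ℤ} {x : ℤ → A} {I : Ideal A}

theorem Cyc.mirror (h : Cyc r x I) : Cyc r (fun n => x (-n)) I where
  hr := h.hr
  per := fun n => by
    have := h.per (-(n + r))
    rw [show -(n + r) + r = -n by ring] at this
    exact this.symm
  sq := fun n => h.sq (-n)
  far := fun a d h1 h2 => by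
    have := h.far (-(a + d)) d h1 h2
    rw [show -(a + d) + d = -a by ring, mul_comm] at this
    exact this
  rel := fun j => by
    have := h.rel (-j - 1)
    have e : x (-j) * x (-(j + 1)) - x (-(j - 2)) * x (-j) - x (-(j + 1)) * x (-(j + 3))
        = x (-j - 1) * x (-j - 1 + 1) - x (-j - 1 - 2) * x (-j - 1)
          - x (-j - 1 + 1) * x (-j - 1 + 3) := by
      rw [show -j - 1 + 1 = -j by ring, show -j - 1 + 3 = -(j - 2) by ring,
        show -j - 1 - 2 = -(j + 3) by ring, show -j - 1 = -(j + 1) by ring]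
      ring
    show x (-j) * x (-(j + 1)) - x (-(j - 2)) * x (-j) - x (-(j + 1)) * x (-(j + 3)) ∈ I
    rw [e]; exact this

theorem Cyc.shift (h : Cyc r x I) (t : ℤ) : Cyc r (fun n => x (t + n)) I where
  hr := h.hr
  per := fun n => by
    have := h.per (t + n)
    rw [add_assoc] at this
    exact this
  sq := fun n => h.sq (t + n)
  far := fun a d h1 h2 => by
    have := h.far (t + a) d h1 h2
    rw [add_assoc] at this
    exact this
  rel := fun j => by
    have := h.rel (t + j)
    rw [add_assoc, add_assoc, add_sub_assoc] at this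
    exact this

variable {k : Type*} [Field k]

/-- the vanishing hypothesis on the functional -/
def Van (I : Ideal A) (f : A →+ k) : Prop := ∀ p ∈ I, ∀ q ∈ I, f (p * q) = 0

/-- the normalisation hypothesis on the functional -/
def Nor (x : ℤ → A) (f : A →+ k) : Prop :=
  ∀ a, f (x a * x (a + 3) * (x (a + 4) * x (a + 5))) = 0

variable {f : A →+ k}

theorem Cyc.far' (h : Cyc r x I) (a b : ℤ) (h1 : a + 3 ≤ b) (h2 : b ≤ a + (r - 3)) :
    x a * x b ∈ I := by
  have := h.far a (b - a) (by omega) (by omega)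
  rwa [show a + (b - a) = b by ring] at this

theorem Cyc.far5 (h : Cyc r x I) (a b : ℤ) (h1 : a + 3 ≤ b) (h2 : b ≤ a + 5) :
    x a * x b ∈ I := h.far' a b h1 (by have := h.hr; omega)

/-- zero when both pairs are in the ideal -/
theorem zz (hf : Van I f) {a b c d : ℤ} (h1 : x a * x b ∈ I) (h2 : x c * x d ∈ I) :
    f (x a * x b * (x c * x d)) = 0 := hf _ h1 _ h2

/-- the basic three-term relation -/
theorem r2 (h : Cyc r x I) (hf : Van I f) {a b : ℤ} (hab : x a * x b ∈ I) (j : ℤ) :
    f (x a * x b * (x j * x (j + 1))) = f (x a * x b * (x (j - 2) * x j))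
      + f (x a * x b * (x (j + 1) * x (j + 3))) := by
  have e1 := hf _ hab _ (h.rel j)
  rw [mul_sub, mul_sub, map_sub, map_sub] at e1
  linear_combination e1

/-- (A), first direction -/
theorem stepA (h : Cyc r x I) (hf : Van I f) (a j : ℤ) (h1 : a + 4 ≤ j) (h2 : j ≤ a + r - 4) :
    f (x a * x (j - 1) * (x j * x (j + 1))) = f (x a * x (j - 2) * (x (j - 1) * x j)) := by
  have e1 := r2 h hf (h.far' a (j - 1) (by omega) (by omega)) j
  have e2 := zz hf (h.far' a (j + 1) (by omega) (by omega))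
    (h.far5 (j - 1) (j + 3) (by omega) (by omega))
  have e3 : x a * x (j - 1) * (x (j + 1) * x (j + 3)) = x a * x (j + 1) * (x (j - 1) * x (j + 3)) :=
    by ring
  have e4 : x a * x (j - 1) * (x (j - 2) * x j) = x a * x (j - 2) * (x (j - 1) * x j) :=
    by ring
  rw [e3, e2, e4, add_zero] at e1
  exact e1

/-- (A), second direction -/
theorem stepA' (h : Cyc r x I) (hf : Van I f) (a j : ℤ) (h1 : a + 4 ≤ j) (h2 : j ≤ a + r - 4) :
    f (x a * x (j - 1) * (x j * x (j + 1))) = f (x a * x j * (x (j + 1) * x (j + 2))) := by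
  have e1 := r2 h hf (h.far' a (j + 1) (by omega) (by omega)) (j - 1)
  rw [show j - 1 + 1 = j by ring, show j - 1 - 2 = j - 3 by ring,
    show j - 1 + 3 = j + 2 by ring] at e1
  have e2 := zz hf (h.far' a (j - 1) (by omega) (by omega))
    (h.far5 (j - 3) (j + 1) (by omega) (by omega))
  have e3 : x a * x (j + 1) * (x (j - 3) * x (j - 1)) = x a * x (j - 1) * (x (j - 3) * x (j + 1)) :=
    by ring
  have e4 : x a * x (j + 1) * (x (j - 1) * x j) = x a * x (j - 1) * (x j * x (j + 1)) :=
    by ring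
  have e5 : x a * x (j + 1) * (x j * x (j + 2)) = x a * x j * (x (j + 1) * x (j + 2)) :=
    by ring
  rw [e3, e2, e4, e5, zero_add] at e1
  exact e1

theorem gA_aux (h : Cyc r x I) (hf : Van I f) (hn : Nor x f) (a : ℤ) (n : ℕ) :
    (n : ℤ) + 4 ≤ r - 4 →
    f (x a * x (a + n + 3) * (x (a + n + 4) * x (a + n + 5))) = 0 := by
  induction n with
  | zero => intro _; simpa using hn a
  | succ n ih =>
    intro hle
    push_cast at hle ⊢
    have e := stepA h hf a (a + (n + 1) + 4) (by omega) (by omega)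
    rw [show a + ((n : ℤ) + 1) + 4 - 1 = a + (n + 1) + 3 by ring,
      show a + ((n : ℤ) + 1) + 4 + 1 = a + (n + 1) + 5 by ring] at e
    rw [e]
    have := ih (by omega)
    rw [show a + ((n : ℤ) + 1) + 4 - 2 = a + n + 3 by ring,
      show a + ((n : ℤ) + 1) + 3 = a + n + 4 by ring,
      show a + ((n : ℤ) + 1) + 4 = a + n + 5 by ring]
    exact this

/-- (A): the far edge-times-vertex monomials vanish. -/
theorem gA (h : Cyc r x I) (hf : Van I f) (hn : Nor x f) (a j : ℤ) (h1 : a + 3 ≤ j)
    (h2 : j ≤ a + (r - 3)) : f (x a * x (j - 1) * (x j * x (j + 1))) = 0 := by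
  have hr := h.hr
  have mid : ∀ j, a + 4 ≤ j → j ≤ a + (r - 4) →
      f (x a * x (j - 1) * (x j * x (j + 1))) = 0 := by
    intro j h1 h2
    have := gA_aux h hf hn a (j - a - 4).toNat (by omega)
    rw [show a + ((j - a - 4).toNat : ℤ) + 3 = j - 1 by omega,
      show a + ((j - a - 4).toNat : ℤ) + 4 = j by omega,
      show a + ((j - a - 4).toNat : ℤ) + 5 = j + 1 by omega] at this
    exact this
  rcases eq_or_lt_of_le h1 with e | lt1
  · have e1 := stepA h hf a (j + 1) (by omega) (by omega)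
    rw [show j + 1 - 1 = j by ring, show j + 1 - 2 = j - 1 by ring] at e1
    rw [← e1]
    have := mid (j + 1) (by omega) (by omega)
    rw [show j + 1 - 1 = j by ring] at this
    exact this
  · rcases eq_or_lt_of_le h2 with e | lt2
    · have e1 := stepA' h hf a (j - 1) (by omega) (by omega)
      rw [show j - 1 + 1 = j by ring, show j - 1 + 2 = j + 1 by ring] at e1
      rw [← e1]
      have := mid (j - 1) (by omega) (by omega)
      rw [show j - 1 + 1 = j by ring] at this
      exact this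
    · exact mid j (by omega) (by omega)

theorem Nor.mirror (h : Cyc r x I) (hf : Van I f) (hn : Nor x f) : Nor (fun n => x (-n)) f := by
  intro a
  have hr := h.hr
  have := gA h hf hn (-a) (-a - 4 + r) (by omega) (by omega)
  rw [show -a - 4 + r - 1 = -(a + 5) + r by ring, show -a - 4 + r + 1 = -(a + 3) + r by ring,
    show -a - 4 + r = -(a + 4) + r by ring, h.per, h.per, h.per] at this
  show f (x (-a) * x (-(a + 3)) * (x (-(a + 4)) * x (-(a + 5)))) = 0
  rw [← this]; congr 1; ring

theorem Nor.shift (hn : Nor x f) (t : ℤ) : Nor (fun n => x (t + n)) f := by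
  intro a
  have := hn (t + a)
  simp only [add_assoc] at this
  exact this

/-- (B) -/
theorem gB (h : Cyc r x I) (hf : Van I f) (hn : Nor x f) : f (x 0 * x 0 * (x 2 * x 4)) = 0 := by
  have hr := h.hr
  have e1 := r2 h hf (h.far5 0 4 (by norm_num) (by norm_num)) 2
  have e2 := gA h hf hn 0 3 (by norm_num) (by omega)
  have e3 := gA h hf hn 0 4 (by norm_num) (by omega)
  norm_num at e1 e2 e3
  have c1 : x 0 * x 4 * (x 2 * x 3) = x 0 * x 2 * (x 3 * x 4) := by ring
  have c2 : x 0 * x 4 * (x 0 * x 2) = x 0 * x 0 * (x 2 * x 4) := by ring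
  have c3 : x 0 * x 4 * (x 3 * x 5) = x 0 * x 3 * (x 4 * x 5) := by ring
  rw [c1, c2, c3, e2, e3, add_zero] at e1
  exact e1.symm

theorem gB' (h : Cyc r x I) (hf : Van I f) (hn : Nor x f) :
    f (x 0 * x 0 * (x (-2) * x (-4))) = 0 := by
  have := gB h.mirror hf (hn.mirror h hf)
  simpa using this

/-- (C) -/
theorem gC (h : Cyc r x I) (hf : Van I f) (hn : Nor x f) : f (x 0 * x 0 * (x 1 * x 3)) = 0 := by
  have hr := h.hr
  have e1 := r2 h hf (h.sq 0) 3
  have e2 := zz hf (h.far5 0 3 (by norm_num) (by norm_num)) (h.far5 0 4 (by norm_num) (by norm_num))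
  norm_num at e1
  have c1 : x 0 * x 0 * (x 3 * x 4) = x 0 * x 3 * (x 0 * x 4) := by ring
  have e3 : f (x 0 * x 0 * (x 4 * x 6)) = 0 := by
    rcases eq_or_lt_of_le hr with e | lt
    · have := gB' h hf hn
      have p1 := h.per (-2)
      have p2 := h.per (-4)
      rw [← e] at p1 p2
      norm_num at p1 p2
      rw [p1, p2, mul_comm (x (-4))]
      exact this
    · have := zz hf (h.far5 0 4 (by norm_num) (by norm_num)) (h.far' 0 6 (by norm_num) (by omega))
      rw [← this]; congr 1; ring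
  rw [c1, e2, e3, add_zero] at e1
  exact e1.symm

theorem gC' (h : Cyc r x I) (hf : Van I f) (hn : Nor x f) :
    f (x 0 * x 0 * (x (-1) * x (-3))) = 0 := by
  have := gC h.mirror hf (hn.mirror h hf)
  simpa using this

/-- (E) -/
theorem gE_aux (h : Cyc r x I) (hf : Van I f) (hn : Nor x f) :
    f (x 3 * x 3 * (x 0 * x 1)) = 0 := by
  have e1 := r2 h hf (h.far5 0 3 (by norm_num) (by norm_num)) 0
  have e2 := zz hf (h.sq 0) (h.far5 (-2) 3 (by norm_num) (by norm_num))
  have e3 := gC h hf hn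
  norm_num at e1
  have c1 : x 0 * x 3 * (x 0 * x 1) = x 0 * x 0 * (x 1 * x 3) := by ring
  have c2 : x 0 * x 3 * (x (-2) * x 0) = x 0 * x 0 * (x (-2) * x 3) := by ring
  have c3 : x 0 * x 3 * (x 1 * x 3) = x 3 * x 3 * (x 0 * x 1) := by ring
  rw [c1, c2, c3, e2, e3, zero_add] at e1
  exact e1.symm

theorem gE (h : Cyc r x I) (hf : Van I f) (hn : Nor x f) :
    f (x 0 * x 0 * (x (-3) * x (-2))) = 0 := by
  have := gE_aux (h.shift (-3)) hf (hn.shift (-3))
  norm_num at this
  exact this

theorem gE' (h : Cyc r x I) (hf : Van I f) (hn : Nor x f) :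
    f (x 0 * x 0 * (x 3 * x 2)) = 0 := by
  have := gE h.mirror hf (hn.mirror h hf)
  simpa using this

/-- (D) -/
theorem gD (h : Cyc r x I) (hf : Van I f) (hn : Nor x f) :
    f (x 0 * x 0 * (x (-2) * x 0)) = 0 := by
  have e1 := r2 h hf (h.sq 0) (-3)
  have e2 := zz hf (h.far5 (-5) 0 (by norm_num) (by norm_num))
    (h.far5 (-3) 0 (by norm_num) (by norm_num))
  have e3 := gE h hf hn
  norm_num at e1
  have c1 : x 0 * x 0 * (x (-5) * x (-3)) = x (-5) * x 0 * (x (-3) * x 0) := by ring
  rw [e3, c1, e2, zero_add] at e1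
  exact e1.symm

theorem gD' (h : Cyc r x I) (hf : Van I f) (hn : Nor x f) :
    f (x 0 * x 0 * (x 2 * x 0)) = 0 := by
  have := gD h.mirror hf (hn.mirror h hf)
  simpa using this

/-- (F) -/
theorem gF (h : Cyc r x I) (hf : Van I f) (hn : Nor x f) :
    f (x 0 * x 0 * (x 0 * x 1)) = 0 := by
  have e1 := r2 h hf (h.sq 0) 0
  norm_num at e1
  rw [gD h hf hn, gC h hf hn, add_zero] at e1
  exact e1

theorem gF' (h : Cyc r x I) (hf : Van I f) (hn : Nor x f) :
    f (x 0 * x 0 * (x 0 * x (-1))) = 0 := by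
  have := gF h.mirror hf (hn.mirror h hf)
  simpa using this

/-- (G) -/
theorem gG (h : Cyc r x I) (hf : Van I f) (hn : Nor x f) :
    f (x 0 * x 0 * (x 1 * x 2)) = f (x 0 * x 0 * (x (-1) * x 1)) := by
  have e1 := r2 h hf (h.sq 0) 1
  norm_num at e1
  rw [gB h hf hn, add_zero] at e1
  exact e1

theorem gG' (h : Cyc r x I) (hf : Van I f) (hn : Nor x f) :
    f (x 0 * x 0 * (x (-1) * x (-2))) = f (x 0 * x 0 * (x (-1) * x 1)) := by
  have := gG h.mirror hf (hn.mirror h hf)
  simp only [neg_neg, neg_zero] at this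
  rw [this]; congr 1; ring

/-- (H) -/
theorem gH (h : Cyc r x I) (hf : Van I f) (hn : Nor x f) :
    f (x 0 * x 1 * (x 2 * x 3)) = 0 := by
  have hr := h.hr
  have e1 := r2 h hf (h.far5 0 3 (by norm_num) (by norm_num)) 1
  norm_num at e1
  have e2 := gA h hf hn 0 3 (by norm_num) (by omega)
  norm_num at e2
  have e3 := gA h hf hn 3 (0 + r) (by omega) (by omega)
  rw [show (0 : ℤ) + r - 1 = -1 + r by ring, show (0 : ℤ) + r + 1 = 1 + r by ring, h.per, h.per,
    h.per] at e3
  have c1 : x 0 * x 3 * (x 1 * x 2) = x 0 * x 1 * (x 2 * x 3) := by ring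
  have c2 : x 0 * x 3 * (x (-1) * x 1) = x 3 * x (-1) * (x 0 * x 1) := by ring
  have c3 : x 0 * x 3 * (x 2 * x 4) = x 0 * x 2 * (x 3 * x 4) := by ring
  rw [c1, c2, c3, e2, e3, add_zero] at e1
  exact e1

/-- (I) -/
theorem gI (h : Cyc r x I) (hf : Van I f) (hn : Nor x f) :
    f (x 0 * x 0 * (x (-1) * x 1)) = 0 := by
  have hr := h.hr
  have e := hf _ (h.rel 0) _ (h.rel (-1))
  norm_num at e
  have E : (x 0 * x 1 - x (-2) * x 0 - x 1 * x 3) * (x (-1) * x 0 - x (-3) * x (-1) - x 0 * x 2)
      = x 0 * x 0 * (x (-1) * x 1) - x (-3) * x (-1) * (x 0 * x 1) - x 0 * x 0 * (x 1 * x 2)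
        - x 0 * x 0 * (x (-1) * x (-2)) + x (-3) * x (-2) * (x (-1) * x 0)
        + x 0 * x 0 * (x (-2) * x 2) - x 3 * x (-1) * (x 0 * x 1)
        + x (-3) * x 1 * (x (-1) * x 3) + x 0 * x 1 * (x 2 * x 3) := by ring
  rw [E] at e
  simp only [map_add, map_sub] at e
  have a1 := gA h hf hn (-3) 0 (by norm_num) (by omega)
  norm_num at a1
  have a2 := gH (h.shift (-3)) hf (hn.shift (-3))
  norm_num at a2
  have a3 := zz hf (h.sq 0) (h.far5 (-2) 2 (by norm_num) (by norm_num))
  have e3 := gA h hf hn 3 (0 + r) (by omega) (by omega)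
  rw [show (0 : ℤ) + r - 1 = -1 + r by ring, show (0 : ℤ) + r + 1 = 1 + r by ring, h.per, h.per,
    h.per] at e3
  have a4 := zz hf (h.far5 (-3) 1 (by norm_num) (by norm_num))
    (h.far5 (-1) 3 (by norm_num) (by norm_num))
  rw [a1, gG h hf hn, gG' h hf hn, a2, a3, e3, a4, gH h hf hn] at e
  linear_combination -e

/-- all the values `f (x_0^2 x_p x_q)` with `p, q` near `0` -/
theorem star0 (h : Cyc r x I) (hf : Van I f) (hn : Nor x f) (β γ δ : ℤ)
    (hβ : β = 1 ∨ β = 2 ∨ β = -1 ∨ β = -2) (hγ : γ = 1 ∨ γ = 2 ∨ γ = -1 ∨ γ = -2)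
    (hδ : δ = 1 ∨ δ = 2 ∨ δ = -1 ∨ δ = -2) :
    f (x 0 * x β * (x γ * x δ)) = 0 := by
  have hr := h.hr
  -- values with base `0`
  have I0 : ∀ t, f (x t * x t * (x (t - 1) * x (t + 1))) = 0 := fun t => by
    have := gI (h.shift t) hf (hn.shift t)
    simpa [sub_eq_add_neg] using this
  have G0 : ∀ t, f (x t * x t * (x (t + 1) * x (t + 2))) = 0 := fun t => by
    have := gG (h.shift t) hf (hn.shift t)
    rw [gI (h.shift t) hf (hn.shift t)] at this
    simpa [sub_eq_add_neg] using this
  have G0' : ∀ t, f (x t * x t * (x (t - 1) * x (t - 2))) = 0 := fun t => by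
    have := gG' (h.shift t) hf (hn.shift t)
    rw [gI (h.shift t) hf (hn.shift t)] at this
    simpa [sub_eq_add_neg] using this
  have B0 : ∀ t, f (x t * x t * (x (t + 2) * x (t + 4))) = 0 := fun t => by
    have := gB (h.shift t) hf (hn.shift t)
    simpa [sub_eq_add_neg] using this
  have B0' : ∀ t, f (x t * x t * (x (t - 2) * x (t - 4))) = 0 := fun t => by
    have := gB' (h.shift t) hf (hn.shift t)
    simpa [sub_eq_add_neg] using this
  have C0 : ∀ t, f (x t * x t * (x (t + 1) * x (t + 3))) = 0 := fun t => by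
    have := gC (h.shift t) hf (hn.shift t)
    simpa [sub_eq_add_neg] using this
  have C0' : ∀ t, f (x t * x t * (x (t - 1) * x (t - 3))) = 0 := fun t => by
    have := gC' (h.shift t) hf (hn.shift t)
    simpa [sub_eq_add_neg] using this
  have E0 : ∀ t, f (x t * x t * (x (t - 3) * x (t - 2))) = 0 := fun t => by
    have := gE (h.shift t) hf (hn.shift t)
    simpa [sub_eq_add_neg] using this
  have E0' : ∀ t, f (x t * x t * (x (t + 3) * x (t + 2))) = 0 := fun t => by
    have := gE' (h.shift t) hf (hn.shift t)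
    simpa [sub_eq_add_neg] using this
  have D0 : ∀ t, f (x t * x t * (x (t - 2) * x t)) = 0 := fun t => by
    have := gD (h.shift t) hf (hn.shift t)
    simpa [sub_eq_add_neg] using this
  have D0' : ∀ t, f (x t * x t * (x (t + 2) * x t)) = 0 := fun t => by
    have := gD' (h.shift t) hf (hn.shift t)
    simpa [sub_eq_add_neg] using this
  have F0 : ∀ t, f (x t * x t * (x t * x (t + 1))) = 0 := fun t => by
    have := gF (h.shift t) hf (hn.shift t)
    simpa [sub_eq_add_neg] using this
  have F0' : ∀ t, f (x t * x t * (x t * x (t - 1))) = 0 := fun t => by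
    have := gF' (h.shift t) hf (hn.shift t)
    simpa [sub_eq_add_neg] using this
  have H0 : ∀ t, f (x t * x (t + 1) * (x (t + 2) * x (t + 3))) = 0 := fun t => by
    have := gH (h.shift t) hf (hn.shift t)
    simpa [sub_eq_add_neg] using this
  have A1 := gA h hf hn (-2) 1 (by norm_num) (by omega)
  have A2 := gA h hf hn 2 (-1 + r) (by omega) (by omega)
  rw [show (-1 : ℤ) + r - 1 = -2 + r by ring, show (-1 : ℤ) + r + 1 = 0 + r by ring, h.per,
    h.per, h.per] at A2
  -- the table of the twenty products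
  have t1 := F0' 1
  have t2 := I0 1
  have t3 := G0' 1
  have t4 := C0' 1
  have t5 := G0' 2
  have t6 := H0 (-1)
  have t8 := G0 (-1)
  have t9 := H0 (-2)
  have t10 := E0' (-2)
  have t11 := D0 2
  have t12 := E0 2
  have t13 := B0' 2
  have t14 := C0 (-1)
  have t15 := B0 (-2)
  have t16 := F0 (-1)
  have t17 := I0 (-1)
  have t18 := G0 (-2)
  have t19 := D0' (-2)
  norm_num at A1 A2 t1 t2 t3 t4 t5 t6 t8 t9 t10 t11 t12 t13 t14 t15 t16 t17 t18 t19
  have key : ∀ p q : A, p = q → f p = 0 → f q = 0 := fun p q e h => e ▸ h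
  rcases hβ with rfl | rfl | rfl | rfl <;> rcases hγ with rfl | rfl | rfl | rfl <;>
    rcases hδ with rfl | rfl | rfl | rfl <;>
    first
    | exact key _ _ (by ring1) t1
    | exact key _ _ (by ring1) t2
    | exact key _ _ (by ring1) t3
    | exact key _ _ (by ring1) t4
    | exact key _ _ (by ring1) t5
    | exact key _ _ (by ring1) t6
    | exact key _ _ (by ring1) A1
    | exact key _ _ (by ring1) t8
    | exact key _ _ (by ring1) t9
    | exact key _ _ (by ring1) t10
    | exact key _ _ (by ring1) t11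
    | exact key _ _ (by ring1) t12
    | exact key _ _ (by ring1) t13
    | exact key _ _ (by ring1) t14
    | exact key _ _ (by ring1) A2
    | exact key _ _ (by ring1) t15
    | exact key _ _ (by ring1) t16
    | exact key _ _ (by ring1) t17
    | exact key _ _ (by ring1) t18
    | exact key _ _ (by ring1) t19

theorem star (h : Cyc r x I) (hf : Van I f) (hn : Nor x f) (a β γ δ : ℤ)
    (hβ : β = 1 ∨ β = 2 ∨ β = -1 ∨ β = -2) (hγ : γ = 1 ∨ γ = 2 ∨ γ = -1 ∨ γ = -2)
    (hδ : δ = 1 ∨ δ = 2 ∨ δ = -1 ∨ δ = -2) :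
    f (x a * x (a + β) * (x (a + γ) * x (a + δ))) = 0 := by
  have := star0 (h.shift a) hf (hn.shift a) β γ δ hβ hγ hδ
  simpa using this

theorem Cyc.per_mul (h : Cyc r x I) (n t : ℤ) : x (n + t * r) = x n := by
  have hp : Function.Periodic x r := h.per
  have := (hp.int_mul t) n
  simpa using this

/-- Reduction of the difference modulo `r`. -/
theorem Cyc.red (h : Cyc r x I) (a b : ℤ) :
    ∃ m : ℤ, 0 ≤ m ∧ m < r ∧ x b = x (a + m) ∧ ∃ t, b = a + m + t * r := by
  have hr := h.hr
  refine ⟨(b - a) % r, Int.emod_nonneg _ (by omega), Int.emod_lt_of_pos _ (by omega), ?_,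
    (b - a) / r, ?_⟩
  · have e : b = a + (b - a) % r + ((b - a) / r) * r := by
      have := Int.emod_add_mul_ediv (b - a) r
      linarith [mul_comm r ((b - a) / r)]
    conv_lhs => rw [e]
    exact h.per_mul _ _
  · have := Int.emod_add_mul_ediv (b - a) r
    linarith [mul_comm r ((b - a) / r)]

theorem Cyc.dich (h : Cyc r x I) (a b : ℤ) :
    x a * x b ∈ I ∨ ∃ e : ℤ, (e = 1 ∨ e = 2 ∨ e = -1 ∨ e = -2) ∧ x b = x (a + e) := by
  have hr := h.hr
  obtain ⟨m, h0, h1, h2, -⟩ := h.red a b
  by_cases hm : 3 ≤ m ∧ m ≤ r - 3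
  · left; rw [h2]; exact h.far a m hm.1 hm.2
  · have : m = 0 ∨ m = 1 ∨ m = 2 ∨ m = r - 1 ∨ m = r - 2 := by omega
    rcases this with rfl | rfl | rfl | rfl | rfl
    · left; rw [h2, add_zero]; exact h.sq a
    · right; exact ⟨1, by simp, h2⟩
    · right; exact ⟨2, by simp, h2⟩
    · right; refine ⟨-1, by simp, ?_⟩
      rw [h2, show a + (r - 1) = a + -1 + r by ring, h.per]
    · right; refine ⟨-2, by simp, ?_⟩
      rw [h2, show a + (r - 2) = a + -2 + r by ring, h.per]

/-- a vertex times an edge -/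
theorem tri (h : Cyc r x I) (hf : Van I f) (hn : Nor x f) (a j : ℤ) :
    f (x a * x (j - 1) * (x j * x (j + 1))) = 0 := by
  have hr := h.hr
  obtain ⟨m, h0, h1, h2, t, ht⟩ := h.red a j
  have q1 : x (j - 1) = x (a + m - 1) := by
    rw [ht, show a + m + t * r - 1 = a + m - 1 + t * r by ring, h.per_mul]
  have q2 : x (j + 1) = x (a + m + 1) := by
    rw [ht, show a + m + t * r + 1 = a + m + 1 + t * r by ring, h.per_mul]
  rw [h2, q1, q2]
  have key : ∀ p q : A, p = q → f p = 0 → f q = 0 := fun p q e h => e ▸ h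
  by_cases hm : 3 ≤ m ∧ m ≤ r - 3
  · exact gA h hf hn a (a + m) (by omega) (by omega)
  · have : m = 0 ∨ m = 1 ∨ m = 2 ∨ m = r - 1 ∨ m = r - 2 := by omega
    have hI := gI (h.shift a) hf (hn.shift a)
    rcases this with rfl | rfl | rfl | rfl | rfl
    · have := gI (h.shift a) hf (hn.shift a)
      simp only [add_zero, ← sub_eq_add_neg] at this ⊢
      exact key _ _ (by ring1) this
    · have := gG (h.shift a) hf (hn.shift a)
      rw [hI] at this
      simp only [add_zero] at this
      rw [show a + 1 - 1 = a by ring, show a + 1 + 1 = a + 2 by ring]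
      exact this
    · have := gH (h.shift a) hf (hn.shift a)
      simp only [add_zero] at this
      rw [show a + 2 - 1 = a + 1 by ring, show a + 2 + 1 = a + 3 by ring]
      exact this
    · have := gG' (h.shift a) hf (hn.shift a)
      rw [hI] at this
      simp only [add_zero] at this
      rw [show a + (r - 1) - 1 = a + -2 + r by ring, show a + (r - 1) + 1 = a + r by ring,
        show a + (r - 1) = a + -1 + r by ring, h.per, h.per, h.per]
      exact key _ _ (by ring1) this
    · have := gH (h.shift (a - 3)) hf (hn.shift (a - 3))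
      simp only [add_zero] at this
      rw [show a - 3 + 1 = a + -2 by ring, show a - 3 + 2 = a + -1 by ring,
        show a - 3 + 3 = a by ring] at this
      rw [show a + (r - 2) - 1 = a - 3 + r by ring, show a + (r - 2) + 1 = a + -1 + r by ring,
        show a + (r - 2) = a + -2 + r by ring, h.per, h.per, h.per]
      exact key _ _ (by ring1) this

/-- the triangle case -/
theorem triangle (h : Cyc r x I) (hf : Van I f) (hn : Nor x f) (a b c d : ℤ)
    (h1 : x b * x c ∉ I) (h2 : x b * x d ∉ I) (h3 : x c * x d ∉ I) :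
    f (x a * x b * (x c * x d)) = 0 := by
  have key : ∀ p q : A, p = q → f p = 0 → f q = 0 := fun p q e h => e ▸ h
  obtain ⟨β, hβ, eβ⟩ := (h.dich b c).resolve_left h1
  obtain ⟨γ, hγ, eγ⟩ := (h.dich b d).resolve_left h2
  rw [eβ, eγ] at h3 ⊢
  have T0 := tri h hf hn a b
  have T1 := tri h hf hn a (b + 1)
  have T2 := tri h hf hn a (b - 1)
  rw [show b + 1 - 1 = b by ring, show b + 1 + 1 = b + 2 by ring] at T1
  rw [show b - 1 - 1 = b + -2 by ring, show b - 1 + 1 = b by ring, sub_eq_add_neg] at T2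
  rw [sub_eq_add_neg] at T0
  rcases hβ with rfl | rfl | rfl | rfl <;> rcases hγ with rfl | rfl | rfl | rfl <;>
    first
    | exact absurd (h.sq _) h3
    | exact absurd (h.far5 _ _ (by omega) (by omega)) h3
    | exact absurd (by rw [mul_comm]; exact (h.far5 _ _ (by omega) (by omega))) h3
    | exact key _ _ (by ring1) T0
    | exact key _ _ (by ring1) T1
    | exact key _ _ (by ring1) T2

/-- **Core theorem.** -/
theorem quartic_zero (h : Cyc r x I) (hf : Van I f) (hn : Nor x f) (a b c d : ℤ) :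
    f (x a * x b * (x c * x d)) = 0 := by
  have key : ∀ p q : A, p = q → f p = 0 → f q = 0 := fun p q e h => e ▸ h
  have hstar : ∀ a b c d : ℤ, x a * x b ∉ I → x a * x c ∉ I → x a * x d ∉ I →
      f (x a * x b * (x c * x d)) = 0 := by
    intro a b c d h1 h2 h3
    obtain ⟨β, hβ, eβ⟩ := (h.dich a b).resolve_left h1
    obtain ⟨γ, hγ, eγ⟩ := (h.dich a c).resolve_left h2
    obtain ⟨δ, hδ, eδ⟩ := (h.dich a d).resolve_left h3
    rw [eβ, eγ, eδ]
    exact star h hf hn a β γ δ hβ hγ hδ
  have htri : ∀ a b c d : ℤ, x b * x c ∉ I → x b * x d ∉ I → x c * x d ∉ I →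
      f (x a * x b * (x c * x d)) = 0 := fun a b c d h1 h2 h3 => triangle h hf hn a b c d h1 h2 h3
  have sw : ∀ {p q : ℤ}, x p * x q ∉ I → x q * x p ∉ I := fun {p q} h => by rwa [mul_comm]
  by_cases ab : x a * x b ∈ I <;> by_cases cd : x c * x d ∈ I <;>
    by_cases ac : x a * x c ∈ I <;> by_cases bd : x b * x d ∈ I <;>
    by_cases ad : x a * x d ∈ I <;> by_cases bc : x b * x c ∈ I <;>
    first
    | exact hf _ ab _ cd
    | exact key _ _ (by ring1) (hf _ ac _ bd)
    | exact key _ _ (by ring1) (hf _ ad _ bc)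
    | exact hstar a b c d ab ac ad
    | exact key _ _ (by ring1) (hstar b a c d (sw ab) bc bd)
    | exact key _ _ (by ring1) (hstar c a b d (sw ac) (sw bc) cd)
    | exact key _ _ (by ring1) (hstar d a b c (sw ad) (sw bd) (sw cd))
    | exact htri a b c d bc bd cd
    | exact key _ _ (by ring1) (htri b a c d ac ad cd)
    | exact key _ _ (by ring1) (htri c a b d ab ad bd)
    | exact key _ _ (by ring1) (htri d a b c ab ac bc)

/-- Degree five and beyond: a functional vanishing on `I^2` kills every monomial of degree `≥ 5`. -/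
theorem quintic_zero (h : Cyc r x I) (hf : Van I f) (P : A) (b a₁ a₂ a₃ a₄ : ℤ) :
    f (P * x b * (x a₁ * x a₂ * (x a₃ * x a₄))) = 0 := by
  have hr := h.hr
  have key : ∀ p q : A, p = q → f p = 0 → f q = 0 := fun p q e h => e ▸ h
  let g : A →+ k := f.comp (AddMonoidHom.mulLeft (P * x b))
  have hg : Van I g := by
    intro p hp q hq
    show f (P * x b * (p * q)) = 0
    rw [show P * x b * (p * q) = (P * x b * p) * q by ring]
    exact hf _ (I.mul_mem_left _ hp) _ hq
  have hgn : Nor x g := by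
    intro a
    show f (P * x b * (x a * x (a + 3) * (x (a + 4) * x (a + 5)))) = 0
    -- `b` is far from (or equal to) one of `a+3, a+4, a+5`
    have a3 : x a * x (a + 3) ∈ I := h.far5 _ _ (by omega) (by omega)
    have a4 : x a * x (a + 4) ∈ I := h.far5 _ _ (by omega) (by omega)
    have a5 : x a * x (a + 5) ∈ I := h.far5 _ _ (by omega) (by omega)
    rcases h.dich (a + 4) b with h4 | ⟨e, he, eb⟩
    · exact key _ _ (by ring1) (hf _ (I.mul_mem_left (P * x (a + 5)) a3) _ h4)
    · rw [eb]
      rcases he with rfl | rfl | rfl | rfl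
      · have q := h.sq (a + 4 + 1)
        refine key _ _ ?_ (hf _ (I.mul_mem_left (P * x (a + 4)) a3) _ q)
        rw [show a + 4 + 1 = a + 5 by ring]; ring
      · have q := h.far5 (a + 3) (a + 4 + 2) (by omega) (by omega)
        exact key _ _ (by ring1) (hf _ (I.mul_mem_left (P * x (a + 5)) a4) _ q)
      · have q := h.sq (a + 4 + -1)
        refine key _ _ ?_ (hf _ (I.mul_mem_left (P * x (a + 5)) a4) _ q)
        rw [show a + 4 + -1 = a + 3 by ring]; ring
      · have q := h.far5 (a + 4 + -2) (a + 5) (by omega) (by omega)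
        exact key _ _ (by ring1) (hf _ (I.mul_mem_left (P * x (a + 3)) a4) _ q)
  exact quartic_zero h hg hgn a₁ a₂ a₃ a₄

end Pool.Agent.J6H80.Cubic
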