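import Mathlib

/-!
# Definitions for the statement on general cubic Gorenstein algebras

* `contract`, `Ann` : contraction action on the dual polynomials and the annihilator ideal;
* `HasHilbertFunction` : local algebra with given Hilbert function;
* `Hilb`, its Zariski topology, elementary components;
* `CubicForm`, Zariski open sets of cubic forms, `locus`;
* `Fibre`, `IsGeneric` : deformations.
-/

open MvPolynomial

namespace Pool.Agent.J6H80.Cubic

universe u

section Contraction

variable {k : Type u} [Field k] {r : ℕ}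

/-- Contraction action of `R = k[x_1,…,x_r]` on the dual polynomials (whose monomials `X^β` are
the divided power monomials): `x^α ∘ X^β = X^(β - α)` if `α ≤ β` and `0` otherwise, extended
bilinearly. -/
noncomputable def contract (P F : MvPolynomial (Fin r) k) : MvPolynomial (Fin r) k :=
  ∑ α ∈ P.support, ∑ β ∈ F.support,
    if α ≤ β then monomial (β - α) (coeff α P * coeff β F) else 0

/-- The pairing `⟨P, F⟩ = ∑ P_α F_α`, as a linear functional of `P`. -/
noncomputable def pairL (F : MvPolynomial (Fin r) k) : MvPolynomial (Fin r) k →ₗ[k] k :=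
  (basisMonomials (Fin r) k).constr k (fun α => coeff α F)

theorem pairL_monomial (F : MvPolynomial (Fin r) k) (α : Fin r →₀ ℕ) (a : k) :
    pairL F (monomial α a) = a * coeff α F := by
  have h : monomial α a = a • (basisMonomials (Fin r) k) α := by
    rw [coe_basisMonomials, smul_monomial, smul_eq_mul, mul_one]
  rw [h, map_smul, pairL, Module.Basis.constr_basis, smul_eq_mul]

theorem coeff_contract (P F : MvPolynomial (Fin r) k) (γ : Fin r →₀ ℕ) :
    coeff γ (contract P F) = pairL F (P * monomial γ 1) := by
  classical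
  have e1 : pairL F (P * monomial γ 1) = ∑ α ∈ P.support, coeff α P * coeff (α + γ) F := by
    conv_lhs => rw [P.as_sum, Finset.sum_mul, map_sum]
    refine Finset.sum_congr rfl fun α _ => ?_
    rw [monomial_mul, pairL_monomial, mul_one]
  rw [e1, contract, coeff_sum]
  refine Finset.sum_congr rfl fun α _ => ?_
  rw [coeff_sum]
  have e2 : ∀ β ∈ F.support, coeff γ (if α ≤ β then
      monomial (β - α) (coeff α P * coeff β F) else (0 : MvPolynomial (Fin r) k)) =
      if β = α + γ then coeff α P * coeff β F else 0 := by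
    intro β _
    by_cases hle : α ≤ β
    · rw [if_pos hle, coeff_monomial]
      by_cases hb : β - α = γ
      · rw [if_pos hb, if_pos (by rw [← hb, add_tsub_cancel_of_le hle])]
      · rw [if_neg hb, if_neg (fun h => hb (by rw [h, add_tsub_cancel_left]))]
    · rw [if_neg hle, coeff_zero, if_neg (fun h => hle (by rw [h]; exact le_self_add))]
  rw [Finset.sum_congr rfl e2, Finset.sum_ite_eq']
  split_ifs with hm
  · rfl
  · rw [notMem_support_iff.mp hm, mul_zero]

theorem contract_eq_zero_iff (P F : MvPolynomial (Fin r) k) :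
    contract P F = 0 ↔ ∀ Q, pairL F (P * Q) = 0 := by
  constructor
  · intro h Q
    rw [Q.as_sum, Finset.mul_sum, map_sum]
    refine Finset.sum_eq_zero fun γ _ => ?_
    have h1 := coeff_contract P F γ
    rw [h, coeff_zero] at h1
    have e : P * monomial γ (coeff γ Q) = coeff γ Q • (P * monomial γ 1) := by
      rw [← mul_smul_comm, smul_monomial, smul_eq_mul, mul_one]
    rw [e, map_smul, ← h1, smul_zero]
  · intro h
    ext γ
    rw [coeff_contract, h, coeff_zero]

/-- The annihilator `Ann(F) = {P | P ∘ F = 0}` of `F` in `R`. -/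
noncomputable def Ann (F : MvPolynomial (Fin r) k) : Ideal (MvPolynomial (Fin r) k) where
  carrier := {P | contract P F = 0}
  add_mem' := fun {a b} ha hb => by
    simp only [Set.mem_ofPred_eq, contract_eq_zero_iff] at *
    intro Q
    rw [add_mul, map_add, ha, hb, add_zero]
  zero_mem' := by
    simp only [Set.mem_ofPred_eq, contract_eq_zero_iff]
    intro Q
    rw [zero_mul, map_zero]
  smul_mem' := fun c a ha => by
    simp only [Set.mem_ofPred_eq, contract_eq_zero_iff] at *
    intro Q
    rw [smul_eq_mul, mul_comm c, mul_assoc]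
    exact ha _

theorem mem_Ann_iff (F P : MvPolynomial (Fin r) k) : P ∈ Ann F ↔ ∀ Q, pairL F (P * Q) = 0 :=
  contract_eq_zero_iff P F

end Contraction

section HilbertFunction

/-- The `k`-algebra `A` is local, and its Hilbert function is `h`:
`dim_k 𝔪^i / 𝔪^(i+1) = h i` for all `i`. -/
def HasHilbertFunction (k : Type u) [Field k] (A : Type u) [CommRing A] [Algebra k A]
    (h : ℕ → ℕ) : Prop :=
  ∃ _ : IsLocalRing A, ∀ i : ℕ, Module.finrank k
    (↥(IsLocalRing.maximalIdeal A ^ i) ⧸
      Submodule.comap (Submodule.subtype (IsLocalRing.maximalIdeal A ^ i))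
        (IsLocalRing.maximalIdeal A ^ (i + 1))) = h i

/-- The function `(1, r, r, 1)`, that is `0 ↦ 1, 1 ↦ r, 2 ↦ r, 3 ↦ 1`, and `0` in degrees `≥ 4`. -/
def h1rr1 (r : ℕ) : ℕ → ℕ
  | 0 => 1
  | 1 => r
  | 2 => r
  | 3 => 1
  | _ => 0

end HilbertFunction

section HilbertScheme

variable {k : Type u} [Field k] {r n : ℕ}

/-- The closed points of the Hilbert scheme `Hilb^n(𝔸^r)` over `k`: the ideals
`I ⊂ k[x_1,…,x_r]` with `dim_k k[x_1,…,x_r]/I = n`. -/
def Hilb (k : Type u) [Field k] (r n : ℕ) : Type u :=
  {I : Ideal (MvPolynomial (Fin r) k) //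
    Module.Finite k (MvPolynomial (Fin r) k ⧸ I) ∧
      Module.finrank k (MvPolynomial (Fin r) k ⧸ I) = n}

/-- Indices of the coordinates of the affine space of pairs
(`r`-tuple of `n × n` matrices, vector of length `n`). -/
abbrev FrameIdx (r n : ℕ) : Type := (Fin r × Fin n × Fin n) ⊕ Fin n

/-- The pair `p = ((M_1,…,M_r), v)` represents the ideal `I`: in some `k`-basis of `R/I`
(given by a linear isomorphism `e : R/I ≃ k^n`) the matrix of multiplication by `x_i` is `M_i`
and the coordinate vector of `1` is `v`. -/
def Represents (p : FrameIdx r n → k) (I : Ideal (MvPolynomial (Fin r) k)) : Prop :=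
  ∃ e : (MvPolynomial (Fin r) k ⧸ I) ≃ₗ[k] (Fin n → k),
    (∀ (i : Fin r) (w : MvPolynomial (Fin r) k ⧸ I) (a : Fin n),
      e (Ideal.Quotient.mk I (X i) * w) a = ∑ b, p (Sum.inl (i, a, b)) * e w b) ∧
    ∀ a : Fin n, e 1 a = p (Sum.inr a)

/-- Zariski closed subsets of `Hilb^n(𝔸^r)`. The Hilbert scheme is the quotient by the free action
of `GL_n` of the variety of pairs (commuting `r`-tuple of `n × n` matrices, cyclic vector); a set
`Z` of its points is closed iff its preimage in that variety is the common zero set of a set of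
polynomials in the matrix entries and the entries of the vector. -/
def IsZariskiClosed (Z : Set (Hilb k r n)) : Prop :=
  ∃ S : Set (MvPolynomial (FrameIdx r n) k), ∀ (I : Hilb k r n) (p : FrameIdx r n → k),
    Represents p I.1 → (I ∈ Z ↔ ∀ h ∈ S, eval p h = 0)

theorem exists_represents (I : Hilb k r n) : ∃ p : FrameIdx r n → k, Represents p I.1 := by
  obtain ⟨I, hf, hn⟩ := I
  have := hf
  let b := Module.finBasisOfFinrankEq k (MvPolynomial (Fin r) k ⧸ I) hn
  let e := b.equivFun
  refine ⟨Sum.elim (fun x => e (Ideal.Quotient.mk I (X x.1) * e.symm (Pi.single x.2.2 1)) x.2.1)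
    (fun a => e 1 a), e, fun i w a => ?_, fun a => rfl⟩
  have hw : w = ∑ b, e w b • e.symm (Pi.single b 1) := by
    apply e.injective
    rw [map_sum]
    ext j
    simp [Finset.sum_apply, Pi.single_apply]
  conv_lhs => rw [hw, Finset.mul_sum, map_sum, Finset.sum_apply]
  refine Finset.sum_congr rfl fun b _ => ?_
  rw [mul_smul_comm, map_smul, Pi.smul_apply, smul_eq_mul, mul_comm]
  rfl

/-- The Zariski topology on the closed points of `Hilb^n(𝔸^r)`. -/
instance : TopologicalSpace (Hilb k r n) :=
  TopologicalSpace.ofClosed {Z | IsZariskiClosed Z}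
    (⟨{1}, fun I p _ => by simp⟩)
    (fun A hA => by
      classical
      have hA' : ∀ Z : Set (Hilb k r n), Z ∈ A → IsZariskiClosed Z := fun Z hZ => hA hZ
      unfold IsZariskiClosed at hA'
      choose! S hS using hA'
      refine ⟨⋃ Z ∈ A, S Z, fun I p hp => ?_⟩
      simp only [Set.mem_sInter, Set.mem_iUnion, exists_prop, forall_exists_index, and_imp]
      constructor
      · intro h f Z hZ hf
        exact (hS Z hZ I p hp).mp (h Z hZ) f hf
      · intro h Z hZ
        exact (hS Z hZ I p hp).mpr fun f hf => h f Z hZ hf)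
    (fun Z hZ Z' hZ' => by
      obtain ⟨S, hS⟩ := hZ
      obtain ⟨S', hS'⟩ := hZ'
      refine ⟨{f | ∃ a ∈ S, ∃ b ∈ S', f = a * b}, fun I p hp => ?_⟩
      rw [Set.mem_union, hS I p hp, hS' I p hp]
      constructor
      · rintro (h | h)
        · rintro _ ⟨a, ha, b, hb, rfl⟩
          rw [map_mul, h a ha, zero_mul]
        · rintro _ ⟨a, ha, b, hb, rfl⟩
          rw [map_mul, h b hb, mul_zero]
      · intro h
        by_contra hcon
        push Not at hcon
        obtain ⟨⟨a, ha, ha'⟩, b, hb, hb'⟩ := hcon
        exact mul_ne_zero ha' hb' (by rw [← map_mul]; exact h _ ⟨a, ha, b, hb, rfl⟩))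

theorem isClosed_iff_isZariskiClosed (Z : Set (Hilb k r n)) : IsClosed Z ↔ IsZariskiClosed Z := by
  constructor
  · intro h
    have := h.isOpen_compl
    have h2 : Zᶜᶜ ∈ {Z : Set (Hilb k r n) | IsZariskiClosed Z} := this
    rwa [compl_compl] at h2
  · intro h
    rw [← isOpen_compl_iff]
    show Zᶜᶜ ∈ {Z : Set (Hilb k r n) | IsZariskiClosed Z}
    rwa [compl_compl]

/-- An elementary component of `Hilb^n(𝔸^r)`: an irreducible component all of whose points are
supported at a single point of `𝔸^r`, that is, have a local coordinate ring `R/I`. -/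
def IsElementaryComponent (Z : Set (Hilb k r n)) : Prop :=
  Z ∈ irreducibleComponents (Hilb k r n) ∧
    ∀ I ∈ Z, IsLocalRing (MvPolynomial (Fin r) k ⧸ I.1)

end HilbertScheme

section CubicForms

/-- The space of cubic forms in the `r` dual variables. -/
def CubicForm (k : Type u) [Field k] (r : ℕ) : Type u :=
  {F : MvPolynomial (Fin r) k // F.IsHomogeneous 3}

variable {k : Type u} [Field k] {r : ℕ}

/-- Zariski open subsets of the space of cubic forms: unions of sets on which some polynomial in
the coefficients of the form does not vanish. -/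
def IsZariskiOpen (U : Set (CubicForm k r)) : Prop :=
  ∃ S : Set (MvPolynomial (Fin r →₀ ℕ) k),
    U = {F | ∃ p ∈ S, eval (fun α => coeff α F.1) p ≠ 0}

/-- The algebra `A_F = R/Ann(F)`. -/
abbrev AF (F : CubicForm k r) : Type u := MvPolynomial (Fin r) k ⧸ Ann F.1

/-- The set of points of `Hilb^(2r+2)(𝔸^r)` which are isomorphic, as abstract schemes, to
`Spec A_F` for some cubic form `F` in `U` (the support point is arbitrary). -/
def locus (U : Set (CubicForm k r)) : Set (Hilb k r (2 * r + 2)) :=
  {I | ∃ F ∈ U, Nonempty ((MvPolynomial (Fin r) k ⧸ I.1) ≃ₐ[k] AF F)}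

end CubicForms

section Deformations

/-- The fibre of the `S`-algebra `B` at the `k`-point `s : S → k` of `Spec S`. -/
abbrev Fibre {k : Type u} [Field k] {S : Type u} [CommRing S] [Algebra k S]
    (B : Type u) [CommRing B] [Algebra S B] (s : S →ₐ[k] k) : Type u :=
  B ⧸ Ideal.map (algebraMap S B) (RingHom.ker s)

/-- The finite dimensional local `k`-algebra `A` is generic: in every deformation of `A` all
members near `A` are local with the same Hilbert function. A deformation is a finite flat algebra
`B` over a finitely generated `k`-algebra `S` together with a `k`-point `s₀` of `Spec S` at which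
the fibre of `B` is isomorphic to `A`; near means: for `s` in a Zariski open neighbourhood of
`s₀`. -/
def IsGeneric (k : Type u) [Field k] (A : Type u) [CommRing A] [Algebra k A] : Prop :=
  ∀ (S : Type u) [CommRing S] [Algebra k S] [Algebra.FiniteType k S]
    (B : Type u) [CommRing B] [Algebra k B] [Algebra S B] [IsScalarTower k S B]
    [Module.Finite S B] [Module.Flat S B] (s₀ : S →ₐ[k] k),
    Nonempty (Fibre B s₀ ≃ₐ[k] A) →
    ∃ g : S, s₀ g ≠ 0 ∧ ∀ s : S →ₐ[k] k, s g ≠ 0 →
      ∀ h : ℕ → ℕ, HasHilbertFunction k A h → HasHilbertFunction k (Fibre B s) h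

end Deformations

end Pool.Agent.J6H80.Cubic
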