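import Mathlib

/-!
The graded Gorenstein algebra of a cubic form, in coordinates: `k ⊕ W ⊕ V ⊕ k` with multiplication
given by the symmetric tensor of the cubic and the duality between `W` and `V`.
-/

set_option linter.unusedSectionVars false

open Finsupp

namespace Pool.Agent.J6H80.Cubic

variable {ι k : Type*} [Fintype ι] [CommRing k]

/-- the symmetric tensor attached to a coefficient function on exponents -/
noncomputable def tt (c : (ι →₀ ℕ) → k) (i j l : ι) : k := c (single i 1 + single j 1 + single l 1)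

omit [Fintype ι] [CommRing k] in
theorem tt_s12 (c : (ι →₀ ℕ) → k) (i j l : ι) : tt c i j l = tt c j i l := by
  unfold tt; rw [add_comm (single i 1)]

omit [Fintype ι] [CommRing k] in
theorem tt_s23 (c : (ι →₀ ℕ) → k) (i j l : ι) : tt c i j l = tt c i l j := by
  unfold tt; rw [add_assoc, add_comm (single j 1), ← add_assoc]

/-- the bilinear map `W × W → V` -/
noncomputable def TT (c : (ι →₀ ℕ) → k) (a b : ι → k) : ι → k :=
  fun l => ∑ i, ∑ j, tt c i j l * a i * b j

theorem TT_comm (c : (ι →₀ ℕ) → k) (a b : ι → k) : TT c a b = TT c b a := by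
  funext l
  unfold TT
  rw [Finset.sum_comm]
  refine Finset.sum_congr rfl fun i _ => Finset.sum_congr rfl fun j _ => ?_
  rw [tt_s12]; ring

theorem TT_add_left (c : (ι →₀ ℕ) → k) (a a' b : ι → k) :
    TT c (a + a') b = TT c a b + TT c a' b := by
  funext l
  simp only [TT, Pi.add_apply, mul_add, add_mul, Finset.sum_add_distrib]

theorem TT_smul_left (c : (ι →₀ ℕ) → k) (s : k) (a b : ι → k) :
    TT c (s • a) b = s • TT c a b := by
  funext l
  simp only [TT, Pi.smul_apply, smul_eq_mul, Finset.mul_sum]
  exact Finset.sum_congr rfl fun i _ => Finset.sum_congr rfl fun j _ => by ring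

theorem TT_add_right (c : (ι →₀ ℕ) → k) (a b b' : ι → k) :
    TT c a (b + b') = TT c a b + TT c a b' := by
  rw [TT_comm, TT_add_left, TT_comm c b, TT_comm c b']

theorem TT_smul_right (c : (ι →₀ ℕ) → k) (s : k) (a b : ι → k) :
    TT c a (s • b) = s • TT c a b := by
  rw [TT_comm, TT_smul_left, TT_comm]

/-- the pairing -/
def dot (a b : ι → k) : k := ∑ i, a i * b i

theorem dot_comm (a b : ι → k) : dot a b = dot b a :=
  Finset.sum_congr rfl fun i _ => mul_comm _ _

theorem dot_add_left (a a' b : ι → k) : dot (a + a') b = dot a b + dot a' b := by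
  simp only [dot, Pi.add_apply, add_mul, Finset.sum_add_distrib]

theorem dot_smul_left (s : k) (a b : ι → k) : dot (s • a) b = s * dot a b := by
  simp only [dot, Pi.smul_apply, smul_eq_mul, Finset.mul_sum]
  exact Finset.sum_congr rfl fun i _ => by ring

theorem dot_add_right (a b b' : ι → k) : dot a (b + b') = dot a b + dot a b' := by
  rw [dot_comm, dot_add_left, dot_comm b, dot_comm b']

theorem dot_smul_right (s : k) (a b : ι → k) : dot a (s • b) = s * dot a b := by
  rw [dot_comm, dot_smul_left, dot_comm]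

theorem dot_TT (c : (ι →₀ ℕ) → k) (a b d : ι → k) : dot (TT c a b) d = dot a (TT c b d) := by
  unfold dot TT
  simp only [Finset.sum_mul, Finset.mul_sum]
  rw [Finset.sum_comm]
  refine Finset.sum_congr rfl fun i _ => ?_
  rw [Finset.sum_comm]
  refine Finset.sum_congr rfl fun j _ => Finset.sum_congr rfl fun l _ => ?_
  rw [tt_s12 c j l i, tt_s23 c l j i, tt_s12 c l i j, tt_s23 c i l j]; ring

/-- The algebra `k ⊕ W ⊕ V ⊕ k` of the cubic with coefficient function `c`. -/
@[ext] structure GAlg (c : (ι →₀ ℕ) → k) where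
  s : k
  w : ι → k
  v : ι → k
  z : k

namespace GAlg

variable {c : (ι →₀ ℕ) → k}

instance : Zero (GAlg c) := ⟨⟨0, 0, 0, 0⟩⟩
instance : One (GAlg c) := ⟨⟨1, 0, 0, 0⟩⟩
instance : Add (GAlg c) := ⟨fun a b => ⟨a.s + b.s, a.w + b.w, a.v + b.v, a.z + b.z⟩⟩
instance : Neg (GAlg c) := ⟨fun a => ⟨-a.s, -a.w, -a.v, -a.z⟩⟩
instance : Sub (GAlg c) := ⟨fun a b => ⟨a.s - b.s, a.w - b.w, a.v - b.v, a.z - b.z⟩⟩
noncomputable instance : Mul (GAlg c) := ⟨fun a b => ⟨a.s * b.s, a.s • b.w + b.s • a.w,
  a.s • b.v + b.s • a.v + TT c a.w b.w, a.s * b.z + b.s * a.z + dot a.w b.v + dot b.w a.v⟩⟩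
instance : SMul k (GAlg c) := ⟨fun r a => ⟨r * a.s, r • a.w, r • a.v, r * a.z⟩⟩
instance : SMul ℕ (GAlg c) := ⟨fun r a => ⟨r • a.s, r • a.w, r • a.v, r • a.z⟩⟩
instance : SMul ℤ (GAlg c) := ⟨fun r a => ⟨r • a.s, r • a.w, r • a.v, r • a.z⟩⟩

@[simp] theorem zero_s : (0 : GAlg c).s = 0 := rfl
@[simp] theorem zero_w : (0 : GAlg c).w = 0 := rfl
@[simp] theorem zero_v : (0 : GAlg c).v = 0 := rfl
@[simp] theorem zero_z : (0 : GAlg c).z = 0 := rfl
@[simp] theorem one_s : (1 : GAlg c).s = 1 := rfl
@[simp] theorem one_w : (1 : GAlg c).w = 0 := rfl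
@[simp] theorem one_v : (1 : GAlg c).v = 0 := rfl
@[simp] theorem one_z : (1 : GAlg c).z = 0 := rfl
@[simp] theorem add_s (a b : GAlg c) : (a + b).s = a.s + b.s := rfl
@[simp] theorem add_w (a b : GAlg c) : (a + b).w = a.w + b.w := rfl
@[simp] theorem add_v (a b : GAlg c) : (a + b).v = a.v + b.v := rfl
@[simp] theorem add_z (a b : GAlg c) : (a + b).z = a.z + b.z := rfl
@[simp] theorem neg_s (a : GAlg c) : (-a).s = -a.s := rfl
@[simp] theorem neg_w (a : GAlg c) : (-a).w = -a.w := rfl
@[simp] theorem neg_v (a : GAlg c) : (-a).v = -a.v := rfl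
@[simp] theorem neg_z (a : GAlg c) : (-a).z = -a.z := rfl
@[simp] theorem sub_s (a b : GAlg c) : (a - b).s = a.s - b.s := rfl
@[simp] theorem sub_w (a b : GAlg c) : (a - b).w = a.w - b.w := rfl
@[simp] theorem sub_v (a b : GAlg c) : (a - b).v = a.v - b.v := rfl
@[simp] theorem sub_z (a b : GAlg c) : (a - b).z = a.z - b.z := rfl
@[simp] theorem mul_s (a b : GAlg c) : (a * b).s = a.s * b.s := rfl
@[simp] theorem mul_w (a b : GAlg c) : (a * b).w = a.s • b.w + b.s • a.w := rfl
@[simp] theorem mul_v (a b : GAlg c) : (a * b).v = a.s • b.v + b.s • a.v + TT c a.w b.w := rfl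
@[simp] theorem mul_z (a b : GAlg c) :
    (a * b).z = a.s * b.z + b.s * a.z + dot a.w b.v + dot b.w a.v := rfl
@[simp] theorem smul_s (r : k) (a : GAlg c) : (r • a).s = r * a.s := rfl
@[simp] theorem smul_w (r : k) (a : GAlg c) : (r • a).w = r • a.w := rfl
@[simp] theorem smul_v (r : k) (a : GAlg c) : (r • a).v = r • a.v := rfl
@[simp] theorem smul_z (r : k) (a : GAlg c) : (r • a).z = r * a.z := rfl

/-- to a product -/
def toProd (a : GAlg c) : k × (ι → k) × (ι → k) × k := (a.s, a.w, a.v, a.z)

theorem toProd_injective : Function.Injective (toProd : GAlg c → _) := by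
  intro a b h
  simp only [toProd, Prod.mk.injEq] at h
  exact GAlg.ext h.1 h.2.1 h.2.2.1 h.2.2.2

instance : AddCommGroup (GAlg c) :=
  toProd_injective.addCommGroup toProd rfl (fun _ _ => rfl) (fun _ => rfl) (fun _ _ => rfl)
    (fun _ _ => rfl) (fun _ _ => rfl)

theorem TT_zero_left (b : ι → k) : TT c 0 b = 0 := by
  have := TT_smul_left c 0 0 b; simpa using this
theorem TT_zero_right (b : ι → k) : TT c b 0 = 0 := by rw [TT_comm, TT_zero_left]
theorem dot_zero_left (b : ι → k) : dot 0 b = 0 := by
  have := dot_smul_left 0 0 b; simpa using this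
theorem dot_zero_right (b : ι → k) : dot b 0 = 0 := by rw [dot_comm, dot_zero_left]

noncomputable instance : CommRing (GAlg c) where
  __ := (inferInstance : AddCommGroup (GAlg c))
  mul_comm := fun a b => by
    ext
    · simp [mul_comm]
    · simp [add_comm]
    · simp [add_comm, TT_comm c a.w b.w]
    · simp only [mul_z]; ring
  one_mul := fun a => by
    ext <;> simp [TT_zero_left, dot_zero_left, dot_zero_right]
  mul_one := fun a => by
    ext <;> simp [TT_zero_right, dot_zero_left, dot_zero_right]
  zero_mul := fun a => by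
    ext <;> simp [TT_zero_left, dot_zero_left, dot_zero_right]
  mul_zero := fun a => by
    ext <;> simp [TT_zero_right, dot_zero_left, dot_zero_right]
  left_distrib := fun a b d => by
    ext
    · simp; ring
    · simp; ring
    · simp [TT_add_right]; ring
    · simp [dot_add_left, dot_add_right]; ring
  right_distrib := fun a b d => by
    ext
    · simp; ring
    · simp; ring
    · simp [TT_add_left]; ring
    · simp [dot_add_left, dot_add_right]; ring
  mul_assoc := fun a b d => by
    ext
    · simp; ring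
    · simp; ring
    · simp only [mul_v, mul_s, mul_w, TT_add_left, TT_smul_left, TT_add_right, TT_smul_right,
        Pi.add_apply, Pi.smul_apply, smul_eq_mul]; ring
    · simp only [mul_v, mul_s, mul_w, mul_z, dot_add_left, dot_smul_left, dot_add_right,
        dot_smul_right]
      rw [dot_comm d.w (TT c a.w b.w), dot_TT]; ring

instance : Module k (GAlg c) where
  one_smul := fun a => by ext <;> simp
  mul_smul := fun r s a => by ext <;> simp [mul_assoc]
  smul_zero := fun r => by ext <;> simp
  smul_add := fun r a b => by ext <;> simp [mul_add]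
  add_smul := fun r s a => by ext <;> simp [add_mul]
  zero_smul := fun a => by ext <;> simp

noncomputable instance : Algebra k (GAlg c) :=
  Algebra.ofModule
    (fun r a b => by
      ext
      · simp; ring
      · simp; ring
      · simp [TT_smul_left]; ring
      · simp [dot_smul_left, dot_smul_right]; ring)
    (fun r a b => by
      ext
      · simp; ring
      · simp; ring
      · simp [TT_smul_right]; ring
      · simp [dot_smul_left, dot_smul_right]; ring)

end GAlg

end Pool.Agent.J6H80.Cubic
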