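import Mathlib
import Pool.Agent.J6H80.Cubic.GAlg
import Pool.Agent.J6H80.Cubic.Defs

/-!
The coordinate model `GAlg c` and the algebra `R/Ann(F)`.
-/

set_option linter.unusedSectionVars false

open MvPolynomial

namespace Pool.Agent.J6H80.Cubic

namespace GAlg

variable {ι k : Type*} [Fintype ι] [DecidableEq ι] [CommRing k] (c : (ι →₀ ℕ) → k)

/-- the degree one generators -/
def xg (i : ι) : GAlg c := ⟨0, Pi.single i 1, 0, 0⟩

theorem TT_single (i j : ι) :
    TT c (Pi.single i 1) (Pi.single j 1) = fun l => tt c i j l := by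
  funext l
  unfold TT
  rw [Finset.sum_eq_single i]
  · rw [Finset.sum_eq_single j]
    · simp
    · intro b _ hb; simp [Pi.single_apply, hb]
    · intro h; exact absurd (Finset.mem_univ _) h
  · intro b _ hb; simp [Pi.single_apply, hb]
  · intro h; exact absurd (Finset.mem_univ _) h

theorem dot_single_left (i : ι) (v : ι → k) : dot (Pi.single i 1) v = v i := by
  unfold dot; simp [Pi.single_apply]

theorem xg_mul_xg (i j : ι) : xg c i * xg c j = ⟨0, 0, fun l => tt c i j l, 0⟩ := by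
  ext l
  · simp [xg]
  · simp [xg]
  · simp [xg, TT_single]
  · simp [xg, dot_zero_right]

theorem xg_mul_v (i : ι) (v : ι → k) : xg c i * ⟨0, 0, v, 0⟩ = ⟨0, 0, 0, v i⟩ := by
  ext l
  · simp [xg]
  · simp [xg]
  · simp [xg, TT_zero_right]
  · simp [xg, dot_zero_left, dot_single_left]

theorem xg_mul_z (i : ι) (z : k) : xg c i * ⟨0, 0, 0, z⟩ = 0 := by
  ext l
  · simp [xg]
  · simp [xg]
  · simp [xg, TT_zero_right]
  · simp [xg, dot_zero_left, dot_zero_right]

/-- evaluation at the generators -/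
noncomputable def ev : MvPolynomial ι k →ₐ[k] GAlg c := aeval (xg c)

@[simp] theorem ev_X (i : ι) : ev c (X i) = xg c i := aeval_X _ _

/-- the last coordinate -/
def zL : GAlg c →ₗ[k] k where
  toFun a := a.z
  map_add' _ _ := rfl
  map_smul' _ _ := rfl

theorem exists_decomp (α : ι →₀ ℕ) {n : ℕ} (h : α.degree = n + 1) :
    ∃ i β, α = Finsupp.single i 1 + β ∧ β.degree = n := by
  have hne : α ≠ 0 := by rintro rfl; simp at h
  obtain ⟨i, hi⟩ := Finsupp.ne_iff.mp hne
  have hle : Finsupp.single i 1 ≤ α := by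
    rw [Finsupp.single_le_iff]; simp at hi; omega
  refine ⟨i, α - Finsupp.single i 1, (add_tsub_cancel_of_le hle).symm, ?_⟩
  have := congrArg Finsupp.degree (add_tsub_cancel_of_le hle)
  rw [map_add, Finsupp.degree_single, h] at this
  omega

theorem ev_monomial_add (i : ι) (β : ι →₀ ℕ) :
    ev c (monomial (Finsupp.single i 1 + β) 1) = xg c i * ev c (monomial β 1) := by
  have : (monomial (Finsupp.single i 1 + β) 1 : MvPolynomial ι k) = X i * monomial β 1 := by
    rw [X, monomial_mul, one_mul]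
  rw [this, map_mul, ev_X]

theorem ev_deg0 (α : ι →₀ ℕ) (h : α.degree = 0) : ev c (monomial α 1) = 1 := by
  rw [Finsupp.degree_eq_zero_iff] at h
  subst h
  rw [show (monomial (0 : ι →₀ ℕ) (1 : k)) = 1 from rfl, map_one]

theorem ev_deg1 (i : ι) : ev c (monomial (Finsupp.single i 1) 1) = xg c i := by
  have : (monomial (Finsupp.single i 1) 1 : MvPolynomial ι k) = X i := rfl
  rw [this, ev_X]

theorem ev_deg2 (i j : ι) : ev c (monomial (Finsupp.single i 1 + Finsupp.single j 1) 1) =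
    ⟨0, 0, fun l => tt c i j l, 0⟩ := by
  rw [ev_monomial_add, ev_deg1, xg_mul_xg]

theorem ev_deg3 (i j l : ι) :
    ev c (monomial (Finsupp.single i 1 + (Finsupp.single j 1 + Finsupp.single l 1)) 1) =
    ⟨0, 0, 0, tt c j l i⟩ := by
  rw [ev_monomial_add, ev_deg2, xg_mul_v]

theorem ev_deg_ge (n : ℕ) : ∀ α : ι →₀ ℕ, α.degree = n + 4 → ev c (monomial α 1) = 0 := by
  induction n with
  | zero =>
    intro α h
    obtain ⟨i, β, rfl, hβ⟩ := exists_decomp α h
    obtain ⟨j, γ, rfl, hγ⟩ := exists_decomp β hβ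
    obtain ⟨l, δ, rfl, hδ⟩ := exists_decomp γ hγ
    obtain ⟨m, ε, rfl, hε⟩ := exists_decomp δ hδ
    rw [Finsupp.degree_eq_zero_iff] at hε
    subst hε
    rw [add_zero, ev_monomial_add, ev_deg3, xg_mul_z]
  | succ n ih =>
    intro α h
    obtain ⟨i, β, rfl, hβ⟩ := exists_decomp α (n := n + 4) (by omega)
    rw [ev_monomial_add, ih β hβ, mul_zero]

/-- the functional `z ∘ ev` reads off the cubic coefficients -/
theorem z_ev_monomial (hc : ∀ α : ι →₀ ℕ, α.degree ≠ 3 → c α = 0) (α : ι →₀ ℕ) :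
    (ev c (monomial α 1)).z = c α := by
  by_cases h0 : α.degree = 0
  · rw [ev_deg0 c α h0, hc α (by omega)]; rfl
  by_cases h1 : α.degree = 1
  · obtain ⟨i, β, rfl, hβ⟩ := exists_decomp α (n := 0) h1
    rw [Finsupp.degree_eq_zero_iff] at hβ
    subst hβ
    rw [add_zero] at *
    rw [ev_deg1, hc _ (by omega)]; rfl
  by_cases h2 : α.degree = 2
  · obtain ⟨i, β, rfl, hβ⟩ := exists_decomp α (n := 1) h2
    obtain ⟨j, γ, rfl, hγ⟩ := exists_decomp β (n := 0) hβ
    rw [Finsupp.degree_eq_zero_iff] at hγ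
    subst hγ
    rw [add_zero] at *
    rw [ev_deg2, hc _ (by omega)]
  by_cases h3 : α.degree = 3
  · obtain ⟨i, β, rfl, hβ⟩ := exists_decomp α (n := 2) h3
    obtain ⟨j, γ, rfl, hγ⟩ := exists_decomp β (n := 1) hβ
    obtain ⟨l, δ, rfl, hδ⟩ := exists_decomp γ (n := 0) hγ
    rw [Finsupp.degree_eq_zero_iff] at hδ
    subst hδ
    rw [add_zero, ev_deg3]
    show tt c j l i = _
    unfold tt
    congr 1
    abel
  · rw [ev_deg_ge c (α.degree - 4) α (by omega), hc α h3]; rfl

theorem nondeg (a : GAlg c) (h : ∀ b : GAlg c, (a * b).z = 0) : a = 0 := by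
  have h1 : a.s = 0 := by
    have := h ⟨0, 0, 0, 1⟩
    simpa [dot_zero_left, dot_zero_right] using this
  have h2 : a.w = 0 := by
    funext i
    have := h ⟨0, 0, Pi.single i 1, 0⟩
    simp only [mul_z, dot_zero_left, mul_zero, zero_mul, zero_add, add_zero] at this
    rw [dot_comm, dot_single_left] at this
    exact this
  have h3 : a.v = 0 := by
    funext i
    have := h ⟨0, Pi.single i 1, 0, 0⟩
    simp only [mul_z, dot_zero_right, mul_zero, zero_mul, zero_add, add_zero] at this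
    rw [dot_single_left] at this
    exact this
  have h4 : a.z = 0 := by
    have := h 1
    simpa using this
  exact GAlg.ext h1 h2 h3 h4

end GAlg

section Field

variable {k : Type*} [Field k] {ι : Type*} [Fintype ι] [DecidableEq ι]

/-- nondegeneracy condition: the `r` products `x_(p l) x_(q l)` are linearly independent in
degree two -/
noncomputable def goodMat {B : Type*} [CommRing B] (p q : ι → ι) (c : (ι →₀ ℕ) → B) : Matrix ι ι B :=
  Matrix.of fun l l' => tt c (p l) (q l) l'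

theorem surj_of_good [Nonempty ι] (p q : ι → ι) (c : (ι →₀ ℕ) → k)
    (hgood : (goodMat p q c).det ≠ 0) (y : ι → GAlg c)
    (hy : (Matrix.of fun i j => (y i).w j).det ≠ 0) :
    Function.Surjective (aeval y : MvPolynomial ι k →ₐ[k] GAlg c) := by
  set S : Subalgebra k (GAlg c) := (aeval y : MvPolynomial ι k →ₐ[k] GAlg c).range with hS
  have hyS : ∀ i, y i ∈ S := fun i => ⟨X i, aeval_X _ _⟩
  -- elements `E i` with `w`-part `e_i` and `s`-part `0`
  set A : Matrix ι ι k := Matrix.of fun i j => (y i).w j with hA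
  have hAinv : A⁻¹ * A = 1 := Matrix.nonsing_inv_mul A (isUnit_iff_ne_zero.mpr hy)
  have hE : ∀ i, ∃ E ∈ S, E.s = 0 ∧ E.w = Pi.single i 1 := by
    intro i
    refine ⟨∑ j, A⁻¹ i j • (y j - (y j).s • 1), ?_, ?_, ?_⟩
    · exact Subalgebra.sum_mem _ fun j _ => Subalgebra.smul_mem _
        (Subalgebra.sub_mem _ (hyS j) (Subalgebra.smul_mem _ (Subalgebra.one_mem _) _)) _
    · have hs : ∀ (f : ι → GAlg c), (∑ j, f j).s = ∑ j, (f j).s := fun f => by
        let φ : GAlg c →+ k := ⟨⟨fun a => a.s, rfl⟩, fun _ _ => rfl⟩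
        exact map_sum φ f _
      rw [hs]
      simp
    · have hs : ∀ (f : ι → GAlg c), (∑ j, f j).w = ∑ j, (f j).w := fun f => by
        let φ : GAlg c →+ (ι → k) := ⟨⟨fun a => a.w, rfl⟩, fun _ _ => rfl⟩
        exact map_sum φ f _
      rw [hs]
      funext l
      have e1 := congrFun (congrFun hAinv i) l
      rw [Matrix.mul_apply] at e1
      simp only [Finset.sum_apply, GAlg.smul_w, GAlg.sub_w, GAlg.one_w, smul_zero, sub_zero,
        Pi.smul_apply, smul_eq_mul]
      rw [show ∑ x, A⁻¹ i x * (y x).w l = ∑ j, A⁻¹ i j * A j l from rfl, e1]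
      rw [Matrix.one_apply, Pi.single_apply]
      simp [eq_comm]
  choose E hES hEs hEw using hE
  -- elements `V l`
  set G : Matrix ι ι k := goodMat p q c with hG
  have hGinv : G⁻¹ * G = 1 := Matrix.nonsing_inv_mul G (isUnit_iff_ne_zero.mpr hgood)
  have hV : ∀ i, ∃ V ∈ S, V.s = 0 ∧ V.w = 0 ∧ V.v = Pi.single i 1 := by
    intro i
    refine ⟨∑ j, G⁻¹ i j • (E (p j) * E (q j)), ?_, ?_, ?_, ?_⟩
    · exact Subalgebra.sum_mem _ fun j _ => Subalgebra.smul_mem _
        (Subalgebra.mul_mem _ (hES _) (hES _)) _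
    · have hs : ∀ (f : ι → GAlg c), (∑ j, f j).s = ∑ j, (f j).s := fun f => by
        let φ : GAlg c →+ k := ⟨⟨fun a => a.s, rfl⟩, fun _ _ => rfl⟩
        exact map_sum φ f _
      rw [hs]
      simp [hEs]
    · have hs : ∀ (f : ι → GAlg c), (∑ j, f j).w = ∑ j, (f j).w := fun f => by
        let φ : GAlg c →+ (ι → k) := ⟨⟨fun a => a.w, rfl⟩, fun _ _ => rfl⟩
        exact map_sum φ f _
      rw [hs]
      simp [hEs]
    · have hs : ∀ (f : ι → GAlg c), (∑ j, f j).v = ∑ j, (f j).v := fun f => by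
        let φ : GAlg c →+ (ι → k) := ⟨⟨fun a => a.v, rfl⟩, fun _ _ => rfl⟩
        exact map_sum φ f _
      rw [hs]
      funext l
      have e1 := congrFun (congrFun hGinv i) l
      rw [Matrix.mul_apply] at e1
      simp only [Finset.sum_apply, GAlg.smul_v, GAlg.mul_v, hEs, hEw, zero_smul, zero_add,
        Pi.smul_apply, smul_eq_mul, GAlg.TT_single]
      rw [show ∑ x, G⁻¹ i x * tt c (p x) (q x) l = ∑ j, G⁻¹ i j * G j l from rfl, e1]
      rw [Matrix.one_apply, Pi.single_apply]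
      simp [eq_comm]
  choose V hVS hVs hVw hVv using hV
  obtain ⟨i0⟩ := ‹Nonempty ι›
  have hZ : (⟨0, 0, 0, 1⟩ : GAlg c) ∈ S := by
    have h1 : E i0 * V i0 ∈ S := Subalgebra.mul_mem _ (hES _) (hVS _)
    have h2 : E i0 * V i0 = ⟨0, 0, 0, 1⟩ := by
      ext
      · simp [hEs]
      · simp [hEs, hVs, hVw]
      · simp [hEs, hVs, hVw, GAlg.TT_zero_right]
      · simp only [GAlg.mul_z, hEs, hVs, hVw, hVv, hEw, zero_mul, GAlg.dot_zero_left,
          GAlg.dot_single_left]
        simp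
    rwa [← h2]
  rw [← AlgHom.range_eq_top, ← hS, eq_top_iff]
  intro a _
  have hsw : ∀ (f : ι → GAlg c), (∑ j, f j).s = ∑ j, (f j).s := fun f => by
    let φ : GAlg c →+ k := ⟨⟨fun a => a.s, rfl⟩, fun _ _ => rfl⟩
    exact map_sum φ f _
  have hww : ∀ (f : ι → GAlg c), (∑ j, f j).w = ∑ j, (f j).w := fun f => by
    let φ : GAlg c →+ (ι → k) := ⟨⟨fun a => a.w, rfl⟩, fun _ _ => rfl⟩
    exact map_sum φ f _
  have hvw : ∀ (f : ι → GAlg c), (∑ j, f j).v = ∑ j, (f j).v := fun f => by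
    let φ : GAlg c →+ (ι → k) := ⟨⟨fun a => a.v, rfl⟩, fun _ _ => rfl⟩
    exact map_sum φ f _
  set b : GAlg c := a - a.s • 1 - ∑ i, a.w i • E i with hb
  have hbs : b.s = 0 := by rw [hb]; simp [hsw, hEs]
  have hbw : b.w = 0 := by
    rw [hb]
    funext l
    simp only [GAlg.sub_w, GAlg.smul_w, GAlg.one_w, smul_zero, sub_zero, hww, hEw, Pi.sub_apply,
      Finset.sum_apply, Pi.smul_apply, smul_eq_mul, Pi.zero_apply]
    simp [Pi.single_apply]
  set d : GAlg c := b - ∑ i, b.v i • V i with hd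
  have hds : d.s = 0 := by rw [hd]; simp [hsw, hVs, hbs]
  have hdw : d.w = 0 := by rw [hd]; simp [hww, hVw, hbw]
  have hdv : d.v = 0 := by
    rw [hd]
    funext l
    simp only [GAlg.sub_v, hvw, GAlg.smul_v, hVv, Pi.sub_apply, Finset.sum_apply, Pi.smul_apply,
      smul_eq_mul, Pi.zero_apply]
    simp [Pi.single_apply]
  have hdz : d = d.z • (⟨0, 0, 0, 1⟩ : GAlg c) := by
    ext
    · simp [hds]
    · simp [hdw]
    · simp [hdv]
    · simp
  have hdS : d ∈ S := by rw [hdz]; exact Subalgebra.smul_mem _ hZ _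
  have hbS : b ∈ S := by
    have : b = d + ∑ i, b.v i • V i := by rw [hd]; ring
    rw [this]
    exact Subalgebra.add_mem _ hdS (Subalgebra.sum_mem _ fun i _ => Subalgebra.smul_mem _ (hVS i) _)
  have : a = b + a.s • 1 + ∑ i, a.w i • E i := by rw [hb]; ring
  rw [this]
  exact Subalgebra.add_mem _ (Subalgebra.add_mem _ hbS
    (Subalgebra.smul_mem _ (Subalgebra.one_mem _) _))
    (Subalgebra.sum_mem _ fun i _ => Subalgebra.smul_mem _ (hES i) _)

theorem ev_surj_of_good [Nonempty ι] (p q : ι → ι) (c : (ι →₀ ℕ) → k)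
    (hgood : (goodMat p q c).det ≠ 0) : Function.Surjective (GAlg.ev c) := by
  apply surj_of_good p q c hgood
  have : (Matrix.of fun i j => (GAlg.xg c i).w j) = (1 : Matrix ι ι k) := by
    ext i j
    simp [GAlg.xg, Matrix.one_apply, Pi.single_apply, eq_comm]
  rw [this, Matrix.det_one]
  exact one_ne_zero

end Field

section AnnF

universe u
variable {k : Type u} [Field k] {r : ℕ}

/-- coefficient function of a polynomial -/
def cf (F : MvPolynomial (Fin r) k) : (Fin r →₀ ℕ) → k := fun α => coeff α F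

theorem cf_deg (F : CubicForm k r) (α : Fin r →₀ ℕ) (h : α.degree ≠ 3) : cf F.1 α = 0 := by
  by_contra hne
  exact h (by
    have := F.2 hne
    rwa [Finsupp.degree_eq_weight_one])

theorem z_ev (F : CubicForm k r) (P : MvPolynomial (Fin r) k) :
    (GAlg.ev (cf F.1) P).z = pairL F.1 P := by
  have : (GAlg.zL (cf F.1)).comp (GAlg.ev (cf F.1)).toLinearMap = pairL F.1 := by
    apply (basisMonomials (Fin r) k).ext
    intro α
    rw [coe_basisMonomials]
    show (GAlg.ev (cf F.1) (monomial α 1)).z = _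
    rw [GAlg.z_ev_monomial (cf F.1) (cf_deg F) α, pairL_monomial, one_mul]
    rfl
  exact LinearMap.congr_fun this P

theorem ker_ev (F : CubicForm k r) (hs : Function.Surjective (GAlg.ev (cf F.1))) :
    RingHom.ker (GAlg.ev (cf F.1)) = Ann F.1 := by
  ext P
  rw [RingHom.mem_ker, mem_Ann_iff]
  constructor
  · intro h Q
    rw [← z_ev, map_mul, h, zero_mul]; rfl
  · intro h
    apply GAlg.nondeg
    intro b
    obtain ⟨Q, rfl⟩ := hs b
    rw [← map_mul, z_ev]
    exact h Q

/-- `R/Ann(F) ≃ GAlg` -/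
noncomputable def annEquiv (F : CubicForm k r) (hs : Function.Surjective (GAlg.ev (cf F.1))) :
    AF F ≃ₐ[k] GAlg (cf F.1) :=
  (Ideal.quotientEquivAlgOfEq k (ker_ev F hs).symm).trans
    (Ideal.quotientKerAlgEquivOfSurjective hs)

end AnnF

end Pool.Agent.J6H80.Cubic
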