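import Mathlib
import Pool.Agent.J6H80.Cubic.Core
import Pool.Agent.J6H80.Cubic.Model

/-!
Analysis of first order deformations of the coordinate model.
-/

set_option linter.unusedSectionVars false

open MvPolynomial

namespace Pool.Agent.J6H80.Cubic

section EvalOp

variable {k ι : Type*} [Field k] {E : Type*} [AddCommGroup E] [Module k E]

open scoped IsMulCommutative in
/-- a commuting family of operators gives an action of the polynomial ring -/
theorem exists_evalOp (O : ι → Module.End k E) (h : ∀ i j, O i * O j = O j * O i) :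
    ∃ ρ : MvPolynomial ι k →ₐ[k] Module.End k E, ∀ i, ρ (X i) = O i := by
  have hc : ∀ a ∈ Set.range O, ∀ b ∈ Set.range O, a * b = b * a := by
    rintro _ ⟨i, rfl⟩ _ ⟨j, rfl⟩
    exact h i j
  have := Algebra.isMulCommutative_adjoin k hc
  let ρ0 : MvPolynomial ι k →ₐ[k] Algebra.adjoin k (Set.range O) :=
    aeval fun i => (⟨O i, Algebra.subset_adjoin ⟨i, rfl⟩⟩ : Algebra.adjoin k (Set.range O))
  refine ⟨(Algebra.adjoin k (Set.range O)).val.comp ρ0, fun i => ?_⟩
  show (Algebra.adjoin k (Set.range O)).val (ρ0 (X i)) = O i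
  rw [show ρ0 (X i) = (⟨O i, Algebra.subset_adjoin ⟨i, rfl⟩⟩ : Algebra.adjoin k (Set.range O)) from
    aeval_X _ _]
  rfl

end EvalOp

section Ix

/-- reduction of an integer modulo `r` -/
def ix (r : ℕ) [NeZero r] (n : ℤ) : Fin r :=
  ⟨(n % (r : ℤ)).toNat, by
    have hr : (0 : ℤ) < r := by exact_mod_cast Nat.pos_of_ne_zero (NeZero.ne r)
    have h1 := Int.emod_nonneg n hr.ne'
    have h2 := Int.emod_lt_of_pos n hr
    omega⟩

variable {r : ℕ} [NeZero r]

theorem ix_val (n : ℤ) : ((ix r n).val : ℤ) = n % r := by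
  have hr : (0 : ℤ) < r := by exact_mod_cast Nat.pos_of_ne_zero (NeZero.ne r)
  show (((n % (r : ℤ)).toNat : ℕ) : ℤ) = _
  rw [Int.toNat_of_nonneg (Int.emod_nonneg n hr.ne')]

theorem ix_eq_iff (m n : ℤ) : ix r m = ix r n ↔ m % r = n % r := by
  rw [Fin.ext_iff, ← Int.natCast_inj, ix_val, ix_val]

theorem ix_coe (i : Fin r) : ix r (i.val : ℤ) = i := by
  rw [Fin.ext_iff, ← Int.natCast_inj, ix_val]
  exact Int.emod_eq_of_lt (by positivity) (by exact_mod_cast i.2)

theorem ix_add (n d : ℤ) : ix r (((ix r n).val : ℤ) + d) = ix r (n + d) := by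
  rw [ix_eq_iff, ix_val, Int.emod_add_emod]

theorem ix_per (n : ℤ) : ix r (n + r) = ix r n := by
  rw [ix_eq_iff, Int.add_emod_right]

end Ix

section Tangent

variable {k : Type*} [Field k] {r : ℕ} [NeZero r]

/-- the periodic sequence of variables -/
noncomputable def xs (k : Type*) [Field k] (r : ℕ) [NeZero r] (n : ℤ) : MvPolynomial (Fin r) k :=
  X (ix r n)

theorem s_ev_monomial (c : (Fin r →₀ ℕ) → k) (α : Fin r →₀ ℕ) :
    (GAlg.ev c (monomial α 1)).s = if α = 0 then 1 else 0 := by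
  by_cases h0 : α.degree = 0
  · rw [GAlg.ev_deg0 c α h0, if_pos ((Finsupp.degree_eq_zero_iff α).mp h0)]; rfl
  · have hne : α ≠ 0 := by rintro rfl; simp at h0
    rw [if_neg hne]
    obtain ⟨i, β, rfl, hβ⟩ := GAlg.exists_decomp α (n := α.degree - 1) (by omega)
    rw [GAlg.ev_monomial_add]
    simp [GAlg.xg]

theorem w_ev_monomial (c : (Fin r →₀ ℕ) → k) (α : Fin r →₀ ℕ) (i : Fin r) :
    (GAlg.ev c (monomial α 1)).w i = if α = Finsupp.single i 1 then 1 else 0 := by
  by_cases h0 : α.degree = 0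
  · have : α = 0 := (Finsupp.degree_eq_zero_iff α).mp h0
    subst this
    rw [GAlg.ev_deg0 c 0 h0, if_neg]
    · rfl
    · intro h
      have := congrArg Finsupp.degree h
      simp at this
  · obtain ⟨j, β, rfl, hβ⟩ := GAlg.exists_decomp α (n := α.degree - 1) (by omega)
    by_cases h1 : β.degree = 0
    · have : β = 0 := (Finsupp.degree_eq_zero_iff β).mp h1
      subst this
      rw [add_zero, GAlg.ev_deg1]
      simp only [Finsupp.single_left_inj (one_ne_zero : (1 : ℕ) ≠ 0)]
      simp [GAlg.xg, Pi.single_apply, eq_comm]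
    · obtain ⟨l, γ, rfl, hγ⟩ := GAlg.exists_decomp β (n := β.degree - 1) (by omega)
      rw [GAlg.ev_monomial_add, GAlg.ev_monomial_add, if_neg]
      · simp [GAlg.xg]
      · intro h
        have := congrArg Finsupp.degree h
        simp at this

theorem s_ev (c : (Fin r →₀ ℕ) → k) (P : MvPolynomial (Fin r) k) :
    (GAlg.ev c P).s = coeff 0 P := by
  have hs : ∀ a b : GAlg c, (a + b).s = a.s + b.s := fun _ _ => rfl
  induction P using MvPolynomial.induction_on' with
  | monomial α a =>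
    have : monomial α a = a • (monomial α 1 : MvPolynomial (Fin r) k) := by
      rw [smul_monomial, smul_eq_mul, mul_one]
    rw [this, map_smul, GAlg.smul_s, s_ev_monomial, coeff_smul, coeff_monomial, smul_eq_mul]
  | add p q hp hq => rw [map_add, hs, hp, hq, coeff_add]

theorem w_ev (c : (Fin r →₀ ℕ) → k) (P : MvPolynomial (Fin r) k) (i : Fin r) :
    (GAlg.ev c P).w i = coeff (Finsupp.single i 1) P := by
  induction P using MvPolynomial.induction_on' with
  | monomial α a =>
    have : monomial α a = a • (monomial α 1 : MvPolynomial (Fin r) k) := by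
      rw [smul_monomial, smul_eq_mul, mul_one]
    rw [this, map_smul, GAlg.smul_w, Pi.smul_apply, w_ev_monomial, coeff_smul, coeff_monomial,
      smul_eq_mul]
  | add p q hp hq => rw [map_add, GAlg.add_w, Pi.add_apply, hp, hq, coeff_add]

/-- a functional vanishing on `I²`, normalised, and vanishing on quadratic and cubic monomials
vanishes on `I`. -/
theorem van_on_ker (c : (Fin r →₀ ℕ) → k)
    (hcyc : Cyc (r : ℤ) (xs k r) (RingHom.ker (GAlg.ev c)))
    (f : MvPolynomial (Fin r) k →ₗ[k] k) (hf : Van (RingHom.ker (GAlg.ev c)) f.toAddMonoidHom)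
    (hn : Nor (xs k r) f.toAddMonoidHom) (h2 : ∀ i j, f (X i * X j) = 0)
    (h3 : ∀ i j l, f (X i * (X j * X l)) = 0) (P : MvPolynomial (Fin r) k)
    (hP : GAlg.ev c P = 0) : f P = 0 := by
  have hX : ∀ i : Fin r, (X i : MvPolynomial (Fin r) k) = xs k r (i.val : ℤ) := fun i => by
    unfold xs; rw [ix_coe]
  have hmono : ∀ (α : Fin r →₀ ℕ), 2 ≤ α.degree → f (monomial α 1) = 0 := by
    intro α hα
    have hX1 : ∀ (i : Fin r) (β : Fin r →₀ ℕ), (monomial (Finsupp.single i 1 + β) 1 :
        MvPolynomial (Fin r) k) = X i * monomial β 1 := fun i β => by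
      rw [X, monomial_mul, one_mul]
    obtain ⟨i, β, rfl, hβ⟩ := GAlg.exists_decomp α (n := α.degree - 1) (by omega)
    obtain ⟨j, γ, rfl, hγ⟩ := GAlg.exists_decomp β (n := β.degree - 1) (by omega)
    rw [hX1, hX1]
    by_cases c2 : γ.degree = 0
    · rw [(Finsupp.degree_eq_zero_iff γ).mp c2, show (monomial (0 : Fin r →₀ ℕ) (1 : k)) = 1
        from rfl, mul_one]
      exact h2 i j
    obtain ⟨l, δ, rfl, hδ⟩ := GAlg.exists_decomp γ (n := γ.degree - 1) (by omega)
    rw [hX1]
    by_cases c3 : δ.degree = 0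
    · rw [(Finsupp.degree_eq_zero_iff δ).mp c3, show (monomial (0 : Fin r →₀ ℕ) (1 : k)) = 1
        from rfl, mul_one]
      exact h3 i j l
    obtain ⟨m, ε, rfl, hε⟩ := GAlg.exists_decomp δ (n := δ.degree - 1) (by omega)
    rw [hX1]
    by_cases c4 : ε.degree = 0
    · rw [(Finsupp.degree_eq_zero_iff ε).mp c4, show (monomial (0 : Fin r →₀ ℕ) (1 : k)) = 1
        from rfl, mul_one, hX i, hX j, hX l, hX m]
      have e := quartic_zero hcyc hf hn i.val j.val l.val m.val
      rw [LinearMap.toAddMonoidHom_coe] at e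
      rw [show xs k r i.val * (xs k r j.val * (xs k r l.val * xs k r m.val)) =
        xs k r i.val * xs k r j.val * (xs k r l.val * xs k r m.val) by ring]
      exact e
    obtain ⟨b, ζ, rfl, hζ⟩ := GAlg.exists_decomp ε (n := ε.degree - 1) (by omega)
    rw [hX1, hX i, hX j, hX l, hX m, hX b]
    have e := quintic_zero hcyc hf (monomial ζ 1) b.val i.val j.val l.val m.val
    rw [LinearMap.toAddMonoidHom_coe] at e
    rw [show xs k r i.val * (xs k r j.val * (xs k r l.val * (xs k r m.val *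
      (xs k r b.val * monomial ζ 1)))) = monomial ζ 1 * xs k r b.val *
        (xs k r i.val * xs k r j.val * (xs k r l.val * xs k r m.val)) by ring]
    exact e
  rw [P.as_sum, map_sum]
  refine Finset.sum_eq_zero fun α hα => ?_
  have : monomial α (coeff α P) = coeff α P • (monomial α 1 : MvPolynomial (Fin r) k) := by
    rw [smul_monomial, smul_eq_mul, mul_one]
  rw [this, map_smul]
  by_cases hd : 2 ≤ α.degree
  · rw [hmono α hd, smul_zero]
  · have hd' : α.degree = 0 ∨ α.degree = 1 := by omega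
    rcases hd' with h0 | h1
    · have h0' : α = 0 := (Finsupp.degree_eq_zero_iff α).mp h0
      subst h0'
      have := s_ev c P
      rw [hP] at this
      rw [← this]
      simp
    · obtain ⟨i, rfl⟩ := (Finsupp.sum_eq_one_iff α).mp h1
      have := w_ev c P i
      rw [hP] at this
      rw [← this]
      simp

/-- the recursion satisfied by first order deformations -/
def Recur (c : (Fin r →₀ ℕ) → k) (D : MvPolynomial (Fin r) k →ₗ[k] GAlg c)
    (Y : Fin r → GAlg c →ₗ[k] GAlg c) : Prop :=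
  ∀ j P, D (X j * P) = GAlg.xg c j * D P + Y j (GAlg.ev c P)

theorem Recur.mul_ker {c : (Fin r →₀ ℕ) → k} {D : MvPolynomial (Fin r) k →ₗ[k] GAlg c}
    {Y : Fin r → GAlg c →ₗ[k] GAlg c} (h : Recur c D Y) (P : MvPolynomial (Fin r) k)
    (hP : GAlg.ev c P = 0) (Q : MvPolynomial (Fin r) k) : D (Q * P) = GAlg.ev c Q * D P := by
  induction Q using MvPolynomial.induction_on with
  | C a =>
    rw [← smul_eq_C_mul, map_smul]
    have : GAlg.ev c (C a) = algebraMap k _ a := (GAlg.ev c).commutes a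
    rw [this, Algebra.smul_def]
  | add p q hp hq => rw [add_mul, map_add, hp, hq, map_add, add_mul]
  | mul_X p j hp =>
    rw [mul_comm p, mul_assoc, h, hp, map_mul (GAlg.ev c), map_mul (GAlg.ev c), hP, mul_zero,
      map_zero, add_zero, GAlg.ev_X, mul_assoc]

/-- the explicit first order deformation attached to `(cd, a, q)` -/
noncomputable def Dom (c cd : (Fin r →₀ ℕ) → k) (y : Fin r → GAlg c) :
    MvPolynomial (Fin r) k →ₗ[k] GAlg c where
  toFun P := ∑ i, GAlg.ev c (pderiv i P) * y i + ⟨0, 0, (GAlg.ev cd P).v, (GAlg.ev cd P).z⟩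
  map_add' P Q := by
    have e1 : ∀ a b : GAlg cd, (⟨0, 0, (a + b).v, (a + b).z⟩ : GAlg c) =
        ⟨0, 0, a.v, a.z⟩ + ⟨0, 0, b.v, b.z⟩ := by intro a b; ext <;> simp
    simp only [map_add, add_mul, Finset.sum_add_distrib, e1]
    abel
  map_smul' t P := by
    have e1 : ∀ (t : k) (a : GAlg cd), (⟨0, 0, (t • a).v, (t • a).z⟩ : GAlg c) =
        t • ⟨0, 0, a.v, a.z⟩ := by intro t a; ext <;> simp
    have e2 : ∀ i, GAlg.ev c (pderiv i (t • P)) * y i = t • (GAlg.ev c (pderiv i P) * y i) := by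
      intro i
      rw [Derivation.map_smul, map_smul, smul_mul_assoc]
    rw [Finset.sum_congr rfl fun i _ => e2 i, map_smul, e1, RingHom.id_apply, smul_add,
      Finset.smul_sum]

theorem Dom_recur (c cd : (Fin r →₀ ℕ) → k) (y : Fin r → GAlg c)
    (Y : Fin r → GAlg c →ₗ[k] GAlg c)
    (hY : ∀ i w, Y i w = y i * w + ⟨0, 0, TT cd (Pi.single i 1) w.w, 0⟩) :
    Recur c (Dom c cd y) Y := by
  intro j P
  show ∑ i, GAlg.ev c (pderiv i (X j * P)) * y i + _ = _ * (∑ i, GAlg.ev c (pderiv i P) * y i + _) + _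
  have e1 : ∀ i, GAlg.ev c (pderiv i (X j * P)) * y i =
      GAlg.xg c j * (GAlg.ev c (pderiv i P) * y i) +
        (if i = j then GAlg.ev c P * y i else 0) := by
    intro i
    rw [Derivation.leibniz, smul_eq_mul, smul_eq_mul, map_add, map_mul (GAlg.ev c),
      map_mul (GAlg.ev c), GAlg.ev_X, pderiv_X, add_mul, mul_assoc]
    congr 1
    rw [Pi.single_apply]
    by_cases h : i = j
    · subst h; simp
    · rw [if_neg (Ne.symm h), if_neg h]; simp
  rw [Finset.sum_congr rfl fun i _ => e1 i, Finset.sum_add_distrib, ← Finset.mul_sum,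
    Finset.sum_ite_eq', if_pos (Finset.mem_univ j), hY, mul_add]
  have e2 : (⟨0, 0, (GAlg.ev cd (X j * P)).v, (GAlg.ev cd (X j * P)).z⟩ : GAlg c) =
      GAlg.xg c j * ⟨0, 0, (GAlg.ev cd P).v, (GAlg.ev cd P).z⟩ +
        ⟨0, 0, TT cd (Pi.single j 1) (GAlg.ev c P).w, 0⟩ := by
    have hw : (GAlg.ev cd P).w = (GAlg.ev c P).w := by
      funext i; rw [w_ev, w_ev]
    rw [map_mul, GAlg.ev_X]
    ext l
    · simp [GAlg.xg]
    · simp [GAlg.xg]
    · simp only [GAlg.mul_v, GAlg.add_v, GAlg.xg, hw, GAlg.TT_zero_right, zero_smul, smul_zero,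
        zero_add, add_zero]
    · simp only [GAlg.mul_z, GAlg.add_z, GAlg.xg, GAlg.dot_zero_right, GAlg.dot_zero_left,
        zero_mul, zero_add, add_zero, mul_zero]
  rw [e2, mul_comm (y j)]
  abel

/-- **Splitting of first order deformations.** -/
theorem tangent_split [CharZero k] (c : (Fin r →₀ ℕ) → k)
    (hcyc : Cyc (r : ℤ) (xs k r) (RingHom.ker (GAlg.ev c)))
    (hedge : ∀ n : ℤ, tt c (ix r n) (ix r (n + 1)) (ix r (n + 2)) = 1)
    (hsurj : Function.Surjective (GAlg.ev c))
    (Xd : Fin r → GAlg c →ₗ[k] GAlg c) (vd : GAlg c)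
    (hcomm : ∀ i j w, Xd i (GAlg.xg c j * w) + GAlg.xg c i * Xd j w =
      Xd j (GAlg.xg c i * w) + GAlg.xg c j * Xd i w) :
    ∃ (cd : (Fin r →₀ ℕ) → k) (y : Fin r → GAlg c) (Γ : GAlg c →ₗ[k] GAlg c),
      (∀ α : Fin r →₀ ℕ, α.degree ≠ 3 → cd α = 0) ∧
      (∀ i w, Xd i w = y i * w + ⟨0, 0, TT cd (Pi.single i 1) w.w, 0⟩ +
        (Γ (GAlg.xg c i * w) - GAlg.xg c i * Γ w)) ∧ vd = Γ 1 := by
  have h8 : (8 : ℤ) ≤ r := hcyc.hr
  -- the operators on pairs
  let O : Fin r → Module.End k (GAlg c × GAlg c) := fun i =>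
    { toFun := fun x => (GAlg.xg c i * x.1, GAlg.xg c i * x.2 + Xd i x.1)
      map_add' := fun x y => by
        ext1
        · show _ * (x.1 + y.1) = _ * x.1 + _ * y.1
          rw [mul_add]
        · show _ * (x.2 + y.2) + Xd i (x.1 + y.1) = (_ * x.2 + Xd i x.1) + (_ * y.2 + Xd i y.1)
          rw [mul_add, map_add]; abel
      map_smul' := fun t x => by
        ext1
        · show _ * (t • x.1) = t • (_ * x.1)
          rw [mul_smul_comm]
        · show _ * (t • x.2) + Xd i (t • x.1) = t • (_ * x.2 + Xd i x.1)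
          rw [mul_smul_comm, map_smul, smul_add] }
  have hO : ∀ i x, O i x = (GAlg.xg c i * x.1, GAlg.xg c i * x.2 + Xd i x.1) := fun _ _ => rfl
  obtain ⟨ρ, hρ⟩ := exists_evalOp O (fun i j => by
    apply LinearMap.ext
    intro x
    show O i (O j x) = O j (O i x)
    rw [hO, hO, hO, hO]
    ext1
    · show GAlg.xg c i * (GAlg.xg c j * x.1) = GAlg.xg c j * (GAlg.xg c i * x.1)
      ring
    · show GAlg.xg c i * (GAlg.xg c j * x.2 + Xd j x.1) + Xd i (GAlg.xg c j * x.1) =
        GAlg.xg c j * (GAlg.xg c i * x.2 + Xd i x.1) + Xd j (GAlg.xg c i * x.1)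
      have := hcomm i j x.1
      linear_combination this)
  have hfst : ∀ (P : MvPolynomial (Fin r) k) (x : GAlg c × GAlg c), (ρ P x).1 = GAlg.ev c P * x.1 := by
    intro P
    induction P using MvPolynomial.induction_on with
    | C a =>
      intro x
      rw [show (C a : MvPolynomial (Fin r) k) = algebraMap k _ a from rfl, AlgHom.commutes,
        AlgHom.commutes]
      show (a • x).1 = _
      rw [Prod.smul_fst, Algebra.smul_def]
    | add p q hp hq =>
      intro x
      rw [map_add, map_add, LinearMap.add_apply, Prod.fst_add, hp, hq, add_mul]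
    | mul_X p j hp =>
      intro x
      rw [map_mul, map_mul (GAlg.ev c), hρ, GAlg.ev_X]
      show (ρ p (O j x)).1 = _
      rw [hp, hO]
      show _ * (_ * x.1) = _
      ring
  let D : MvPolynomial (Fin r) k →ₗ[k] GAlg c :=
    { toFun := fun P => (ρ P (1, vd)).2
      map_add' := fun P Q => by rw [map_add, LinearMap.add_apply, Prod.snd_add]
      map_smul' := fun t P => by rw [map_smul, LinearMap.smul_apply, Prod.smul_snd]; rfl }
  have hD : Recur c D Xd := by
    intro j P
    show (ρ (X j * P) (1, vd)).2 = GAlg.xg c j * (ρ P (1, vd)).2 + Xd j (GAlg.ev c P)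
    rw [map_mul, hρ]
    show (O j (ρ P (1, vd))).2 = _
    rw [hO]
    show _ + Xd j (ρ P (1, vd)).1 = _
    rw [hfst, mul_one]
  have hD1 : D 1 = vd := by
    show (ρ 1 (1, vd)).2 = vd
    rw [map_one]; rfl
  -- choice of the parameters
  let cd : (Fin r →₀ ℕ) → k := fun α => if α.degree = 3 then (D (monomial α 1)).z else 0
  let av : Fin r → k := fun i => (D (xs k r i.val * xs k r (i.val + 3) *
    (xs k r (i.val + 4) * xs k r (i.val + 5)))).z
  let qv : Fin r → Fin r → k := fun i j => (D (X i * X j)).z / 2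
  let y : Fin r → GAlg c := fun i => ⟨av i, 0, qv i, 0⟩
  let Y : Fin r → GAlg c →ₗ[k] GAlg c := fun i =>
    { toFun := fun w => y i * w + ⟨0, 0, TT cd (Pi.single i 1) w.w, 0⟩
      map_add' := fun w w' => by
        have : (⟨0, 0, TT cd (Pi.single i 1) (w + w').w, 0⟩ : GAlg c) =
          ⟨0, 0, TT cd (Pi.single i 1) w.w, 0⟩ + ⟨0, 0, TT cd (Pi.single i 1) w'.w, 0⟩ := by
          ext <;> simp [TT_add_right]
        rw [this, mul_add]; abel
      map_smul' := fun t w => by
        have : (⟨0, 0, TT cd (Pi.single i 1) (t • w).w, 0⟩ : GAlg c) =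
          t • ⟨0, 0, TT cd (Pi.single i 1) w.w, 0⟩ := by
          ext <;> simp [TT_smul_right]
        rw [this, mul_smul_comm, RingHom.id_apply, smul_add] }
  have hY : ∀ i w, Y i w = y i * w + ⟨0, 0, TT cd (Pi.single i 1) w.w, 0⟩ := fun _ _ => rfl
  let E : MvPolynomial (Fin r) k →ₗ[k] GAlg c := Dom c cd y
  have hE : Recur c E Y := Dom_recur c cd y Y hY
  have hE1 : E 1 = 0 := by
    show ∑ i, GAlg.ev c (pderiv i 1) * y i + ⟨0, 0, (GAlg.ev cd 1).v, (GAlg.ev cd 1).z⟩ = 0
    simp only [Derivation.map_one_eq_zero, map_zero, zero_mul, Finset.sum_const_zero, map_one,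
      zero_add]
    ext <;> simp
  -- values of `E`
  have E1 : ∀ l, E (X l) = y l := by
    intro l
    have := hE l 1
    rw [mul_one, hE1, mul_zero, zero_add, map_one, hY] at this
    rw [this]
    ext <;> simp [GAlg.TT_zero_right]
  have E2 : ∀ j l, E (X j * X l) = ⟨0, av l • Pi.single j 1 + av j • Pi.single l 1,
      fun m => tt cd j l m, qv l j + qv j l⟩ := by
    intro j l
    rw [hE, E1, GAlg.ev_X, hY]
    ext m
    · simp [GAlg.xg, y]
    · simp [GAlg.xg, y]
    · simp [GAlg.xg, y, GAlg.TT_zero_right, GAlg.TT_zero_left, GAlg.TT_single]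
    · simp [GAlg.xg, y, GAlg.dot_zero_right, GAlg.dot_zero_left, GAlg.dot_single_left]
  have E3 : ∀ i j l, E (X i * (X j * X l)) = ⟨0, 0,
      fun m => av l * tt c i j m + av j * tt c i l m + av i * tt c j l m, tt cd j l i⟩ := by
    intro i j l
    rw [hE, E2, map_mul, GAlg.ev_X, GAlg.ev_X, hY, GAlg.xg_mul_xg]
    ext m
    · simp [GAlg.xg, y]
    · simp [GAlg.xg, y]
    · simp [GAlg.xg, y, TT_add_right, TT_smul_right, GAlg.TT_zero_right, GAlg.TT_zero_left,
        GAlg.TT_single]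
    · simp [GAlg.xg, y, GAlg.dot_zero_right, GAlg.dot_zero_left, GAlg.dot_single_left]
  have E4 : ∀ h i j l, (E (X h * (X i * (X j * X l)))).z = av l * tt c i j h +
      av j * tt c i l h + av i * tt c j l h + av h * tt c j l i := by
    intro h i j l
    rw [hE, E3, map_mul (GAlg.ev c), map_mul (GAlg.ev c), GAlg.ev_X, GAlg.ev_X, GAlg.ev_X, hY,
      GAlg.xg_mul_xg, GAlg.xg_mul_v]
    simp [GAlg.xg, y, GAlg.dot_zero_right, GAlg.dot_zero_left, GAlg.dot_single_left]
  -- the difference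
  let Δ : MvPolynomial (Fin r) k →ₗ[k] GAlg c := D - E
  have hΔ : Recur c Δ (fun i => Xd i - Y i) := by
    intro j P
    show D (X j * P) - E (X j * P) = GAlg.xg c j * (D P - E P) + (Xd j _ - Y j _)
    rw [hD, hE]; ring
  let f : MvPolynomial (Fin r) k →ₗ[k] k := (GAlg.zL c) ∘ₗ Δ
  have hf : Van (RingHom.ker (GAlg.ev c)) f.toAddMonoidHom := by
    intro p hp q hq
    rw [RingHom.mem_ker] at hp hq
    show (Δ (p * q)).z = 0
    rw [hΔ.mul_ker q hq p, hp, zero_mul]; rfl
  have hfar0 : ∀ a b : ℤ, xs k r a * xs k r b ∈ RingHom.ker (GAlg.ev c) →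
      ∀ m, tt c (ix r a) (ix r b) m = 0 := by
    intro a b hab m
    rw [RingHom.mem_ker] at hab
    unfold xs at hab
    rw [map_mul, GAlg.ev_X, GAlg.ev_X, GAlg.xg_mul_xg] at hab
    have := congrFun (congrArg GAlg.v hab) m
    simpa using this
  have hn : Nor (xs k r) f.toAddMonoidHom := by
    intro a
    show (D _ - E _).z = 0
    rw [GAlg.sub_z, sub_eq_zero]
    have e1 : (D (xs k r a * xs k r (a + 3) * (xs k r (a + 4) * xs k r (a + 5)))).z =
        av (ix r a) := by
      show _ = (D (xs k r (ix r a).val * xs k r ((ix r a).val + 3) *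
        (xs k r ((ix r a).val + 4) * xs k r ((ix r a).val + 5)))).z
      unfold xs
      rw [ix_coe, ix_add, ix_add, ix_add]
    have e2 := E4 (ix r a) (ix r (a + 3)) (ix r (a + 4)) (ix r (a + 5))
    have t1 : tt c (ix r (a + 3)) (ix r (a + 4)) (ix r a) = 0 := by
      rw [tt_s23, tt_s12]
      exact hfar0 _ _ (hcyc.far5 _ _ (by omega) (by omega)) _
    have t2 : tt c (ix r (a + 3)) (ix r (a + 5)) (ix r a) = 0 := by
      rw [tt_s23, tt_s12]
      exact hfar0 _ _ (hcyc.far5 _ _ (by omega) (by omega)) _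
    have t3 : tt c (ix r (a + 4)) (ix r (a + 5)) (ix r a) = 0 := by
      rw [tt_s23, tt_s12]
      exact hfar0 _ _ (hcyc.far5 _ _ (by omega) (by omega)) _
    have t4 : tt c (ix r (a + 4)) (ix r (a + 5)) (ix r (a + 3)) = 1 := by
      rw [tt_s23, tt_s12]
      have := hedge (a + 3)
      rwa [add_assoc, add_assoc] at this
    rw [t1, t2, t3, t4, mul_zero, mul_zero, mul_zero, zero_add, zero_add, zero_add, mul_one] at e2
    rw [e1, ← e2]
    unfold xs
    congr 2
    ring
  have h2 : ∀ i j, f (X i * X j) = 0 := by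
    intro i j
    show (D _ - E _).z = 0
    rw [GAlg.sub_z, E2]
    show _ - (qv j i + qv i j) = 0
    show _ - ((D (X j * X i)).z / 2 + (D (X i * X j)).z / 2) = 0
    rw [mul_comm (X j)]
    ring
  have h3 : ∀ i j l, f (X i * (X j * X l)) = 0 := by
    intro i j l
    show (D _ - E _).z = 0
    rw [GAlg.sub_z, E3]
    show _ - tt cd j l i = 0
    have hdeg : (Finsupp.single j 1 + Finsupp.single l 1 + Finsupp.single i 1 : Fin r →₀ ℕ).degree
        = 3 := by simp
    have : tt cd j l i = (D (X i * (X j * X l))).z := by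
      show (if (Finsupp.single j 1 + Finsupp.single l 1 + Finsupp.single i 1 : Fin r →₀ ℕ).degree = 3
        then _ else _) = _
      rw [if_pos hdeg]
      congr 2
      rw [X, X, X, monomial_mul, monomial_mul, mul_one, mul_one]
      congr 1
      abel
    rw [this, sub_self]
  have hfP : ∀ P, GAlg.ev c P = 0 → f P = 0 := van_on_ker c hcyc f hf hn h2 h3
  have hΔP : ∀ P, GAlg.ev c P = 0 → Δ P = 0 := by
    intro P hP
    apply GAlg.nondeg
    intro b
    obtain ⟨Q, rfl⟩ := hsurj b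
    rw [mul_comm, ← hΔ.mul_ker P hP Q]
    apply hfP
    rw [map_mul, hP, mul_zero]
  -- factor `Δ` through `ev`
  obtain ⟨sec, hsec⟩ := (GAlg.ev c).toLinearMap.exists_rightInverse_of_surjective
    (LinearMap.range_eq_top.mpr hsurj)
  have hsec' : ∀ w, GAlg.ev c (sec w) = w := fun w => LinearMap.congr_fun hsec w
  let Γ : GAlg c →ₗ[k] GAlg c := Δ ∘ₗ sec
  have hΓ : ∀ P, Γ (GAlg.ev c P) = Δ P := by
    intro P
    show Δ (sec (GAlg.ev c P)) = Δ P
    rw [← sub_eq_zero, ← map_sub]
    apply hΔP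
    rw [map_sub, hsec', sub_self]
  refine ⟨cd, y, Γ, fun α hα => if_neg hα, fun i w => ?_, ?_⟩
  · obtain ⟨P, rfl⟩ := hsurj w
    have e1 := hΔ i P
    have e2 : Γ (GAlg.xg c i * GAlg.ev c P) = Δ (X i * P) := by
      rw [← hΓ, map_mul (GAlg.ev c), GAlg.ev_X]
    rw [e2, hΓ, e1, ← hY]
    show _ = _ + (_ + (Xd i (GAlg.ev c P) - Y i (GAlg.ev c P)) - _)
    ring
  · rw [← map_one (GAlg.ev c), hΓ]
    show vd = D 1 - E 1
    rw [hD1, hE1, sub_zero]

end Tangent

end Pool.Agent.J6H80.Cubic
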