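import Mathlib
import Pool.Agent.J6H80.Cubic.Tangent

/-!
The base cubic `∑ X_i X_{i+1} X_{i+2}`, indices modulo `r`.
-/

set_option linter.unusedSectionVars false

open MvPolynomial Finsupp

namespace Pool.Agent.J6H80.Cubic

theorem perm2 {ι : Type*} {b c y z : ι}
    (h : (single b 1 + single c 1 : ι →₀ ℕ) = single y 1 + single z 1) :
    (b = y ∧ c = z) ∨ (b = z ∧ c = y) := by
  classical
  have hb : b = y ∨ b = z := by
    have := DFunLike.congr_fun h b
    simp only [Finsupp.add_apply, Finsupp.single_apply] at this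
    by_contra hcon
    push Not at hcon
    rw [if_pos trivial, if_neg (Ne.symm hcon.1), if_neg (Ne.symm hcon.2)] at this
    omega
  rcases hb with rfl | rfl
  · left
    have := add_left_cancel h
    exact ⟨rfl, (Finsupp.single_left_inj one_ne_zero).mp this⟩
  · right
    rw [add_comm (single y 1)] at h
    have := add_left_cancel h
    exact ⟨rfl, (Finsupp.single_left_inj one_ne_zero).mp this⟩

theorem perm3 {ι : Type*} {a b c x y z : ι}
    (h : (single a 1 + single b 1 + single c 1 : ι →₀ ℕ) = single x 1 + single y 1 + single z 1) :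
    (a = x ∧ b = y ∧ c = z) ∨ (a = x ∧ b = z ∧ c = y) ∨ (a = y ∧ b = x ∧ c = z) ∨
    (a = y ∧ b = z ∧ c = x) ∨ (a = z ∧ b = x ∧ c = y) ∨ (a = z ∧ b = y ∧ c = x) := by
  classical
  have ha : a = x ∨ a = y ∨ a = z := by
    have := DFunLike.congr_fun h a
    simp only [Finsupp.add_apply, Finsupp.single_apply] at this
    by_contra hcon
    push Not at hcon
    rw [if_pos trivial, if_neg (Ne.symm hcon.1), if_neg (Ne.symm hcon.2.1),
      if_neg (Ne.symm hcon.2.2)] at this
    omega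
  rcases ha with rfl | rfl | rfl
  · rw [add_assoc, add_assoc] at h
    rcases perm2 (add_left_cancel h) with ⟨h1, h2⟩ | ⟨h1, h2⟩
    · exact Or.inl ⟨rfl, h1, h2⟩
    · exact Or.inr (Or.inl ⟨rfl, h1, h2⟩)
  · rw [add_comm (single x 1) (single a 1), add_assoc, add_assoc] at h
    rcases perm2 (add_left_cancel h) with ⟨h1, h2⟩ | ⟨h1, h2⟩
    · exact Or.inr (Or.inr (Or.inl ⟨rfl, h1, h2⟩))
    · exact Or.inr (Or.inr (Or.inr (Or.inl ⟨rfl, h1, h2⟩)))
  · rw [add_comm (single x 1 + single y 1) (single a 1), add_assoc] at h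
    rcases perm2 (add_left_cancel h) with ⟨h1, h2⟩ | ⟨h1, h2⟩
    · exact Or.inr (Or.inr (Or.inr (Or.inr (Or.inl ⟨rfl, h1, h2⟩))))
    · exact Or.inr (Or.inr (Or.inr (Or.inr (Or.inr ⟨rfl, h1, h2⟩))))

section

universe u
variable (k : Type u) [Field k] (r : ℕ) [NeZero r]

/-- the exponent of `X_n X_{n+1} X_{n+2}` -/
noncomputable def edge (n : ℤ) : Fin r →₀ ℕ :=
  single (ix r n) 1 + single (ix r (n + 1)) 1 + single (ix r (n + 2)) 1

open Classical in
/-- coefficient function of the base cubic -/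
noncomputable def c0 : (Fin r →₀ ℕ) → k := fun α => if ∃ n : ℤ, α = edge r n then 1 else 0

variable {r}

theorem ix_eq_iff_zmod (m n : ℤ) : ix r m = ix r n ↔ (m : ZMod r) = (n : ZMod r) := by
  rw [ix_eq_iff, ZMod.intCast_eq_intCast_iff, Int.ModEq]

theorem small_eq_zero (d : ℤ) (h1 : -(r : ℤ) < d) (h2 : d < r) (h : (d : ZMod r) = 0) : d = 0 := by
  rw [ZMod.intCast_zmod_eq_zero_iff_dvd] at h
  exact Int.eq_zero_of_abs_lt_dvd h (abs_lt.mpr ⟨h1, h2⟩)

variable (r)

theorem tt_c0_edge (n : ℤ) : tt (c0 k r) (ix r n) (ix r (n + 1)) (ix r (n + 2)) = 1 := by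
  unfold tt c0
  exact if_pos ⟨n, rfl⟩

variable {r}

theorem tt_c0_cases (A B M : ℤ) :
    (tt (c0 k r) (ix r A) (ix r B) (ix r M) = 1 ∧ ∃ n : ℤ,
      ((A : ZMod r) = n ∧ (B : ZMod r) = n + 1 ∧ (M : ZMod r) = n + 2) ∨
      ((A : ZMod r) = n ∧ (B : ZMod r) = n + 2 ∧ (M : ZMod r) = n + 1) ∨
      ((A : ZMod r) = n + 1 ∧ (B : ZMod r) = n ∧ (M : ZMod r) = n + 2) ∨
      ((A : ZMod r) = n + 1 ∧ (B : ZMod r) = n + 2 ∧ (M : ZMod r) = n) ∨
      ((A : ZMod r) = n + 2 ∧ (B : ZMod r) = n ∧ (M : ZMod r) = n + 1) ∨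
      ((A : ZMod r) = n + 2 ∧ (B : ZMod r) = n + 1 ∧ (M : ZMod r) = n)) ∨
    (tt (c0 k r) (ix r A) (ix r B) (ix r M) = 0 ∧
      ∀ n : ℤ, single (ix r A) 1 + single (ix r B) 1 + single (ix r M) 1 ≠ edge r n) := by
  by_cases h : ∃ n : ℤ, single (ix r A) 1 + single (ix r B) 1 + single (ix r M) 1 = edge r n
  · left
    refine ⟨if_pos h, ?_⟩
    obtain ⟨n, hn⟩ := h
    refine ⟨n, ?_⟩
    have := perm3 hn
    simpa only [ix_eq_iff_zmod, Int.cast_add, Int.cast_one, Int.cast_ofNat] using this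
  · right
    refine ⟨if_neg h, fun n hn => h ⟨n, hn⟩⟩

theorem tt_c0_far (h8 : 8 ≤ r) (A d M : ℤ) (h : d = 0 ∨ (3 ≤ d ∧ d ≤ r - 3)) :
    tt (c0 k r) (ix r A) (ix r (A + d)) (ix r M) = 0 := by
  rcases tt_c0_cases (r := r) k A (A + d) M with ⟨-, n, hn⟩ | ⟨h0, -⟩
  · exfalso
    have key : ∀ e : ℤ, (e = 1 ∨ e = 2 ∨ e = -1 ∨ e = -2) → ((d - e : ℤ) : ZMod r) ≠ 0 := by
      intro e he h0
      have := small_eq_zero (r := r) (d - e) (by omega) (by omega) h0
      omega
    push_cast at hn key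
    rcases hn with ⟨a1, a2, -⟩ | ⟨a1, a2, -⟩ | ⟨a1, a2, -⟩ | ⟨a1, a2, -⟩ | ⟨a1, a2, -⟩ | ⟨a1, a2, -⟩
    · exact key 1 (by simp) (by push_cast; linear_combination a2 - a1)
    · exact key 2 (by simp) (by push_cast; linear_combination a2 - a1)
    · exact key (-1) (by simp) (by push_cast; linear_combination a2 - a1)
    · exact key 1 (by simp) (by push_cast; linear_combination a2 - a1)
    · exact key (-2) (by simp) (by push_cast; linear_combination a2 - a1)
    · exact key (-1) (by simp) (by push_cast; linear_combination a2 - a1)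
  · exact h0

theorem num_ne (h8 : 8 ≤ r) (d : ℤ) (h1 : 0 < d) (h2 : d < 8) : (d : ZMod r) ≠ 0 := by
  intro h
  have := small_eq_zero (r := r) d (by omega) (by omega) h
  omega

theorem tt_c0_two (h8 : 8 ≤ r) (j M : ℤ) :
    tt (c0 k r) (ix r (j - 1)) (ix r (j + 1)) (ix r M) = if ix r M = ix r j then 1 else 0 := by
  rcases tt_c0_cases (r := r) k (j - 1) (j + 1) M with ⟨h0, n, hn⟩ | ⟨h0, hn⟩
  · rw [h0, if_pos]
    rw [ix_eq_iff_zmod]
    have n1 := num_ne (r := r) h8 1 (by norm_num) (by norm_num)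
    have n3 := num_ne (r := r) h8 3 (by norm_num) (by norm_num)
    have n4 := num_ne (r := r) h8 4 (by norm_num) (by norm_num)
    push_cast at hn n1 n3 n4
    rcases hn with ⟨a1, a2, a3⟩ | ⟨a1, a2, a3⟩ | ⟨a1, a2, a3⟩ | ⟨a1, a2, a3⟩ | ⟨a1, a2, a3⟩ |
      ⟨a1, a2, a3⟩
    · exact absurd (show (1 : ZMod r) = 0 by linear_combination a2 - a1) n1
    · linear_combination a3 - a1
    · exact absurd (show (3 : ZMod r) = 0 by linear_combination a2 - a1) n3
    · exact absurd (show (1 : ZMod r) = 0 by linear_combination a2 - a1) n1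
    · exact absurd (show (4 : ZMod r) = 0 by linear_combination a2 - a1) n4
    · exact absurd (show (3 : ZMod r) = 0 by linear_combination a2 - a1) n3
  · rw [h0, if_neg]
    intro h
    apply hn (j - 1)
    rw [h, edge, show j - 1 + 1 = j by ring, show j - 1 + 2 = j + 1 by ring]
    abel

theorem tt_c0_one (h8 : 8 ≤ r) (j M : ℤ) :
    tt (c0 k r) (ix r j) (ix r (j + 1)) (ix r M) =
      (if ix r M = ix r (j - 1) then 1 else 0) + (if ix r M = ix r (j + 2) then 1 else 0) := by
  have n1 := num_ne (r := r) h8 1 (by norm_num) (by norm_num)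
  have n2 := num_ne (r := r) h8 2 (by norm_num) (by norm_num)
  have n3 := num_ne (r := r) h8 3 (by norm_num) (by norm_num)
  push_cast at n1 n2 n3
  rcases tt_c0_cases (r := r) k j (j + 1) M with ⟨h0, n, hn⟩ | ⟨h0, hn⟩
  · rw [h0]
    push_cast at hn
    rcases hn with ⟨a1, a2, a3⟩ | ⟨a1, a2, a3⟩ | ⟨a1, a2, a3⟩ | ⟨a1, a2, a3⟩ | ⟨a1, a2, a3⟩ |
      ⟨a1, a2, a3⟩
    · rw [if_neg, if_pos, zero_add]
      · rw [ix_eq_iff_zmod]; push_cast; linear_combination a3 - a1
      · rw [ix_eq_iff_zmod]; push_cast; intro h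
        exact n3 (by linear_combination h - a3 + a1)
    · exact absurd (show (1 : ZMod r) = 0 by linear_combination a1 - a2) n1
    · exact absurd (show (2 : ZMod r) = 0 by linear_combination a2 - a1) n2
    · rw [if_pos, if_neg, add_zero]
      · rw [ix_eq_iff_zmod]; push_cast; intro h
        exact n3 (by linear_combination a3 - a1 - h)
      · rw [ix_eq_iff_zmod]; push_cast; linear_combination a3 - a1
    · exact absurd (show (3 : ZMod r) = 0 by linear_combination a2 - a1) n3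
    · exact absurd (show (2 : ZMod r) = 0 by linear_combination a2 - a1) n2
  · rw [h0, if_neg, if_neg, add_zero]
    · intro h
      apply hn j
      rw [h, edge]
    · intro h
      apply hn (j - 1)
      rw [h, edge, show j - 1 + 1 = j by ring, show j - 1 + 2 = j + 1 by ring]
      abel

theorem c0_deg (α : Fin r →₀ ℕ) (h : α.degree ≠ 3) : c0 k r α = 0 := by
  apply if_neg
  rintro ⟨n, rfl⟩
  exact h (by simp [edge])

theorem ker_of_v (c : (Fin r →₀ ℕ) → k) (p : MvPolynomial (Fin r) k) (h : (GAlg.ev c p) = 0) :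
    p ∈ RingHom.ker (GAlg.ev c) := h

theorem c0_cyc (h8 : 8 ≤ r) : Cyc (r : ℤ) (xs k r) (RingHom.ker (GAlg.ev (c0 k r))) where
  hr := by exact_mod_cast h8
  per := fun n => by unfold xs; rw [ix_per]
  sq := fun n => by
    rw [RingHom.mem_ker, xs, map_mul, GAlg.ev_X, GAlg.xg_mul_xg]
    have : (fun l => tt (c0 k r) (ix r n) (ix r n) l) = 0 := by
      funext l
      have := tt_c0_far k h8 n 0 l.val (Or.inl rfl)
      rw [add_zero, ix_coe] at this
      exact this
    rw [this]; rfl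
  far := fun a d h1 h2 => by
    rw [RingHom.mem_ker, xs, xs, map_mul, GAlg.ev_X, GAlg.ev_X, GAlg.xg_mul_xg]
    have : (fun l => tt (c0 k r) (ix r a) (ix r (a + d)) l) = 0 := by
      funext l
      have := tt_c0_far k h8 a d l.val (Or.inr ⟨h1, h2⟩)
      rw [ix_coe] at this
      exact this
    rw [this]; rfl
  rel := fun j => by
    rw [RingHom.mem_ker, map_sub, map_sub, map_mul, map_mul, map_mul]
    unfold xs
    simp only [GAlg.ev_X, GAlg.xg_mul_xg]
    have e1 := tt_c0_two k h8 (j - 1)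
    have e2 := tt_c0_two k h8 (j + 2)
    rw [show j - 1 - 1 = j - 2 by ring, show j - 1 + 1 = j by ring] at e1
    rw [show j + 2 - 1 = j + 1 by ring, show j + 2 + 1 = j + 3 by ring] at e2
    apply GAlg.ext
    · simp
    · simp
    · funext l
      have h1 := tt_c0_one k h8 j l.val
      have h2 := e1 l.val
      have h3 := e2 l.val
      rw [ix_coe] at h1 h2 h3
      simp only [GAlg.sub_v, Pi.sub_apply, GAlg.zero_v, Pi.zero_apply]
      rw [h1, h2, h3]
      ring
    · simp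

variable (r)

/-- the two neighbours of an index -/
def pm (l : Fin r) : Fin r := ix r ((l.val : ℤ) - 1)
def pp (l : Fin r) : Fin r := ix r ((l.val : ℤ) + 1)

theorem c0_good (h8 : 8 ≤ r) : goodMat (pm r) (pp r) (c0 k r) = 1 := by
  ext l l'
  have := tt_c0_two k h8 l.val l'.val
  rw [ix_coe, ix_coe] at this
  rw [goodMat, Matrix.of_apply, Matrix.one_apply]
  show tt (c0 k r) (ix r (l.val - 1)) (ix r (l.val + 1)) l' = _
  rw [this]
  simp [eq_comm]

/-- the cubic form with given coefficients -/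
noncomputable def ofCf (c : (Fin r →₀ ℕ) → k) : CubicForm k r :=
  ⟨∑ α ∈ (Finset.univ : Finset (Fin r)).finsuppAntidiag 3, monomial α (c α), by
    apply IsHomogeneous.sum
    intro α hα
    apply isHomogeneous_monomial
    rw [Finset.mem_finsuppAntidiag] at hα
    rw [← hα.1, Finsupp.degree_eq_sum]⟩

variable {r}

theorem cf_ofCf (c : (Fin r →₀ ℕ) → k) (hc : ∀ α : Fin r →₀ ℕ, α.degree ≠ 3 → c α = 0) :
    cf (ofCf k r c).1 = c := by
  classical
  funext α
  show coeff α (∑ α ∈ (Finset.univ : Finset (Fin r)).finsuppAntidiag 3, monomial α (c α)) = c α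
  rw [coeff_sum]
  simp only [coeff_monomial]
  rw [Finset.sum_ite_eq']
  split_ifs with h
  · rfl
  · rw [hc]
    intro h3
    apply h
    rw [Finset.mem_finsuppAntidiag]
    exact ⟨by rw [← h3, Finsupp.degree_eq_sum], fun _ _ => Finset.mem_univ _⟩

end

end Pool.Agent.J6H80.Cubic
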