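import Mathlib
import Pool.Agent.J6H80.Cubic.Model

/-!
Framed points coming from the coordinate model, and their universal polynomial version.
-/

set_option linter.unusedSectionVars false

open MvPolynomial

namespace Pool.Agent.J6H80.Cubic

/-- index type of the coordinates of `GAlg` -/
abbrev NN (r : ℕ) : Type := Unit ⊕ (Fin r ⊕ (Fin r ⊕ Unit))

theorem card_NN (r : ℕ) : Fintype.card (NN r) = 2 * r + 2 := by
  simp; ring

/-- numbering of the coordinates -/
noncomputable def nu (r : ℕ) : NN r ≃ Fin (2 * r + 2) := Fintype.equivFinOfCardEq (card_NN r)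

section Ring

variable {r : ℕ} {B B' : Type*} [CommRing B] [CommRing B']

/-- coordinates -/
def crdFun {c : (Fin r →₀ ℕ) → B} (a : GAlg c) : NN r → B :=
  Sum.elim (fun _ => a.s) (Sum.elim a.w (Sum.elim a.v (fun _ => a.z)))

theorem crdFun_add {c : (Fin r →₀ ℕ) → B} (a b : GAlg c) (j : NN r) :
    crdFun (a + b) j = crdFun a j + crdFun b j := by
  rcases j with _ | j | j | _ <;> rfl

theorem crdFun_smul {c : (Fin r →₀ ℕ) → B} (t : B) (a : GAlg c) (j : NN r) :
    crdFun (t • a) j = t * crdFun a j := by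
  rcases j with _ | j | j | _ <;> rfl

/-- coordinates as a linear equivalence with `B^(2r+2)` -/
noncomputable def crd (c : (Fin r →₀ ℕ) → B) : GAlg c ≃ₗ[B] (Fin (2 * r + 2) → B) where
  toFun a := fun i => crdFun a ((nu r).symm i)
  invFun x := ⟨x (nu r (Sum.inl ())), fun i => x (nu r (Sum.inr (Sum.inl i))),
    fun i => x (nu r (Sum.inr (Sum.inr (Sum.inl i)))), x (nu r (Sum.inr (Sum.inr (Sum.inr ()))))⟩
  left_inv a := by
    ext <;> simp [crdFun]
  right_inv x := by
    funext i
    obtain ⟨j, rfl⟩ := (nu r).surjective i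
    show crdFun _ ((nu r).symm (nu r j)) = _
    rw [Equiv.symm_apply_apply]
    rcases j with _ | j | j | _ <;> rfl
  map_add' a b := by
    funext i
    exact crdFun_add a b _
  map_smul' t a := by
    funext i
    exact crdFun_smul t a _

/-- base change of the model -/
noncomputable def GAlg.map (f : B →+* B') (c : (Fin r →₀ ℕ) → B) :
    GAlg c →+* GAlg (fun α => f (c α)) where
  toFun a := ⟨f a.s, fun i => f (a.w i), fun i => f (a.v i), f a.z⟩
  map_zero' := by ext <;> simp
  map_one' := by ext <;> simp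
  map_add' a b := by ext <;> simp
  map_mul' a b := by
    ext
    · simp
    · simp
    · simp [TT, tt, map_sum]
    · simp [dot, map_sum]

theorem crd_map (f : B →+* B') (c : (Fin r →₀ ℕ) → B) (a : GAlg c) (i : Fin (2 * r + 2)) :
    crd (fun α => f (c α)) (GAlg.map f c a) i = f (crd c a i) := by
  show crdFun _ ((nu r).symm i) = f (crdFun _ ((nu r).symm i))
  rcases (nu r).symm i with _ | j | j | _ <;> rfl

theorem map_crd_symm (f : B →+* B') (c : (Fin r →₀ ℕ) → B) (x : Fin (2 * r + 2) → B) :
    GAlg.map f c ((crd c).symm x) = (crd (fun α => f (c α))).symm (fun i => f (x i)) := by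
  apply (crd _).injective
  rw [LinearEquiv.apply_symm_apply]
  funext i
  rw [crd_map, LinearEquiv.apply_symm_apply]

/-- matrix of multiplication by `y` -/
noncomputable def mulMat (c : (Fin r →₀ ℕ) → B) (y : GAlg c) :
    Matrix (Fin (2 * r + 2)) (Fin (2 * r + 2)) B :=
  LinearMap.toMatrix' ((crd c).toLinearMap ∘ₗ (LinearMap.mulLeft B y) ∘ₗ (crd c).symm.toLinearMap)

theorem mulMat_mulVec (c : (Fin r →₀ ℕ) → B) (y : GAlg c) (x : Fin (2 * r + 2) → B) :
    (mulMat c y).mulVec x = crd c (y * (crd c).symm x) := by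
  have := congrFun (congrArg DFunLike.coe (Matrix.toLin'_toMatrix'
    ((crd c).toLinearMap ∘ₗ (LinearMap.mulLeft B y) ∘ₗ (crd c).symm.toLinearMap))) x
  rw [Matrix.toLin'_apply] at this
  exact this

theorem mulMat_smul (c : (Fin r →₀ ℕ) → B) (t : B) (y : GAlg c) :
    mulMat c (t • y) = t • mulMat c y := by
  apply Matrix.toLin'.injective
  apply LinearMap.ext
  intro x
  rw [Matrix.toLin'_apply, Matrix.toLin'_apply, Matrix.smul_mulVec, mulMat_mulVec, mulMat_mulVec,
    smul_mul_assoc, map_smul]

theorem mulMat_apply (c : (Fin r →₀ ℕ) → B) (y : GAlg c) (a b : Fin (2 * r + 2)) :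
    mulMat c y a b = crd c (y * (crd c).symm (Pi.single b 1)) a := by
  rw [← mulMat_mulVec, Matrix.mulVec_single_one]
  rfl

theorem mulMat_map (f : B →+* B') (c : (Fin r →₀ ℕ) → B) (y : GAlg c) :
    mulMat (fun α => f (c α)) (GAlg.map f c y) = (mulMat c y).map f := by
  ext a b
  rw [Matrix.map_apply]
  rw [mulMat_apply, mulMat_apply, ← crd_map, (GAlg.map f c).map_mul, map_crd_symm]
  have : (fun i => f ((Pi.single b 1 : Fin (2 * r + 2) → B) i)) = Pi.single b 1 := by
    funext i
    rw [Pi.single_apply, Pi.single_apply]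
    split_ifs <;> simp
  rw [this]

/-- the framed point with frame `g`, cubic `c` and generators `y` (scaled by `det g`) -/
noncomputable def frame (g : Matrix (Fin (2 * r + 2)) (Fin (2 * r + 2)) B)
    (c : (Fin r →₀ ℕ) → B) (y : Fin r → GAlg c) : FrameIdx r (2 * r + 2) → B :=
  Sum.elim (fun x => (g * mulMat c (y x.1) * g.adjugate) x.2.1 x.2.2) (fun a => g.mulVec (crd c 1) a)

theorem frame_map (f : B →+* B') (g : Matrix (Fin (2 * r + 2)) (Fin (2 * r + 2)) B)
    (c : (Fin r →₀ ℕ) → B) (y : Fin r → GAlg c) (x : FrameIdx r (2 * r + 2)) :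
    f (frame g c y x) = frame (g.map f) (fun α => f (c α)) (fun i => GAlg.map f c (y i)) x := by
  rcases x with ⟨i, a, b⟩ | a
  · show f ((g * mulMat c (y i) * g.adjugate) a b) = (g.map f * mulMat _ (GAlg.map f c (y i)) *
      (g.map f).adjugate) a b
    rw [mulMat_map, ← RingHom.mapMatrix_apply, ← RingHom.mapMatrix_apply, ← RingHom.map_adjugate,
      ← map_mul, ← map_mul, RingHom.mapMatrix_apply, Matrix.map_apply]
  · show f (g.mulVec (crd c 1) a) = (g.map f).mulVec (crd _ 1) a
    have : (crd (fun α => f (c α)) 1) = fun i => f (crd c 1 i) := by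
      funext i
      rw [← crd_map, (GAlg.map f c).map_one]
    rw [this]
    exact RingHom.map_mulVec f g _ a

end Ring

section Represent

universe u
variable {k : Type u} [Field k] {r : ℕ}

/-- matrix form of `Represents` -/
theorem represents_frame (g : Matrix (Fin (2 * r + 2)) (Fin (2 * r + 2)) k) (hg : g.det ≠ 0)
    (c : (Fin r →₀ ℕ) → k) (y : Fin r → GAlg c) (I : Ideal (MvPolynomial (Fin r) k))
    (ε : (MvPolynomial (Fin r) k ⧸ I) ≃ₐ[k] GAlg c)
    (hε : ∀ i, ε (Ideal.Quotient.mk I (X i)) = g.det • y i) :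
    Represents (frame g c y) I := by
  have hu : IsUnit g.det := isUnit_iff_ne_zero.mpr hg
  let G : (Fin (2 * r + 2) → k) ≃ₗ[k] (Fin (2 * r + 2) → k) := Matrix.toLinearEquiv' g
    ((Matrix.isUnit_iff_isUnit_det g).mpr hu).invertible
  have hG : ∀ x, G x = g.mulVec x := fun x => rfl
  refine ⟨(ε.toLinearEquiv.trans (crd c)).trans G, fun i w a => ?_, fun a => ?_⟩
  · show g.mulVec (crd c (ε (Ideal.Quotient.mk I (X i) * w))) a =
      (Matrix.of (fun a b => frame g c y (Sum.inl (i, a, b)))).mulVec
        (g.mulVec (crd c (ε w))) a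
    have e : (Matrix.of (fun a b => frame g c y (Sum.inl (i, a, b)))) =
      g * mulMat c (y i) * g.adjugate := rfl
    rw [e, Matrix.mulVec_mulVec, Matrix.mul_assoc, Matrix.adjugate_mul, Matrix.mul_smul,
      Matrix.mul_one, ← Matrix.mul_smul, ← mulMat_smul, ← Matrix.mulVec_mulVec, mulMat_mulVec,
      LinearEquiv.symm_apply_apply, map_mul, hε]
  · show g.mulVec (crd c (ε 1)) a = _
    rw [map_one]; rfl

theorem frame_of_represents (c : (Fin r →₀ ℕ) → k) (I : Ideal (MvPolynomial (Fin r) k))
    (ε : (MvPolynomial (Fin r) k ⧸ I) ≃ₐ[k] GAlg c) (p : FrameIdx r (2 * r + 2) → k)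
    (hp : Represents p I) :
    ∃ g : Matrix (Fin (2 * r + 2)) (Fin (2 * r + 2)) k, g.det ≠ 0 ∧ ∃ y : Fin r → GAlg c,
      (∀ i, ε (Ideal.Quotient.mk I (X i)) = g.det • y i) ∧ p = frame g c y := by
  obtain ⟨e, he, he1⟩ := hp
  let G : (Fin (2 * r + 2) → k) ≃ₗ[k] (Fin (2 * r + 2) → k) :=
    (crd c).symm.trans (ε.symm.toLinearEquiv.trans e)
  let g : Matrix (Fin (2 * r + 2)) (Fin (2 * r + 2)) k := LinearMap.toMatrix' G.toLinearMap
  have hgv : ∀ x, g.mulVec x = G x := fun x => by
    have := congrFun (congrArg DFunLike.coe (Matrix.toLin'_toMatrix' G.toLinearMap)) x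
    rw [Matrix.toLin'_apply] at this
    exact this
  have hg : g.det ≠ 0 := by
    have h1 : IsUnit (LinearMap.det G.toLinearMap) := LinearEquiv.isUnit_det' G
    have h2 : g.det = LinearMap.det G.toLinearMap := LinearMap.det_toMatrix' _
    rw [h2]; exact h1.ne_zero
  refine ⟨g, hg, fun i => (g.det)⁻¹ • ε (Ideal.Quotient.mk I (X i)), fun i => ?_, ?_⟩
  · rw [smul_smul, mul_inv_cancel₀ hg, one_smul]
  · funext x
    rcases x with ⟨i, a, b⟩ | a
    · -- compare the two matrices through their action on vectors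
      have key : (Matrix.of (fun a b => p (Sum.inl (i, a, b)))) * g =
          (g * mulMat c ((g.det)⁻¹ • ε (Ideal.Quotient.mk I (X i))) * g.adjugate) * g := by
        rw [Matrix.mul_assoc, Matrix.adjugate_mul, mulMat_smul, Matrix.mul_smul g, Matrix.smul_mul,
          Matrix.mul_smul, Matrix.mul_one, smul_smul, inv_mul_cancel₀ hg, one_smul]
        apply Matrix.toLin'.injective
        apply LinearMap.ext
        intro x
        rw [Matrix.toLin'_apply, Matrix.toLin'_apply, ← Matrix.mulVec_mulVec,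
          ← Matrix.mulVec_mulVec, mulMat_mulVec, hgv, hgv]
        funext a
        have h1 := he i (ε.symm ((crd c).symm x)) a
        show ∑ b, p (Sum.inl (i, a, b)) * G x b = _
        have h2 : G x = e (ε.symm ((crd c).symm x)) := rfl
        rw [h2, ← h1]
        show _ = e (ε.symm ((crd c).symm (crd c (ε (Ideal.Quotient.mk I (X i)) *
          (crd c).symm x)))) a
        rw [LinearEquiv.symm_apply_apply, map_mul ε.symm, AlgEquiv.symm_apply_apply]
      have hinv : g * g⁻¹ = 1 := Matrix.mul_nonsing_inv g (isUnit_iff_ne_zero.mpr hg)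
      have key2 := congrArg (fun M => M * g⁻¹) key
      simp only [Matrix.mul_assoc, hinv, Matrix.mul_one] at key2
      have key3 := congrFun (congrFun key2 a) b
      show p (Sum.inl (i, a, b)) = (g * mulMat c _ * g.adjugate) a b
      rw [Matrix.mul_assoc]
      exact key3
    · show p (Sum.inr a) = g.mulVec (crd c 1) a
      rw [← he1 a, hgv]
      show _ = e (ε.symm ((crd c).symm (crd c 1))) a
      rw [LinearEquiv.symm_apply_apply, map_one ε.symm]

end Represent

end Pool.Agent.J6H80.Cubic
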