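import Mathlib
import Pool.Agent.J6H80.Cubic.Frame
import Pool.Agent.J6H80.Cubic.Base

/-!
The locus of graded cubic Gorenstein algebras in the Hilbert scheme: universal framed point,
density of open subsets, irreducibility.
-/

set_option linter.unusedSectionVars false

open MvPolynomial

namespace Pool.Agent.J6H80.Cubic

section Param

variable {r : ℕ} {B B' : Type*} [CommRing B] [CommRing B']

/-- non-dependent form of `frame` -/
noncomputable def fr (g : Matrix (Fin (2 * r + 2)) (Fin (2 * r + 2)) B) (c : (Fin r →₀ ℕ) → B)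
    (Y : Fin r → Fin (2 * r + 2) → B) : FrameIdx r (2 * r + 2) → B :=
  frame g c (fun i => (crd c).symm (Y i))

theorem fr_map (f : B →+* B') (g : Matrix (Fin (2 * r + 2)) (Fin (2 * r + 2)) B)
    (c : (Fin r →₀ ℕ) → B) (Y : Fin r → Fin (2 * r + 2) → B) (x : FrameIdx r (2 * r + 2)) :
    f (fr g c Y x) = fr (g.map f) (fun α => f (c α)) (fun i a => f (Y i a)) x := by
  unfold fr
  rw [frame_map]
  simp only [map_crd_symm]

variable (r)

/-- the parameters: frame, coefficients of the cubic, coordinates of the generators -/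
abbrev PV : Type := (Fin (2 * r + 2) × Fin (2 * r + 2)) ⊕ ((Fin r →₀ ℕ) ⊕ (Fin r × Fin (2 * r + 2)))

variable {r}

def gOf (x : PV r → B) : Matrix (Fin (2 * r + 2)) (Fin (2 * r + 2)) B :=
  fun a b => x (Sum.inl (a, b))

noncomputable def cOf (x : PV r → B) : (Fin r →₀ ℕ) → B :=
  fun α => if α.degree = 3 then x (Sum.inr (Sum.inl α)) else 0

def YOf (x : PV r → B) : Fin r → Fin (2 * r + 2) → B := fun i a => x (Sum.inr (Sum.inr (i, a)))

/-- the `w`-part of the generators -/
noncomputable def wMat (x : PV r → B) : Matrix (Fin r) (Fin r) B :=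
  Matrix.of fun i j => YOf x i (nu r (Sum.inr (Sum.inl j)))

noncomputable def frOf (x : PV r → B) : FrameIdx r (2 * r + 2) → B :=
  fr (gOf x) (cOf x) (YOf x)

theorem cOf_map (f : B →+* B') (x : PV r → B) :
    cOf (fun v => f (x v)) = fun α => f (cOf x α) := by
  funext α
  unfold cOf
  split_ifs
  · rfl
  · rw [map_zero]

theorem frOf_map (f : B →+* B') (x : PV r → B) (s : FrameIdx r (2 * r + 2)) :
    f (frOf x s) = frOf (fun v => f (x v)) s := by
  unfold frOf
  rw [fr_map, cOf_map]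
  rfl

/-- a point with given data -/
def mkPt (g : Matrix (Fin (2 * r + 2)) (Fin (2 * r + 2)) B) (c : (Fin r →₀ ℕ) → B)
    (Y : Fin r → Fin (2 * r + 2) → B) : PV r → B :=
  Sum.elim (fun x => g x.1 x.2) (Sum.elim c (fun x => Y x.1 x.2))

theorem cOf_mkPt (g : Matrix (Fin (2 * r + 2)) (Fin (2 * r + 2)) B) (c : (Fin r →₀ ℕ) → B)
    (Y : Fin r → Fin (2 * r + 2) → B) (hc : ∀ α : Fin r →₀ ℕ, α.degree ≠ 3 → c α = 0) :
    cOf (mkPt g c Y) = c := by
  funext α
  unfold cOf
  split_ifs with h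
  · rfl
  · exact (hc α h).symm

theorem frOf_mkPt (g : Matrix (Fin (2 * r + 2)) (Fin (2 * r + 2)) B) (c : (Fin r →₀ ℕ) → B)
    (Y : Fin r → Fin (2 * r + 2) → B) (hc : ∀ α : Fin r →₀ ℕ, α.degree ≠ 3 → c α = 0) :
    frOf (mkPt g c Y) = fr g c Y := by
  unfold frOf
  rw [cOf_mkPt g c Y hc]
  rfl

theorem cOf_deg (x : PV r → B) (α : Fin r →₀ ℕ) (h : α.degree ≠ 3) : cOf x α = 0 := if_neg h

end Param

universe u

section Geom

variable (k : Type u) [Field k] (r : ℕ) [NeZero r]

theorem aeval_eq_eval' {k : Type*} [CommSemiring k] {σ : Type*} (x : σ → k) (q : MvPolynomial σ k) :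
    aeval x q = eval x q := RingHom.congr_fun (coe_aeval_eq_eval x) q

/-- the universal framed point -/
noncomputable def frU : FrameIdx r (2 * r + 2) → MvPolynomial (PV r) k := frOf X

/-- the open set of cubic forms satisfying the nondegeneracy condition -/
def U1 : Set (CubicForm k r) := {F | (goodMat (pm r) (pp r) (cf F.1)).det ≠ 0}

variable {k r}

theorem aeval_frU {C' : Type*} [CommRing C'] [Algebra k C'] (x : PV r → C')
    (h : MvPolynomial (FrameIdx r (2 * r + 2)) k) :
    aeval x (aeval (frU k r) h) = aeval (frOf x) h := by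
  have : ((aeval x : MvPolynomial (PV r) k →ₐ[k] C').comp (aeval (frU k r))) = aeval (frOf x) := by
    apply MvPolynomial.algHom_ext
    intro s
    rw [AlgHom.comp_apply, aeval_X, aeval_X]
    have := frOf_map (aeval x : MvPolynomial (PV r) k →ₐ[k] C').toRingHom (X : PV r → _) s
    simp only [AlgHom.toRingHom_eq_coe, RingHom.coe_coe, aeval_X] at this
    exact this
  exact DFunLike.congr_fun this h

theorem eval_frU (x : PV r → k) (h : MvPolynomial (FrameIdx r (2 * r + 2)) k) :
    eval x (aeval (frU k r) h) = eval (frOf x) h := by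
  have := aeval_frU x h
  rwa [aeval_eq_eval', aeval_eq_eval'] at this

theorem finite_GAlg (c : (Fin r →₀ ℕ) → k) : Module.Finite k (GAlg c) :=
  Module.Finite.equiv (crd c).symm

theorem finrank_GAlg (c : (Fin r →₀ ℕ) → k) : Module.finrank k (GAlg c) = 2 * r + 2 := by
  rw [LinearEquiv.finrank_eq (crd c), Module.finrank_fin_fun]

/-- a point of the Hilbert scheme from an isomorphism with the model -/
def hilbOf {c : (Fin r →₀ ℕ) → k} (I : Ideal (MvPolynomial (Fin r) k))
    (ε : (MvPolynomial (Fin r) k ⧸ I) ≃ₐ[k] GAlg c) : Hilb k r (2 * r + 2) :=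
  ⟨I, by have := finite_GAlg c; exact Module.Finite.equiv ε.toLinearEquiv.symm,
    by rw [LinearEquiv.finrank_eq ε.toLinearEquiv, finrank_GAlg]⟩

theorem U1_surj (F : CubicForm k r) (hF : F ∈ U1 k r) : Function.Surjective (GAlg.ev (cf F.1)) :=
  ev_surj_of_good (pm r) (pp r) (cf F.1) hF

theorem exists_of_point (U : Set (CubicForm k r)) (hU : U ⊆ U1 k r) (x : PV r → k)
    (hg : (gOf x).det ≠ 0) (hw : (wMat x).det ≠ 0) (hF : ofCf k r (cOf x) ∈ U) :
    ∃ I ∈ locus U, Represents (frOf x) I.1 := by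
  obtain ⟨F, hFe⟩ : ∃ F, F = ofCf k r (cOf x) := ⟨_, rfl⟩
  rw [← hFe] at hF
  have hcf : cf F.1 = cOf x := by rw [hFe]; exact cf_ofCf k (cOf x) (cOf_deg x)
  have hgood : (goodMat (pm r) (pp r) (cf F.1)).det ≠ 0 := hU hF
  let y : Fin r → GAlg (cf F.1) := fun i => (crd _).symm (YOf x i)
  have hfr : frOf x = frame (gOf x) (cf F.1) y := by
    show fr (gOf x) (cOf x) (YOf x) = fr (gOf x) (cf F.1) (YOf x)
    rw [hcf]
  have hsurj : Function.Surjective
      (aeval (fun i => (gOf x).det • y i) : MvPolynomial (Fin r) k →ₐ[k] GAlg (cf F.1)) := by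
    apply surj_of_good (pm r) (pp r) (cf F.1) hgood
    have : (Matrix.of fun i j => ((gOf x).det • y i).w j) = (gOf x).det • wMat x := by
      ext i j; rfl
    rw [this, Matrix.det_smul]
    exact mul_ne_zero (pow_ne_zero _ hg) hw
  let ε := Ideal.quotientKerAlgEquivOfSurjective hsurj
  refine ⟨hilbOf _ ε, ⟨F, hF, ⟨ε.trans (annEquiv F (U1_surj F (hU hF))).symm⟩⟩, ?_⟩
  rw [hfr]
  apply represents_frame _ hg _ _ _ ε
  intro i
  show (aeval (fun i => (gOf x).det • y i) : MvPolynomial (Fin r) k →ₐ[k] GAlg (cf F.1)) (X i) = _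
  rw [aeval_X]

theorem point_of_mem (I : Hilb k r (2 * r + 2)) (hI : I ∈ locus (U1 k r))
    (p : FrameIdx r (2 * r + 2) → k) (hp : Represents p I.1) : ∃ x : PV r → k, p = frOf x := by
  obtain ⟨F, hF, ⟨ε⟩⟩ := hI
  obtain ⟨g, -, y, -, rfl⟩ := frame_of_represents (cf F.1) I.1
    (ε.trans (annEquiv F (U1_surj F hF))) p hp
  refine ⟨mkPt g (cf F.1) (fun i => crd _ (y i)), ?_⟩
  rw [frOf_mkPt _ _ _ (cf_deg F)]
  unfold fr
  congr 1
  funext i
  exact ((crd _).symm_apply_apply (y i)).symm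

/-- **Density**: a polynomial in the parameters vanishing at all good points over a nonempty open
set of cubic forms is zero. -/
theorem density [Infinite k] (U : Set (CubicForm k r)) (hU : U ⊆ U1 k r) (hUo : IsZariskiOpen U)
    (hUn : U.Nonempty) (Q : MvPolynomial (PV r) k)
    (hQ : ∀ x : PV r → k, (gOf x).det ≠ 0 → (wMat x).det ≠ 0 → ofCf k r (cOf x) ∈ U →
      eval x Q = 0) : Q = 0 := by
  obtain ⟨S, hS⟩ := hUo
  obtain ⟨F1, hF1⟩ := hUn
  have hF1' := hF1
  rw [hS] at hF1'
  obtain ⟨p, hpS, hp⟩ := hF1'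
  let XX : PV r → MvPolynomial (PV r) k := X
  let N : MvPolynomial (PV r) k := (gOf XX).det * (wMat XX).det * aeval (cOf XX) p
  have hg : ∀ x : PV r → k, eval x (gOf XX).det = (gOf x).det := by
    intro x
    rw [RingHom.map_det]
    congr 1
    ext a b
    simp [gOf, XX]
  have hw : ∀ x : PV r → k, eval x (wMat XX).det = (wMat x).det := by
    intro x
    rw [RingHom.map_det]
    congr 1
    ext a b
    simp [wMat, YOf, XX]
  have hpe : ∀ x : PV r → k, eval x (aeval (cOf XX) p) = eval (cOf x) p := by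
    intro x
    have h1 : ((aeval x : MvPolynomial (PV r) k →ₐ[k] k).comp (aeval (cOf XX))) =
        (aeval (cOf x) : MvPolynomial (Fin r →₀ ℕ) k →ₐ[k] k) := by
      apply MvPolynomial.algHom_ext
      intro α
      rw [AlgHom.comp_apply, aeval_X, aeval_X]
      have := congrFun (cOf_map (aeval x : MvPolynomial (PV r) k →ₐ[k] k).toRingHom XX) α
      simp only [AlgHom.toRingHom_eq_coe, RingHom.coe_coe, XX, aeval_X] at this
      exact this.symm
    have h2 := DFunLike.congr_fun h1 p
    rw [AlgHom.comp_apply, aeval_eq_eval', aeval_eq_eval'] at h2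
    exact h2
  have hN : ∀ x, eval x N = (gOf x).det * (wMat x).det * eval (cOf x) p := by
    intro x
    rw [map_mul, map_mul, hg, hw, hpe]
  have hN0 : N ≠ 0 := by
    intro h0
    have h1 := hN (mkPt 1 (cf F1.1) (fun i => crd _ (GAlg.xg (cf F1.1) i)))
    rw [h0, map_zero, cOf_mkPt _ _ _ (cf_deg F1)] at h1
    have e1 : gOf (mkPt (1 : Matrix (Fin (2 * r + 2)) (Fin (2 * r + 2)) k) (cf F1.1)
        (fun i => crd _ (GAlg.xg (cf F1.1) i))) = 1 := rfl
    have e2 : wMat (mkPt (1 : Matrix (Fin (2 * r + 2)) (Fin (2 * r + 2)) k) (cf F1.1)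
        (fun i => crd _ (GAlg.xg (cf F1.1) i))) = 1 := by
      ext i j
      show crdFun (GAlg.xg (cf F1.1) i) ((nu r).symm (nu r (Sum.inr (Sum.inl j)))) = _
      rw [Equiv.symm_apply_apply]
      show (Pi.single i 1 : Fin r → k) j = _
      rw [Pi.single_apply, Matrix.one_apply]
      simp [eq_comm]
    rw [e1, e2, Matrix.det_one, Matrix.det_one, one_mul, one_mul] at h1
    exact hp h1.symm
  have hQN : Q * N = 0 := by
    apply MvPolynomial.funext
    intro x
    rw [map_mul, map_zero, hN]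
    by_cases h1 : (gOf x).det = 0
    · rw [h1]; ring
    by_cases h2 : (wMat x).det = 0
    · rw [h2]; ring
    by_cases h3 : eval (cOf x) p = 0
    · rw [h3]; ring
    rw [hQ x h1 h2, zero_mul]
    rw [hS]
    refine ⟨p, hpS, ?_⟩
    have : (fun α => coeff α (ofCf k r (cOf x)).1) = cOf x := cf_ofCf k (cOf x) (cOf_deg x)
    rw [this]
    exact h3
  exact (mul_eq_zero.mp hQN).resolve_right hN0

/-- polynomials vanishing on a locus over a nonempty open set vanish universally -/
theorem univ_vanish [Infinite k] (U : Set (CubicForm k r)) (hU : U ⊆ U1 k r)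
    (hUo : IsZariskiOpen U) (hUn : U.Nonempty) (h : MvPolynomial (FrameIdx r (2 * r + 2)) k)
    (hh : ∀ I ∈ locus U, ∀ p, Represents p I.1 → eval p h = 0) : aeval (frU k r) h = 0 := by
  apply density U hU hUo hUn
  intro x hg hw hF
  rw [eval_frU]
  obtain ⟨I, hI, hp⟩ := exists_of_point U hU x hg hw hF
  exact hh I hI _ hp

theorem locus_subset_of_closed [Infinite k] (U : Set (CubicForm k r)) (hU : U ⊆ U1 k r)
    (hUo : IsZariskiOpen U) (hUn : U.Nonempty) (Z : Set (Hilb k r (2 * r + 2)))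
    (hZ : IsClosed Z) (hUZ : locus U ⊆ Z) : locus (U1 k r) ⊆ Z := by
  rw [isClosed_iff_isZariskiClosed] at hZ
  obtain ⟨S, hS⟩ := hZ
  intro I hI
  obtain ⟨p, hp⟩ := exists_represents I
  rw [hS I p hp]
  intro h hh
  obtain ⟨x, rfl⟩ := point_of_mem I hI p hp
  rw [← eval_frU, univ_vanish U hU hUo hUn h, map_zero]
  intro I' hI' p' hp'
  exact (hS I' p' hp').mp (hUZ hI') h hh

/-- The set `U1` is Zariski open. -/
theorem isZariskiOpen_U1 : IsZariskiOpen (U1 k r) := by
  let c : (Fin r →₀ ℕ) → MvPolynomial (Fin r →₀ ℕ) k := X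
  refine ⟨{(goodMat (pm r) (pp r) c).det}, ?_⟩
  ext F
  have : eval (fun α => coeff α F.1) (goodMat (pm r) (pp r) c).det =
      (goodMat (pm r) (pp r) (cf F.1)).det := by
    rw [RingHom.map_det]
    congr 1
    ext a b
    simp [goodMat, tt, c, cf]
  simp only [Set.mem_singleton_iff, exists_eq_left, Set.mem_ofPred_eq, this]
  rfl

variable (k r) in
/-- the base cubic form -/
noncomputable def F0 : CubicForm k r := ofCf k r (c0 k r)

theorem cf_F0 : cf (F0 k r).1 = c0 k r := cf_ofCf k (c0 k r) (c0_deg k)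

theorem F0_mem (h8 : 8 ≤ r) : F0 k r ∈ U1 k r := by
  show (goodMat (pm r) (pp r) (cf (F0 k r).1)).det ≠ 0
  rw [cf_F0, c0_good k r h8, Matrix.det_one]
  exact one_ne_zero

theorem closure_locus [Infinite k] (U : Set (CubicForm k r)) (hU : U ⊆ U1 k r)
    (hUo : IsZariskiOpen U) (hUn : U.Nonempty) :
    closure (locus U) = closure (locus (U1 k r)) := by
  apply subset_antisymm
  · apply closure_mono
    rintro I ⟨F, hF, hI⟩
    exact ⟨F, hU hF, hI⟩
  · apply closure_minimal _ isClosed_closure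
    exact locus_subset_of_closed U hU hUo hUn _ isClosed_closure subset_closure

theorem isIrreducible_locus [Infinite k] (h8 : 8 ≤ r) : IsIrreducible (locus (U1 k r)) := by
  have hne : (U1 k r).Nonempty := ⟨F0 k r, F0_mem h8⟩
  constructor
  · -- nonempty
    have hs := U1_surj (F0 k r) (F0_mem h8)
    exact ⟨hilbOf (Ann (F0 k r).1) (annEquiv (F0 k r) hs), F0 k r, F0_mem h8, ⟨AlgEquiv.refl⟩⟩
  · rw [isPreirreducible_iff_isClosed_union_isClosed]
    intro Z1 Z2 h1 h2 h12
    by_contra hcon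
    push Not at hcon
    obtain ⟨n1, n2⟩ := hcon
    have key : ∀ Z : Set (Hilb k r (2 * r + 2)), IsClosed Z → ¬ (locus (U1 k r) ⊆ Z) →
        ∃ h : MvPolynomial (FrameIdx r (2 * r + 2)) k, aeval (frU k r) h ≠ 0 ∧
          ∀ I ∈ Z, ∀ p, Represents p I.1 → eval p h = 0 := by
      intro Z hZ hn
      rw [isClosed_iff_isZariskiClosed] at hZ
      obtain ⟨S, hS⟩ := hZ
      by_contra hcon
      push Not at hcon
      apply hn
      intro I hI
      obtain ⟨p, hp⟩ := exists_represents I
      rw [hS I p hp]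
      intro h hh
      by_cases h0 : aeval (frU k r) h = 0
      · obtain ⟨x, rfl⟩ := point_of_mem I hI p hp
        rw [← eval_frU, h0, map_zero]
      · obtain ⟨I', hI', p', hp', hne⟩ := hcon h h0
        exact absurd ((hS I' p' hp').mp hI' h hh) hne
    obtain ⟨f1, hf1, hv1⟩ := key Z1 h1 n1
    obtain ⟨f2, hf2, hv2⟩ := key Z2 h2 n2
    have : aeval (frU k r) f1 * aeval (frU k r) f2 = 0 := by
      apply density (U1 k r) subset_rfl isZariskiOpen_U1 hne
      intro x hg hw hF
      obtain ⟨I, hI, hp⟩ := exists_of_point (U1 k r) subset_rfl x hg hw hF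
      rw [map_mul, eval_frU, eval_frU]
      rcases h12 hI with h | h
      · rw [hv1 I h _ hp, zero_mul]
      · rw [hv2 I h _ hp, mul_zero]
    exact (mul_ne_zero hf1 hf2) this

end Geom

end Pool.Agent.J6H80.Cubic
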