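import Mathlib

/-!
A smoothness criterion: if `J ≤ P` are ideals of a polynomial ring in finitely many variables over
an infinite field, and every Zariski tangent vector at the origin of the zero scheme of `J` is the
velocity of a polynomial curve lying on the zero scheme of `P`, then `J` and `P` agree near the
origin.
-/

open MvPolynomial

namespace Pool.Agent.J6H80.Cubic

variable {σ : Type*} [Fintype σ] [DecidableEq σ] {k : Type*} [Field k]

/-- pairing of the linear part of `h` with a vector -/
noncomputable def linPart (h : MvPolynomial σ k) (θ : σ → k) : k :=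
  ∑ s, coeff (Finsupp.single s 1) h * θ s

omit [DecidableEq σ] in
theorem linPart_add (h : MvPolynomial σ k) (a b : σ → k) :
    linPart h (a + b) = linPart h a + linPart h b := by
  simp [linPart, mul_add, Finset.sum_add_distrib]

omit [DecidableEq σ] in
theorem linPart_smul (h : MvPolynomial σ k) (c : k) (a : σ → k) :
    linPart h (c • a) = c * linPart h a := by
  simp only [linPart, Pi.smul_apply, smul_eq_mul, Finset.mul_sum]
  exact Finset.sum_congr rfl fun s _ => by ring

/-- the tangent space -/
def tang (J : Ideal (MvPolynomial σ k)) : Submodule k (σ → k) where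
  carrier := {θ | ∀ h ∈ J, linPart h θ = 0}
  add_mem' := fun {a b} ha hb h hh => by rw [linPart_add, ha h hh, hb h hh, add_zero]
  zero_mem' := fun h _ => by simp [linPart]
  smul_mem' := fun c a ha h hh => by rw [linPart_smul, ha h hh, mul_zero]

/-- double orthogonality: a linear form vanishing on the tangent space is a linear part -/
theorem exists_linPart (J : Ideal (MvPolynomial σ k)) (lam : σ → k)
    (hl : ∀ θ ∈ tang J, ∑ s, lam s * θ s = 0) :
    ∃ h ∈ J, ∀ s, coeff (Finsupp.single s 1) h = lam s := by
  classical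
  let L : MvPolynomial σ k →ₗ[k] (σ → k) :=
    LinearMap.pi fun s => lcoeff k (Finsupp.single s 1)
  let Λ : Submodule k (σ → k) := (J.restrictScalars k).map L
  by_cases hm : lam ∈ Λ
  · obtain ⟨h, hh, e⟩ := hm
    exact ⟨h, hh, fun s => by rw [← e]; rfl⟩
  · exfalso
    obtain ⟨f, hf1, hf2⟩ := Submodule.exists_le_ker_of_notMem hm
    apply hf1
    have hf : ∀ v : σ → k, f v = ∑ s, v s * f (Pi.single s 1) := by
      intro v
      conv_lhs => rw [show v = ∑ s, v s • (Pi.single s (1 : k) : σ → k) by
        ext j; simp [Finset.sum_apply, Pi.single_apply]]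
      rw [map_sum]
      exact Finset.sum_congr rfl fun s _ => by rw [map_smul, smul_eq_mul]
    rw [hf]
    apply hl
    intro h hh
    have : L h ∈ Λ := ⟨h, hh, rfl⟩
    have := hf2 this
    rw [LinearMap.mem_ker, hf] at this
    exact this

omit [DecidableEq σ] in
/-- order of vanishing along a polynomial curve through the origin -/
theorem coeff_aeval_curve (γ : σ → Polynomial k) (h0 : ∀ s, (γ s).coeff 0 = 0)
    (m : ℕ) (h : MvPolynomial σ k) (hm : h ∈ idealOfVars σ k ^ m) :
    (aeval γ h).coeff m = eval (fun s => (γ s).coeff 1) (homogeneousComponent m h) := by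
  classical
  choose γ' hγ' using fun s => Polynomial.X_dvd_iff.mpr (h0 s)
  have h1 : ∀ s, (γ s).coeff 1 = (γ' s).coeff 0 := fun s => by
    rw [hγ' s, Polynomial.coeff_X_mul]
  have key : ∀ α : σ →₀ ℕ, (α.prod fun s e => γ s ^ e) =
      Polynomial.X ^ (Finsupp.degree α) * (α.prod fun s e => γ' s ^ e) := by
    intro α
    rw [Finsupp.degree_apply]
    simp only [Finsupp.prod]
    rw [← Finset.prod_pow_eq_pow_sum, ← Finset.prod_mul_distrib]
    exact Finset.prod_congr rfl fun s _ => by rw [hγ' s, mul_pow]
  rw [aeval_def, eval₂_eq', Polynomial.finsetSum_coeff]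
  rw [homogeneousComponent_apply, map_sum, Finset.sum_filter]
  refine Finset.sum_congr rfl fun α hα => ?_
  rw [mem_pow_idealOfVars_iff] at hm
  have hmα := hm α hα
  have e : (∏ i, γ i ^ α i) = Polynomial.X ^ (Finsupp.degree α) * (∏ i, γ' i ^ α i) := by
    have := key α
    rwa [Finsupp.prod_fintype _ _ (fun i => pow_zero _),
      Finsupp.prod_fintype _ _ (fun i => pow_zero _)] at this
  rw [e, Polynomial.algebraMap_eq, Polynomial.coeff_C_mul, Polynomial.coeff_X_pow_mul']
  split_ifs with c1 c2 c2
  · rw [c2, Nat.sub_self, eval_monomial, Finsupp.prod_fintype _ _ (fun i => pow_zero _),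
      Polynomial.coeff_zero_prod]
    congr 1
    refine Finset.prod_congr rfl fun s _ => ?_
    rw [h1, Polynomial.coeff_zero_eq_eval_zero, Polynomial.eval_pow,
      ← Polynomial.coeff_zero_eq_eval_zero]
  · exact absurd (le_antisymm c1 hmα) c2
  · exact absurd (le_of_eq c2) c1
  · rw [mul_zero]

/-- **Smoothness criterion.** -/
theorem smooth_point [Infinite k] (J P : Ideal (MvPolynomial σ k)) (hJP : J ≤ P)
    (hcurve : ∀ θ ∈ tang J, ∃ γ : σ → Polynomial k, (∀ s, (γ s).coeff 0 = 0) ∧
      (∀ s, (γ s).coeff 1 = θ s) ∧ ∀ h ∈ P, aeval γ h = 0) :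
    ∃ u : MvPolynomial σ k, constantCoeff u ≠ 0 ∧ ∀ h ∈ P, u * h ∈ J := by
  classical
  set m := idealOfVars σ k with hm
  -- `P` consists of polynomials without constant term
  have hPm : P ≤ m := by
    intro h hh
    obtain ⟨γ, h0, -, hv⟩ := hcurve 0 (Submodule.zero_mem _)
    have e := coeff_aeval_curve γ h0 0 h (by simp)
    rw [hv h hh, homogeneousComponent_zero, eval_C, Polynomial.coeff_zero] at e
    rw [← pow_one m, hm, mem_pow_idealOfVars_iff']
    intro x hx
    have : x = 0 := by
      rw [← Finsupp.degree_eq_zero_iff]; omega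
    rw [this, ← e]
  obtain ⟨π, hπ⟩ := LinearMap.exists_leftInverse_of_injective (tang J).subtype
    (Submodule.ker_subtype _)
  have hπ' : ∀ θ ∈ tang J, ((π θ : tang J) : σ → k) = θ := fun θ hθ => by
    have := LinearMap.congr_fun hπ ⟨θ, hθ⟩
    simpa using congrArg Subtype.val this
  let p : σ → σ → k := fun s s' => ((π (Pi.single s' 1) : tang J) : σ → k) s
  have hp : ∀ (y : σ → k) (s : σ), ((π y : tang J) : σ → k) s = ∑ s', p s s' * y s' := by
    intro y s
    have e : y = ∑ s', y s' • (Pi.single s' (1 : k) : σ → k) := by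
      ext j; simp [Finset.sum_apply, Pi.single_apply]
    conv_lhs => rw [e]
    rw [map_sum, Submodule.coe_sum, Finset.sum_apply]
    refine Finset.sum_congr rfl fun s' _ => ?_
    rw [map_smul, Submodule.coe_smul, Pi.smul_apply, smul_eq_mul, mul_comm]
  let α : MvPolynomial σ k →ₐ[k] MvPolynomial σ k := aeval fun s => ∑ s', C (p s s') * X s'
  let δ : σ → MvPolynomial σ k := fun s => X s - ∑ s', C (p s s') * X s'
  have hXm : ∀ s, (X s : MvPolynomial σ k) ∈ m := fun s => Ideal.subset_span ⟨s, rfl⟩
  have hδc : ∀ s t, coeff (Finsupp.single t 1) (δ s) = (if s = t then 1 else 0) - p s t := by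
    intro s t
    simp only [δ, coeff_sub, coeff_sum, coeff_C_mul, coeff_X]
    congr 1
    · simp only [Finsupp.single_left_inj (one_ne_zero : (1 : ℕ) ≠ 0)]
    · simp only [Finsupp.single_left_inj (one_ne_zero : (1 : ℕ) ≠ 0), mul_ite, mul_one, mul_zero]
      rw [Finset.sum_ite_eq' Finset.univ t (fun x => p s x)]
      simp
  have hδm : ∀ s, δ s ∈ m := fun s =>
    Ideal.sub_mem _ (hXm s) (Ideal.sum_mem _ fun s' _ => Ideal.mul_mem_left _ _ (hXm s'))
  have hlam : ∀ s, ∃ h ∈ J, ∀ t, coeff (Finsupp.single t 1) h = (if s = t then 1 else 0) - p s t := by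
    intro s
    refine exists_linPart J _ fun θ hθ => ?_
    have e1 := hπ' θ hθ
    have e2 := hp θ s
    rw [e1] at e2
    simp only [sub_mul, Finset.sum_sub_distrib, ite_mul, one_mul, zero_mul, Finset.sum_ite_eq,
      Finset.mem_univ, if_true]
    rw [← e2, sub_self]
  set l : Ideal (MvPolynomial σ k) := Ideal.span (Set.range δ) with hl
  have hlJ : l ≤ J ⊔ m ^ 2 := by
    rw [hl, Ideal.span_le]
    rintro _ ⟨s, rfl⟩
    obtain ⟨h, hh, hc⟩ := hlam s
    have : δ s - h ∈ m ^ 2 := by
      rw [hm, mem_pow_idealOfVars_iff']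
      intro x hx
      have hx' : Finsupp.degree x = 0 ∨ Finsupp.degree x = 1 := by omega
      rcases hx' with h0 | h1
      · have h3 : δ s - h ∈ m ^ 1 := by
          rw [pow_one]; exact Ideal.sub_mem _ (hδm s) (hPm (hJP hh))
        rw [hm, mem_pow_idealOfVars_iff'] at h3
        exact h3 x (by omega)
      · obtain ⟨t, rfl⟩ := (Finsupp.sum_eq_one_iff x).mp h1
        rw [coeff_sub, hδc, hc, sub_self]
    have e : δ s = h + (δ s - h) := by ring
    show δ s ∈ _
    rw [e]
    exact Submodule.add_mem_sup hh this
  -- the substitution differs from the identity by `l`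
  have hα0 : ∀ x, x - α x ∈ l := by
    intro x
    rw [← Ideal.Quotient.eq]
    have : (Ideal.Quotient.mkₐ k l) = (Ideal.Quotient.mkₐ k l).comp α := by
      apply MvPolynomial.algHom_ext
      intro s
      rw [AlgHom.comp_apply]
      show Ideal.Quotient.mk l (X s) = Ideal.Quotient.mk l (α (X s))
      rw [Ideal.Quotient.eq, show α (X s) = ∑ s', C (p s s') * X s' from aeval_X _ _]
      exact Ideal.subset_span ⟨s, rfl⟩
    exact DFunLike.congr_fun this x
  have hαm : ∀ n, ∀ x ∈ m ^ n, α x ∈ m ^ n := by
    have h1 : m.map α.toRingHom ≤ m := by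
      rw [Ideal.map_le_iff_le_comap, hm, idealOfVars, Ideal.span_le]
      rintro _ ⟨s, rfl⟩
      show α (X s) ∈ m
      rw [show α (X s) = ∑ s', C (p s s') * X s' from aeval_X _ _]
      exact Ideal.sum_mem _ fun s' _ => Ideal.mul_mem_left _ _ (hXm s')
    intro n x hx
    have h2 : (m ^ n).map α.toRingHom ≤ m ^ n := by
      rw [Ideal.map_pow]; exact Ideal.pow_right_mono h1 n
    exact h2 (Ideal.mem_map_of_mem α.toRingHom hx)
  have hα1 : ∀ n, ∀ x ∈ m ^ (n + 1), x - α x ∈ l * m ^ n := by
    intro n
    induction n with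
    | zero => intro x _; simpa using hα0 x
    | succ n ih =>
      intro x hx
      rw [pow_succ] at hx
      refine Submodule.mul_induction_on hx ?_ ?_
      · intro a ha b hb
        have e : a * b - α (a * b) = (a - α a) * b + (b - α b) * α a := by
          rw [map_mul]; ring
        rw [e]
        refine Ideal.add_mem _ ?_ ?_
        · have := Ideal.mul_mem_mul (ih a ha) hb
          rwa [mul_assoc, ← pow_succ] at this
        · exact Ideal.mul_mem_mul (hα0 b) (hαm _ a ha)
      · intro a b ha hb
        rw [map_add, show a + b - (α a + α b) = (a - α a) + (b - α b) by ring]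
        exact Ideal.add_mem _ ha hb
  -- successive approximation
  have happ : ∀ n, P ≤ J ⊔ m ^ n := by
    intro n
    induction n with
    | zero => simp
    | succ n ih =>
      rcases Nat.eq_zero_or_pos n with rfl | hn
      · rw [zero_add, pow_one]; exact hPm.trans le_sup_right
      obtain ⟨n, rfl⟩ : ∃ n', n = n' + 1 := ⟨n - 1, by omega⟩
      intro h hh
      obtain ⟨j, hj, h', hh', e⟩ := Submodule.mem_sup.mp (ih hh)
      have hP' : h' ∈ P := by
        have : h' = h - j := by rw [← e]; ring
        rw [this]; exact Ideal.sub_mem _ hh (hJP hj)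
      set H := homogeneousComponent (n + 1) h' with hH
      have hHm : H ∈ m ^ (n + 1) := by
        rw [hm, mem_pow_idealOfVars_iff']
        intro x hx
        rw [hH, coeff_homogeneousComponent, if_neg (by omega)]
      have hdiff : h' - H ∈ m ^ (n + 2) := by
        rw [hm, mem_pow_idealOfVars_iff']
        intro x hx
        rw [coeff_sub, hH, coeff_homogeneousComponent]
        split_ifs with c
        · rw [sub_self]
        · rw [sub_zero]
          rw [hm, mem_pow_idealOfVars_iff'] at hh'
          exact hh' x (by omega)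
      have hαH : α H = 0 := by
        apply MvPolynomial.funext
        intro y
        rw [map_zero]
        obtain ⟨γ, h0, h1, hv⟩ := hcurve _ (π y).2
        have e1 := coeff_aeval_curve γ h0 (n + 1) h' hh'
        rw [hv h' hP', Polynomial.coeff_zero] at e1
        have e2 : eval y (α H) = eval (fun s => ((π y : tang J) : σ → k) s) H := by
          show eval y (aeval (fun s => ∑ s', C (p s s') * X s') H) = _
          rw [← MvPolynomial.coe_aeval_eq_eval, RingHom.coe_coe, ← AlgHom.comp_apply,
            ← MvPolynomial.coe_aeval_eq_eval, RingHom.coe_coe]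
          congr 1
          apply MvPolynomial.algHom_ext
          intro s
          rw [AlgHom.comp_apply, aeval_X, aeval_X, hp]
          simp
        rw [e2, e1]
        congr 1
        have : (fun s => ((π y : tang J) : σ → k) s) = fun s => (γ s).coeff 1 := by
          funext s; rw [h1]
        rw [this]
      have hHl : H ∈ l * m ^ n := by
        have := hα1 n H hHm
        rwa [hαH, sub_zero] at this
      have hH2 : H ∈ J ⊔ m ^ (n + 2) := by
        have h1 : l * m ^ n ≤ (J ⊔ m ^ 2) * m ^ n := Ideal.mul_mono_left hlJ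
        have h2 : (J ⊔ m ^ 2) * m ^ n ≤ J ⊔ m ^ (n + 2) := by
          rw [Ideal.sup_mul]
          refine sup_le (Ideal.mul_le_left.trans le_sup_left) ?_
          rw [← pow_add, add_comm 2 n]
          exact le_sup_right
        exact h2 (h1 hHl)
      have : h = j + (H + (h' - H)) := by rw [← e]; ring
      rw [this]
      refine Ideal.add_mem _ (Submodule.mem_sup_left hj) (Ideal.add_mem _ hH2 ?_)
      exact Submodule.mem_sup_right hdiff
  -- Krull intersection in the quotient module
  let M := MvPolynomial σ k ⧸ J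
  let N : Submodule (MvPolynomial σ k) M := ⨅ i : ℕ, m ^ i • ⊤
  have hN : ∀ k', (m.stableFiltration (⊤ : Submodule (MvPolynomial σ k) M) ⊓
      m.trivialFiltration N).N k' = N :=
    fun k' => inf_eq_right.mpr ((iInf_le _ k').trans <| le_of_eq <| by simp)
  obtain ⟨r, hr₁, hr₂⟩ :=
    Submodule.exists_mem_and_smul_eq_self_of_fg_of_le_smul m N (IsNoetherian.noetherian N) (by
      obtain ⟨k', hk⟩ := (m.stableFiltration_stable ⊤).inter_right (m.trivialFiltration N)
      have := hk k' (le_refl _)
      rw [hN, hN] at this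
      exact le_of_eq this.symm)
  refine ⟨1 - r, ?_, fun h hh => ?_⟩
  · have : constantCoeff r = 0 := by
      rw [← pow_one m, hm, mem_pow_idealOfVars_iff'] at hr₁
      exact hr₁ 0 (by simp)
    rw [map_sub, this, map_one, sub_zero]
    exact one_ne_zero
  · have hmem : (Ideal.Quotient.mk J h : M) ∈ N := by
      rw [Submodule.mem_iInf]
      intro i
      obtain ⟨j, hj, h', hh', e⟩ := Submodule.mem_sup.mp (happ i hh)
      have e1 : (Ideal.Quotient.mk J h : M) = h' • (Ideal.Quotient.mk J 1 : M) := by
        rw [← e, map_add, Ideal.Quotient.eq_zero_iff_mem.mpr hj, zero_add]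
        show _ = Ideal.Quotient.mk J (h' * 1)
        rw [mul_one]
      rw [e1]
      exact Submodule.smul_mem_smul hh' trivial
    have := hr₂ _ hmem
    have e2 : (r • (Ideal.Quotient.mk J h : M)) = Ideal.Quotient.mk J (r * h) := rfl
    rw [e2, Ideal.Quotient.eq] at this
    have e3 : (1 - r) * h = -(r * h - h) := by ring
    rw [e3]
    exact neg_mem this

end Pool.Agent.J6H80.Cubic
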