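import Mathlib
import Pool.Agent.J6H80.Cubic.Geom
import Pool.Agent.J6H80.Cubic.Smooth

/-!
The framed variety is smooth at the base point, of the dimension of the family.
-/

set_option linter.unusedSectionVars false

open MvPolynomial

namespace Pool.Agent.J6H80.Cubic

section CoeffCalculus

variable {k : Type*} [Field k] {r : ℕ}

/-- coefficientwise projection of the model over `k[ε]` -/
noncomputable def cfG {c : (Fin r →₀ ℕ) → Polynomial k} (c' : (Fin r →₀ ℕ) → k) (m : ℕ)
    (a : GAlg c) : GAlg c' :=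
  ⟨a.s.coeff m, fun i => (a.w i).coeff m, fun i => (a.v i).coeff m, a.z.coeff m⟩

theorem cfG_add {c : (Fin r →₀ ℕ) → Polynomial k} (c' : (Fin r →₀ ℕ) → k) (m : ℕ)
    (a b : GAlg c) : cfG c' m (a + b) = cfG c' m a + cfG c' m b := by
  ext <;> simp [cfG]

theorem cfG_mul_zero {c : (Fin r →₀ ℕ) → Polynomial k} {c' : (Fin r →₀ ℕ) → k}
    (h0 : ∀ α, (c α).coeff 0 = c' α) (a b : GAlg c) :
    cfG c' 0 (a * b) = cfG c' 0 a * cfG c' 0 b := by
  ext
  · simp [cfG]
  · simp [cfG]
  · simp [cfG, TT, tt, Polynomial.finsetSum_coeff, ← h0]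
  · simp [cfG, dot, Polynomial.finsetSum_coeff]

theorem cfG_mul_one {c : (Fin r →₀ ℕ) → Polynomial k} {c' c1 : (Fin r →₀ ℕ) → k}
    (h0 : ∀ α, (c α).coeff 0 = c' α) (h1 : ∀ α, (c α).coeff 1 = c1 α) (a b : GAlg c) :
    cfG c' 1 (a * b) = cfG c' 0 a * cfG c' 1 b + cfG c' 1 a * cfG c' 0 b +
      ⟨0, 0, TT c1 (cfG c' 0 a).w (cfG c' 0 b).w, 0⟩ := by
  ext
  · simp [cfG, Polynomial.mul_coeff_one]
  · simp [cfG, Polynomial.mul_coeff_one]; ring
  · simp only [cfG, TT, tt, GAlg.mul_v, GAlg.add_v, Pi.add_apply, Pi.smul_apply, smul_eq_mul,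
      Polynomial.coeff_add, Polynomial.mul_coeff_one, Polynomial.finsetSum_coeff, ← h0, ← h1,
      Polynomial.mul_coeff_zero, add_mul, Finset.sum_add_distrib]
    ring
  · simp only [cfG, dot, GAlg.mul_z, GAlg.add_z, Polynomial.coeff_add, Polynomial.mul_coeff_one,
      Polynomial.finsetSum_coeff, Finset.sum_add_distrib, add_zero]
    ring

theorem crd_cfG {c : (Fin r →₀ ℕ) → Polynomial k} (c' : (Fin r →₀ ℕ) → k) (m : ℕ)
    (a : GAlg c) (i : Fin (2 * r + 2)) : (crd c a i).coeff m = crd c' (cfG c' m a) i := by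
  show (crdFun a ((nu r).symm i)).coeff m = crdFun _ ((nu r).symm i)
  rcases (nu r).symm i with _ | j | j | _ <;> rfl

theorem cfG_crd_symm {c : (Fin r →₀ ℕ) → Polynomial k} (c' : (Fin r →₀ ℕ) → k) (m : ℕ)
    (x : Fin (2 * r + 2) → Polynomial k) :
    cfG c' m ((crd c).symm x) = (crd c').symm (fun i => (x i).coeff m) := by
  apply (crd c').injective
  rw [LinearEquiv.apply_symm_apply]
  funext i
  rw [← crd_cfG, LinearEquiv.apply_symm_apply]

variable {n : Type*} [Fintype n] [DecidableEq n]

theorem mat_coeff_zero (M N : Matrix n n (Polynomial k)) :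
    (M * N).map (fun p => p.coeff 0) = M.map (fun p => p.coeff 0) * N.map (fun p => p.coeff 0) := by
  ext a b
  simp [Matrix.mul_apply, Polynomial.finsetSum_coeff]

theorem mat_coeff_one (M N : Matrix n n (Polynomial k)) :
    (M * N).map (fun p => p.coeff 1) = M.map (fun p => p.coeff 0) * N.map (fun p => p.coeff 1) +
      M.map (fun p => p.coeff 1) * N.map (fun p => p.coeff 0) := by
  ext a b
  simp [Matrix.mul_apply, Polynomial.finsetSum_coeff, Polynomial.mul_coeff_one,
    Finset.sum_add_distrib]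

/-- the curve of frames -/
noncomputable def gcurve (Γ : Matrix n n k) : Matrix n n (Polynomial k) :=
  1 + (Polynomial.X : Polynomial k) • Γ.map Polynomial.C

theorem gcurve_zero (Γ : Matrix n n k) : (gcurve Γ).map (fun p => p.coeff 0) = 1 := by
  ext a b
  simp [gcurve, Matrix.one_apply]
  split_ifs <;> simp

theorem gcurve_one (Γ : Matrix n n k) : (gcurve Γ).map (fun p => p.coeff 1) = Γ := by
  ext a b
  simp [gcurve, Matrix.one_apply]
  split_ifs <;> simp [Polynomial.coeff_one]

theorem adj_zero (Γ : Matrix n n k) : (gcurve Γ).adjugate.map (fun p => p.coeff 0) = 1 := by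
  have h := RingHom.map_adjugate (Polynomial.constantCoeff : Polynomial k →+* k) (gcurve Γ)
  have e : ∀ M : Matrix n n (Polynomial k), (Polynomial.constantCoeff : Polynomial k →+* k).mapMatrix M
      = M.map (fun p => p.coeff 0) := fun M => rfl
  rw [e, e, gcurve_zero, Matrix.adjugate_one] at h
  exact h

theorem det_one (Γ : Matrix n n k) : (gcurve Γ).det.coeff 1 = Γ.trace := by
  rw [gcurve, Matrix.det_one_add_X_smul, Polynomial.coeff_add, Polynomial.coeff_add,
    Polynomial.coeff_mul_X_pow']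
  simp [Polynomial.coeff_one]

theorem adj_one (Γ : Matrix n n k) :
    (gcurve Γ).adjugate.map (fun p => p.coeff 1) = Γ.trace • 1 - Γ := by
  have h := congrArg (fun M => M.map (fun p => p.coeff 1)) (Matrix.mul_adjugate (gcurve Γ))
  simp only [mat_coeff_one, gcurve_zero, gcurve_one, adj_zero, one_mul, mul_one] at h
  have e : ((gcurve Γ).det • (1 : Matrix n n (Polynomial k))).map (fun p => p.coeff 1) =
      Γ.trace • 1 := by
    ext a b
    simp only [Matrix.map_apply, Matrix.smul_apply, Matrix.one_apply, smul_eq_mul, mul_ite,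
      mul_one, mul_zero]
    split_ifs
    · exact det_one Γ
    · simp
  rw [e] at h
  rw [← h]
  abel

end CoeffCalculus

section Curve

variable {k : Type*} [Field k] {r : ℕ}

/-- first order expansion of the matrix of multiplication -/
theorem mulMat_coeff_zero {c : (Fin r →₀ ℕ) → Polynomial k} {c' : (Fin r →₀ ℕ) → k}
    (h0 : ∀ α, (c α).coeff 0 = c' α) (y : GAlg c) :
    (mulMat c y).map (fun p => p.coeff 0) = mulMat c' (cfG c' 0 y) := by
  ext a b
  rw [Matrix.map_apply, mulMat_apply, mulMat_apply, crd_cfG c', cfG_mul_zero h0, cfG_crd_symm]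
  have : (fun i => ((Pi.single b 1 : Fin (2 * r + 2) → Polynomial k) i).coeff 0) = Pi.single b 1 := by
    funext i
    rw [Pi.single_apply, Pi.single_apply]
    split_ifs <;> simp
  rw [this]

theorem mulMat_coeff_one {c : (Fin r →₀ ℕ) → Polynomial k} {c' c1 : (Fin r →₀ ℕ) → k}
    (h0 : ∀ α, (c α).coeff 0 = c' α) (h1 : ∀ α, (c α).coeff 1 = c1 α) (y : GAlg c)
    (x : Fin (2 * r + 2) → k) :
    ((mulMat c y).map (fun p => p.coeff 1)).mulVec x = crd c' (cfG c' 1 y * (crd c').symm x +
      ⟨0, 0, TT c1 (cfG c' 0 y).w ((crd c').symm x).w, 0⟩) := by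
  -- both sides are linear in `x`; compare on the standard basis through the entries
  let L : (Fin (2 * r + 2) → k) →ₗ[k] (Fin (2 * r + 2) → k) :=
    { toFun := fun x => crd c' (cfG c' 1 y * (crd c').symm x +
        ⟨0, 0, TT c1 (cfG c' 0 y).w ((crd c').symm x).w, 0⟩)
      map_add' := fun x x' => by
        rw [← map_add]
        congr 1
        rw [map_add, mul_add]
        have : (⟨0, 0, TT c1 (cfG c' 0 y).w ((crd c').symm x + (crd c').symm x').w, 0⟩ : GAlg c') =
          ⟨0, 0, TT c1 (cfG c' 0 y).w ((crd c').symm x).w, 0⟩ +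
          ⟨0, 0, TT c1 (cfG c' 0 y).w ((crd c').symm x').w, 0⟩ := by
          ext <;> simp [TT_add_right]
        rw [this]; abel
      map_smul' := fun t x => by
        rw [RingHom.id_apply, ← map_smul]
        congr 1
        rw [map_smul, mul_smul_comm, smul_add]
        congr 1
        ext <;> simp [TT_smul_right] }
  have hL : ∀ x, L x = crd c' (cfG c' 1 y * (crd c').symm x +
      ⟨0, 0, TT c1 (cfG c' 0 y).w ((crd c').symm x).w, 0⟩) := fun _ => rfl
  rw [← hL]
  have hM : (mulMat c y).map (fun p => p.coeff 1) = LinearMap.toMatrix' L := by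
    ext a b
    rw [Matrix.map_apply, mulMat_apply, crd_cfG c', cfG_mul_one h0 h1, cfG_crd_symm, cfG_crd_symm,
      LinearMap.toMatrix'_apply]
    have e0 : (fun i => ((Pi.single b 1 : Fin (2 * r + 2) → Polynomial k) i).coeff 0) =
        Pi.single b 1 := by
      funext i
      rw [Pi.single_apply, Pi.single_apply]
      split_ifs <;> simp
    have e1 : (fun i => ((Pi.single b 1 : Fin (2 * r + 2) → Polynomial k) i).coeff 1) = 0 := by
      funext i
      rw [Pi.single_apply]
      split_ifs <;> simp [Polynomial.coeff_one]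
    have e2 : (fun j => if j = b then (1 : k) else 0) = Pi.single b 1 := by
      funext i
      rw [Pi.single_apply]
    rw [e0, e1, map_zero, mul_zero, zero_add, ← hL]
    try rw [e2]
  rw [hM]
  have := congrFun (congrArg DFunLike.coe (Matrix.toLin'_toMatrix' L)) x
  rw [Matrix.toLin'_apply] at this
  exact this

/-- **The curve with prescribed velocity.** -/
theorem exists_curve (c' cd : (Fin r →₀ ℕ) → k) (y0 y1 : Fin r → GAlg c')
    (Γ : GAlg c' →ₗ[k] GAlg c') :
    ∃ (g : Matrix (Fin (2 * r + 2)) (Fin (2 * r + 2)) (Polynomial k))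
      (c : (Fin r →₀ ℕ) → Polynomial k) (Y : Fin r → Fin (2 * r + 2) → Polynomial k),
      (∀ α, c α = Polynomial.C (c' α) + Polynomial.X * Polynomial.C (cd α)) ∧
      (∀ s, (fr g c Y s).coeff 0 = frame 1 c' y0 s) ∧
      (∀ i a b, (fr g c Y (Sum.inl (i, a, b))).coeff 1 =
        crd c' (y1 i * (crd c').symm (Pi.single b 1) +
          ⟨0, 0, TT cd (y0 i).w ((crd c').symm (Pi.single b 1)).w, 0⟩ +
          (Γ (y0 i * (crd c').symm (Pi.single b 1)) - y0 i * Γ ((crd c').symm (Pi.single b 1)))) a) ∧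
      (∀ a, (fr g c Y (Sum.inr a)).coeff 1 = crd c' (Γ 1) a) := by
  let Γm : Matrix (Fin (2 * r + 2)) (Fin (2 * r + 2)) k :=
    LinearMap.toMatrix' ((crd c').toLinearMap ∘ₗ Γ ∘ₗ (crd c').symm.toLinearMap)
  have hΓm : ∀ x, Γm.mulVec x = crd c' (Γ ((crd c').symm x)) := fun x => by
    have := congrFun (congrArg DFunLike.coe (Matrix.toLin'_toMatrix'
      ((crd c').toLinearMap ∘ₗ Γ ∘ₗ (crd c').symm.toLinearMap))) x
    rw [Matrix.toLin'_apply] at this
    exact this
  let c : (Fin r →₀ ℕ) → Polynomial k :=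
    fun α => Polynomial.C (c' α) + Polynomial.X * Polynomial.C (cd α)
  have h0 : ∀ α, (c α).coeff 0 = c' α := fun α => by simp [c]
  have h1 : ∀ α, (c α).coeff 1 = cd α := fun α => by simp [c, Polynomial.coeff_C]
  let Y : Fin r → Fin (2 * r + 2) → Polynomial k := fun i a =>
    Polynomial.C (crd c' (y0 i) a) + Polynomial.X *
      Polynomial.C (crd c' (y1 i - Γm.trace • y0 i) a)
  let y : Fin r → GAlg c := fun i => (crd c).symm (Y i)
  have hy0 : ∀ i, cfG c' 0 (y i) = y0 i := by
    intro i
    rw [cfG_crd_symm]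
    apply (crd c').injective
    rw [LinearEquiv.apply_symm_apply]
    funext a
    simp [Y]
  have hy1 : ∀ i, cfG c' 1 (y i) = y1 i - Γm.trace • y0 i := by
    intro i
    rw [cfG_crd_symm]
    apply (crd c').injective
    rw [LinearEquiv.apply_symm_apply]
    funext a
    simp [Y, Polynomial.coeff_C]
  refine ⟨gcurve Γm, c, Y, fun α => rfl, ?_, ?_, ?_⟩
  · rintro (⟨i, a, b⟩ | a)
    · show ((gcurve Γm * mulMat c (y i) * (gcurve Γm).adjugate).map (fun p => p.coeff 0)) a b =
        ((1 : Matrix (Fin (2 * r + 2)) (Fin (2 * r + 2)) k) * mulMat c' (y0 i) *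
          (1 : Matrix (Fin (2 * r + 2)) (Fin (2 * r + 2)) k).adjugate) a b
      rw [mat_coeff_zero, mat_coeff_zero, gcurve_zero, adj_zero, mulMat_coeff_zero h0, hy0,
        Matrix.adjugate_one]
    · show ((gcurve Γm).mulVec (crd c 1) a).coeff 0 = (Matrix.mulVec 1 (crd c' 1)) a
      rw [Matrix.one_mulVec, Matrix.mulVec, dotProduct, Polynomial.finsetSum_coeff]
      have e0 : cfG c' 0 (1 : GAlg c) = 1 := by
        apply GAlg.ext
        · simp [cfG]
        · funext i; simp [cfG]
        · funext i; simp [cfG]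
        · simp [cfG]
      have e1 : ∀ b, (gcurve Γm a b * crd c 1 b).coeff 0 =
          (1 : Matrix (Fin (2 * r + 2)) (Fin (2 * r + 2)) k) a b * crd c' 1 b := by
        intro b
        rw [Polynomial.mul_coeff_zero, crd_cfG c', ← gcurve_zero Γm, Matrix.map_apply, e0]
      rw [Finset.sum_congr rfl fun b _ => e1 b]
      simp [Matrix.one_apply]
  · intro i a b
    show ((gcurve Γm * mulMat c (y i) * (gcurve Γm).adjugate).map (fun p => p.coeff 1)) a b = _
    rw [mat_coeff_one, mat_coeff_one, mat_coeff_zero, gcurve_zero, gcurve_one, adj_zero, adj_one,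
      mulMat_coeff_zero h0, hy0]
    simp only [Matrix.one_mul, Matrix.mul_one]
    have hcol : ∀ (M : Matrix (Fin (2 * r + 2)) (Fin (2 * r + 2)) k) (V : k),
        M.mulVec (Pi.single b 1) a = V → M a b = V := fun M V h => by
      rw [← h, Matrix.mulVec_single_one]; rfl
    apply hcol
    rw [Matrix.add_mulVec, Matrix.add_mulVec, ← Matrix.mulVec_mulVec,
      ← Matrix.mulVec_mulVec, Matrix.sub_mulVec, Matrix.smul_mulVec, Matrix.one_mulVec,
      mulMat_coeff_one h0 h1, hy0, hy1, hΓm, hΓm, mulMat_mulVec, mulMat_mulVec,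
      LinearEquiv.symm_apply_apply, ← map_add, ← map_add]
    rw [map_sub, LinearEquiv.symm_apply_apply, map_smul]
    simp only [sub_mul, mul_sub, smul_mul_assoc, mul_smul_comm]
    abel_nf
  · intro a
    show ((gcurve Γm).mulVec (crd c 1) a).coeff 1 = _
    have e : crd c' (Γ 1) = Γm.mulVec (crd c' 1) := by rw [hΓm, LinearEquiv.symm_apply_apply]
    rw [e, Matrix.mulVec, Matrix.mulVec, dotProduct, dotProduct, Polynomial.finsetSum_coeff]
    refine Finset.sum_congr rfl fun b _ => ?_
    have e1 : cfG c' 0 (1 : GAlg c) = 1 := by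
      apply GAlg.ext
      · simp [cfG]
      · funext i; simp [cfG]
      · funext i; simp [cfG]
      · simp [cfG]
    have e2 : cfG c' 1 (1 : GAlg c) = 0 := by
      apply GAlg.ext
      · simp [cfG, Polynomial.coeff_one]
      · funext i; simp [cfG]
      · funext i; simp [cfG]
      · simp [cfG]
    rw [Polynomial.mul_coeff_one, crd_cfG c', crd_cfG c', e1, e2, map_zero, Pi.zero_apply,
      mul_zero, zero_add]
    have := congrFun (congrFun (gcurve_one Γm) a) b
    rw [Matrix.map_apply] at this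
    rw [this]

end Curve

end Pool.Agent.J6H80.Cubic
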