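import Mathlib
import Pool.Agent.J6H80.Cubic.Local

/-!
Application of the smoothness criterion at the base point.
-/

set_option linter.unusedSectionVars false

open MvPolynomial

namespace Pool.Agent.J6H80.Cubic

section Shift

variable {σ : Type*} [Fintype σ] [DecidableEq σ] {k : Type*} [Field k]

/-- translation of the coordinates by `-p` -/
noncomputable def tauM (p : σ → k) : MvPolynomial σ k →ₐ[k] MvPolynomial σ k :=
  aeval fun s => X s - C (p s)

/-- translation of the coordinates by `p` -/
noncomputable def tauP (p : σ → k) : MvPolynomial σ k →ₐ[k] MvPolynomial σ k :=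
  aeval fun s => X s + C (p s)

theorem tauM_tauP (p : σ → k) (h : MvPolynomial σ k) : tauM p (tauP p h) = h := by
  have : (tauM p).comp (tauP p) = AlgHom.id k _ := by
    apply MvPolynomial.algHom_ext
    intro s
    rw [AlgHom.comp_apply, tauP, aeval_X, map_add, tauM, aeval_X, ← algebraMap_eq,
      AlgHom.commutes, sub_add_cancel]
    rfl
  exact DFunLike.congr_fun this h

theorem aeval_tauM {B : Type*} [CommRing B] [Algebra k B] (p : σ → k) (x : σ → B)
    (h : MvPolynomial σ k) :
    aeval x (tauM p h) = aeval (fun s => x s - algebraMap k B (p s)) h := by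
  have : ((aeval x : MvPolynomial σ k →ₐ[k] B).comp (tauM p)) =
      aeval (fun s => x s - algebraMap k B (p s)) := by
    apply MvPolynomial.algHom_ext
    intro s
    rw [AlgHom.comp_apply, tauM, aeval_X, map_sub, aeval_X, aeval_X, ← algebraMap_eq,
      AlgHom.commutes]
  exact DFunLike.congr_fun this h

theorem aeval_tauP {B : Type*} [CommRing B] [Algebra k B] (p : σ → k) (x : σ → B)
    (h : MvPolynomial σ k) :
    aeval x (tauP p h) = aeval (fun s => x s + algebraMap k B (p s)) h := by
  have : ((aeval x : MvPolynomial σ k →ₐ[k] B).comp (tauP p)) =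
      aeval (fun s => x s + algebraMap k B (p s)) := by
    apply MvPolynomial.algHom_ext
    intro s
    rw [AlgHom.comp_apply, tauP, aeval_X, map_add, aeval_X, aeval_X, ← algebraMap_eq,
      AlgHom.commutes]
  exact DFunLike.congr_fun this h

theorem linPart_eq_coeff (θ : σ → k) (q : MvPolynomial σ k) :
    (aeval (fun s => (Polynomial.X * Polynomial.C (θ s) : Polynomial k)) q).coeff 1 =
      linPart q θ := by
  have h0 : ∀ q : MvPolynomial σ k,
      (aeval (fun s => (Polynomial.X * Polynomial.C (θ s) : Polynomial k)) q).coeff 0 =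
      coeff 0 q := by
    intro q
    induction q using MvPolynomial.induction_on with
    | C a => rw [← algebraMap_eq, AlgHom.commutes]; simp
    | add p q hp hq => rw [map_add, Polynomial.coeff_add, hp, hq, coeff_add]
    | mul_X p s hp =>
      rw [map_mul, aeval_X, Polynomial.mul_coeff_zero, coeff_mul_X']
      simp
  induction q using MvPolynomial.induction_on with
  | C a =>
    rw [← algebraMap_eq, AlgHom.commutes]
    simp only [linPart, Polynomial.algebraMap_eq, Polynomial.coeff_C, one_ne_zero, if_false]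
    symm
    apply Finset.sum_eq_zero
    intro s _
    rw [algebraMap_eq, coeff_C, if_neg, zero_mul]
    intro h
    have := DFunLike.congr_fun h s
    simp at this
  | add p q hp hq =>
    rw [map_add, Polynomial.coeff_add, hp, hq]
    simp [linPart, add_mul, Finset.sum_add_distrib]
  | mul_X p s hp =>
    rw [map_mul, aeval_X, Polynomial.mul_coeff_one, h0]
    simp only [linPart, coeff_mul_X']
    rw [Finset.sum_eq_single s]
    · simp
    · intro t _ hts
      rw [if_neg, zero_mul]
      simp only [Finsupp.mem_support_iff, Finsupp.single_apply, ne_eq, ite_eq_right_iff,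
        one_ne_zero, imp_false, not_not]
      exact hts
    · intro h; exact absurd (Finset.mem_univ _) h

end Shift

universe u

section Main

variable (k : Type u) [Field k] (r : ℕ)

/-- the entries of the commutators -/
noncomputable def commPoly (i j : Fin r) (a b : Fin (2 * r + 2)) :
    MvPolynomial (FrameIdx r (2 * r + 2)) k :=
  ∑ c, (X (Sum.inl (i, a, c)) * X (Sum.inl (j, c, b)) -
    X (Sum.inl (j, a, c)) * X (Sum.inl (i, c, b)))

/-- the ideal of the commuting variety -/
noncomputable def JJ : Ideal (MvPolynomial (FrameIdx r (2 * r + 2)) k) :=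
  Ideal.span {h | ∃ i j a b, h = commPoly k r i j a b}

variable {k r}

theorem eval_commPoly (p : FrameIdx r (2 * r + 2) → k) (I : Ideal (MvPolynomial (Fin r) k))
    (hp : Represents p I) (i j : Fin r) (a b : Fin (2 * r + 2)) :
    eval p (commPoly k r i j a b) = 0 := by
  obtain ⟨e, he, -⟩ := hp
  have key : ∀ i j : Fin r, e (Ideal.Quotient.mk I (X i) * (Ideal.Quotient.mk I (X j) *
      e.symm (Pi.single b 1))) a = ∑ c, p (Sum.inl (i, a, c)) * p (Sum.inl (j, c, b)) := by
    intro i j
    rw [he]
    refine Finset.sum_congr rfl fun c _ => ?_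
    rw [he, LinearEquiv.apply_symm_apply, Finset.sum_eq_single b]
    · rw [Pi.single_eq_same, mul_one]
    · intro d _ hd; rw [Pi.single_eq_of_ne hd, mul_zero]
    · intro h; exact absurd (Finset.mem_univ _) h
  have e1 := key i j
  have e2 := key j i
  rw [show Ideal.Quotient.mk I (X j) * (Ideal.Quotient.mk I (X i) * e.symm (Pi.single b 1)) =
    Ideal.Quotient.mk I (X i) * (Ideal.Quotient.mk I (X j) * e.symm (Pi.single b 1)) by ring,
    e1] at e2
  simp only [commPoly, map_sum, map_sub, map_mul, eval_X, Finset.sum_sub_distrib]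
  rw [e2, sub_self]

theorem eval_JJ (p : FrameIdx r (2 * r + 2) → k) (I : Ideal (MvPolynomial (Fin r) k))
    (hp : Represents p I) (h : MvPolynomial (FrameIdx r (2 * r + 2)) k) (hh : h ∈ JJ k r) :
    eval p h = 0 := by
  have : JJ k r ≤ RingHom.ker (eval p) := by
    rw [JJ, Ideal.span_le]
    rintro _ ⟨i, j, a, b, rfl⟩
    exact eval_commPoly p I hp i j a b
  exact this hh

variable (k r) in
/-- the ideal of the closure of the family -/
noncomputable def PP [NeZero r] : Ideal (MvPolynomial (FrameIdx r (2 * r + 2)) k) :=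
  RingHom.ker (aeval (frU k r))

variable [NeZero r]

theorem JJ_le_PP [Infinite k] (h8 : 8 ≤ r) : JJ k r ≤ PP k r := by
  intro h hh
  show aeval (frU k r) h = 0
  apply univ_vanish (U1 k r) subset_rfl isZariskiOpen_U1 ⟨F0 k r, F0_mem h8⟩
  intro I _ p hp
  exact eval_JJ p I.1 hp h hh

variable (k r) in
/-- the base point -/
noncomputable def p0 : FrameIdx r (2 * r + 2) → k := frame 1 (c0 k r) (GAlg.xg (c0 k r))

theorem p0_inl (i : Fin r) (a b : Fin (2 * r + 2)) :
    p0 k r (Sum.inl (i, a, b)) = mulMat (c0 k r) (GAlg.xg (c0 k r) i) a b := by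
  show ((1 : Matrix (Fin (2 * r + 2)) (Fin (2 * r + 2)) k) * mulMat (c0 k r)
    (GAlg.xg (c0 k r) i) * (1 : Matrix (Fin (2 * r + 2)) (Fin (2 * r + 2)) k).adjugate) a b = _
  rw [Matrix.adjugate_one, Matrix.one_mul, Matrix.mul_one]

/-- the commutation relation satisfied by tangent vectors -/
theorem tang_comm (p : FrameIdx r (2 * r + 2) → k) (θ : FrameIdx r (2 * r + 2) → k)
    (hθ : θ ∈ tang ((JJ k r).comap (tauM p))) (i j : Fin r) (a b : Fin (2 * r + 2)) :
    ∑ c, (p (Sum.inl (i, a, c)) * θ (Sum.inl (j, c, b)) +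
      θ (Sum.inl (i, a, c)) * p (Sum.inl (j, c, b))) =
    ∑ c, (p (Sum.inl (j, a, c)) * θ (Sum.inl (i, c, b)) +
      θ (Sum.inl (j, a, c)) * p (Sum.inl (i, c, b))) := by
  have hmem : tauP p (commPoly k r i j a b) ∈ (JJ k r).comap (tauM p) := by
    rw [Ideal.mem_comap, tauM_tauP]
    exact Ideal.subset_span ⟨i, j, a, b, rfl⟩
  have h1 := hθ _ hmem
  rw [← linPart_eq_coeff, aeval_tauP] at h1
  simp only [commPoly, map_sum, map_sub, map_mul, aeval_X, Polynomial.finsetSum_coeff,
    Polynomial.coeff_sub, Polynomial.mul_coeff_one, Polynomial.coeff_add,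
    Polynomial.algebraMap_eq, Polynomial.coeff_X_mul_zero, Polynomial.coeff_C_zero,
    Polynomial.coeff_X_mul, Polynomial.coeff_C, zero_add, one_ne_zero, if_false, add_zero,
    Finset.sum_sub_distrib] at h1
  simp only [if_true, Polynomial.coeff_X_zero, Polynomial.coeff_X_one, zero_mul, zero_add,
    one_mul] at h1
  rw [← sub_eq_zero, ← h1]

/-- **Smoothness at the base point.** -/
theorem smooth_base [CharZero k] (h8 : 8 ≤ r) :
    ∃ u : MvPolynomial (FrameIdx r (2 * r + 2)) k, eval (p0 k r) u ≠ 0 ∧
      ∀ h ∈ PP k r, u * h ∈ JJ k r := by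
  classical
  haveI : Infinite k := inferInstance
  obtain ⟨u, hu, hJ⟩ := smooth_point ((JJ k r).comap (tauM (p0 k r)))
    ((PP k r).comap (tauM (p0 k r))) (Ideal.comap_mono (JJ_le_PP h8)) (by
      intro θ hθ
      -- the first order data
      let c := c0 k r
      let Θ : Fin r → Matrix (Fin (2 * r + 2)) (Fin (2 * r + 2)) k := fun i =>
        Matrix.of fun a b => θ (Sum.inl (i, a, b))
      let Xd : Fin r → GAlg c →ₗ[k] GAlg c := fun i =>
        (crd c).symm.toLinearMap ∘ₗ (Matrix.toLin' (Θ i)) ∘ₗ (crd c).toLinearMap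
      have hXd : ∀ i w, Xd i w = (crd c).symm ((Θ i).mulVec (crd c w)) := fun i w => rfl
      let vd : GAlg c := (crd c).symm (fun a => θ (Sum.inr a))
      have hmat : ∀ i j, mulMat c (GAlg.xg c i) * Θ j + Θ i * mulMat c (GAlg.xg c j) =
          mulMat c (GAlg.xg c j) * Θ i + Θ j * mulMat c (GAlg.xg c i) := by
        intro i j
        ext a b
        have := tang_comm (p0 k r) θ hθ i j a b
        simp only [p0_inl, Finset.sum_add_distrib] at this
        rw [Matrix.add_apply, Matrix.add_apply, Matrix.mul_apply, Matrix.mul_apply,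
          Matrix.mul_apply, Matrix.mul_apply]
        exact this
      have hcomm : ∀ i j w, Xd i (GAlg.xg c j * w) + GAlg.xg c i * Xd j w =
          Xd j (GAlg.xg c i * w) + GAlg.xg c j * Xd i w := by
        intro i j w
        apply (crd c).injective
        have h1 : ∀ i j, crd c (Xd i (GAlg.xg c j * w)) =
            (Θ i * mulMat c (GAlg.xg c j)).mulVec (crd c w) := by
          intro i j
          rw [hXd, LinearEquiv.apply_symm_apply, ← Matrix.mulVec_mulVec, mulMat_mulVec,
            LinearEquiv.symm_apply_apply]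
        have h2 : ∀ i j, crd c (GAlg.xg c i * Xd j w) =
            (mulMat c (GAlg.xg c i) * Θ j).mulVec (crd c w) := by
          intro i j
          rw [hXd, ← Matrix.mulVec_mulVec, mulMat_mulVec]
        rw [map_add, map_add, h1, h2, h1, h2, ← Matrix.add_mulVec, ← Matrix.add_mulVec,
          add_comm (Θ i * mulMat c (GAlg.xg c j)), add_comm (Θ j * mulMat c (GAlg.xg c i)), hmat]
      have hsurj : Function.Surjective (GAlg.ev c) := by
        apply ev_surj_of_good (pm r) (pp r) c
        rw [c0_good k r h8, Matrix.det_one]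
        exact one_ne_zero
      obtain ⟨cd, y, Γ, hcd, hsplit, hv⟩ := tangent_split c (c0_cyc k h8)
        (tt_c0_edge k r) hsurj Xd vd hcomm
      obtain ⟨g, cc, Y, hcc, hz, ho1, ho2⟩ := exists_curve c cd (GAlg.xg c) y Γ
      have hcc3 : ∀ α : Fin r →₀ ℕ, α.degree ≠ 3 → cc α = 0 := by
        intro α hα
        rw [hcc, hcd α hα, show c α = 0 from c0_deg k α hα]
        simp
      refine ⟨fun s => fr g cc Y s - Polynomial.C (p0 k r s), fun s => ?_, fun s => ?_,
        fun h hh => ?_⟩
      · rw [Polynomial.coeff_sub, hz, Polynomial.coeff_C_zero]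
        exact sub_self _
      · rw [Polynomial.coeff_sub, Polynomial.coeff_C, if_neg one_ne_zero, sub_zero]
        rcases s with ⟨i, a, b⟩ | a
        · rw [ho1]
          have hs := hsplit i ((crd c).symm (Pi.single b 1))
          rw [hXd, LinearEquiv.apply_symm_apply, LinearEquiv.symm_apply_eq] at hs
          have e1 : (GAlg.xg c i).w = Pi.single i 1 := rfl
          rw [e1, ← hs, Matrix.mulVec_single_one]
          rfl
        · rw [ho2, ← hv, LinearEquiv.apply_symm_apply]
      · rw [Ideal.mem_comap] at hh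
        have h1 : aeval (frU k r) (tauM (p0 k r) h) = 0 := hh
        have h2 := aeval_frU (mkPt g cc Y) (tauM (p0 k r) h)
        rw [h1, map_zero, frOf_mkPt _ _ _ hcc3, aeval_tauM] at h2
        exact h2.symm)
  refine ⟨tauM (p0 k r) u, ?_, fun h hh => ?_⟩
  · have h1 := aeval_tauM (p0 k r) (p0 k r) u
    rw [aeval_eq_eval', aeval_eq_eval'] at h1
    rw [h1]
    have h2 : (fun s => p0 k r s - algebraMap k k (p0 k r s)) = 0 := by
      funext s; simp
    rw [h2]
    have h3 : eval (0 : FrameIdx r (2 * r + 2) → k) u = constantCoeff u :=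
      congrFun (congrArg DFunLike.coe eval_zero) u
    rw [h3]
    exact hu
  · have h1 : tauP (p0 k r) h ∈ (PP k r).comap (tauM (p0 k r)) := by
      rw [Ideal.mem_comap, tauM_tauP]; exact hh
    have h2 := hJ _ h1
    rw [Ideal.mem_comap, map_mul, tauM_tauP] at h2
    exact h2

end Main

end Pool.Agent.J6H80.Cubic
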