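import Mathlib
import Pool.Agent.J6H80.Cubic.Local2

/-!
The closure of the locus is an elementary component of the Hilbert scheme.
-/

set_option linter.unusedSectionVars false

open MvPolynomial

namespace Pool.Agent.J6H80.Cubic

universe u

section Action

variable {k : Type u} [Field k] {r n : ℕ}

/-- change of frame, as polynomials -/
noncomputable def actPoly (g g' : Matrix (Fin n) (Fin n) k) : FrameIdx r n →
    MvPolynomial (FrameIdx r n) k :=
  Sum.elim (fun x => ∑ c, ∑ d, C (g x.2.1 c) * X (Sum.inl (x.1, c, d)) * C (g' d x.2.2))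
    (fun a => ∑ c, C (g a c) * X (Sum.inr c))

/-- change of frame -/
def act (g g' : Matrix (Fin n) (Fin n) k) (p : FrameIdx r n → k) : FrameIdx r n → k :=
  Sum.elim (fun x => ∑ c, ∑ d, g x.2.1 c * p (Sum.inl (x.1, c, d)) * g' d x.2.2)
    (fun a => ∑ c, g a c * p (Sum.inr c))

theorem eval_actPoly (g g' : Matrix (Fin n) (Fin n) k) (p : FrameIdx r n → k)
    (u : MvPolynomial (FrameIdx r n) k) :
    eval p (aeval (actPoly g g') u) = eval (act g g' p) u := by
  have : ((aeval p : MvPolynomial (FrameIdx r n) k →ₐ[k] k).comp (aeval (actPoly g g'))) =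
      aeval (act g g' p) := by
    apply MvPolynomial.algHom_ext
    rintro (⟨i, a, b⟩ | a)
    · rw [AlgHom.comp_apply, aeval_X, aeval_X]
      simp [actPoly, act]
    · rw [AlgHom.comp_apply, aeval_X, aeval_X]
      simp [actPoly, act]
  have h := DFunLike.congr_fun this u
  rw [AlgHom.comp_apply, aeval_eq_eval', aeval_eq_eval'] at h
  exact h

theorem represents_act (g g' : Matrix (Fin n) (Fin n) k) (h1 : g * g' = 1) (h2 : g' * g = 1)
    (p : FrameIdx r n → k) (I : Ideal (MvPolynomial (Fin r) k)) (hp : Represents p I) :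
    Represents (act g g' p) I := by
  obtain ⟨e, he, he1⟩ := hp
  let G : (Fin n → k) ≃ₗ[k] (Fin n → k) :=
    LinearEquiv.ofLinear (Matrix.toLin' g) (Matrix.toLin' g')
      (by rw [← Matrix.toLin'_mul, h1, Matrix.toLin'_one])
      (by rw [← Matrix.toLin'_mul, h2, Matrix.toLin'_one])
  have hG : ∀ x, G x = g.mulVec x := fun x => Matrix.toLin'_apply g x
  refine ⟨e.trans G, fun i w a => ?_, fun a => ?_⟩
  · rw [LinearEquiv.trans_apply, LinearEquiv.trans_apply, hG, hG]
    have e1 : e (Ideal.Quotient.mk I (X i) * w) =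
        (Matrix.of fun a b => p (Sum.inl (i, a, b))).mulVec (e w) := by
      funext a; exact he i w a
    have e2 : (Matrix.of fun a b => act g g' p (Sum.inl (i, a, b))) =
        g * (Matrix.of fun a b => p (Sum.inl (i, a, b))) * g' := by
      ext a b
      rw [Matrix.of_apply, Matrix.mul_apply]
      simp only [Matrix.mul_apply, Finset.sum_mul, Matrix.of_apply]
      rw [Finset.sum_comm]
      rfl
    have e3 : ∑ b, act g g' p (Sum.inl (i, a, b)) * g.mulVec (e w) b =
        (Matrix.of fun a b => act g g' p (Sum.inl (i, a, b))).mulVec (g.mulVec (e w)) a := rfl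
    rw [e3, e2, e1, Matrix.mulVec_mulVec, Matrix.mulVec_mulVec, Matrix.mul_assoc _ g' g, h2,
      Matrix.mul_one]
  · rw [LinearEquiv.trans_apply, hG]
    show g.mulVec (e 1) a = ∑ c, g a c * p (Sum.inr c)
    simp only [Matrix.mulVec, dotProduct, he1]

theorem act_of_represents (p p' : FrameIdx r n → k) (I : Ideal (MvPolynomial (Fin r) k))
    (hp : Represents p I) (hp' : Represents p' I) :
    ∃ g g' : Matrix (Fin n) (Fin n) k, g * g' = 1 ∧ g' * g = 1 ∧ p' = act g g' p := by
  obtain ⟨e, he, he1⟩ := hp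
  obtain ⟨e', he', he1'⟩ := hp'
  let G : (Fin n → k) ≃ₗ[k] (Fin n → k) := e.symm.trans e'
  let g : Matrix (Fin n) (Fin n) k := LinearMap.toMatrix' G.toLinearMap
  let g' : Matrix (Fin n) (Fin n) k := LinearMap.toMatrix' G.symm.toLinearMap
  have hgv : ∀ x, g.mulVec x = G x := fun x => by
    have := congrFun (congrArg DFunLike.coe (Matrix.toLin'_toMatrix' G.toLinearMap)) x
    rw [Matrix.toLin'_apply] at this
    exact this
  have hgv' : ∀ x, g'.mulVec x = G.symm x := fun x => by
    have := congrFun (congrArg DFunLike.coe (Matrix.toLin'_toMatrix' G.symm.toLinearMap)) x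
    rw [Matrix.toLin'_apply] at this
    exact this
  have h1 : g * g' = 1 := by
    rw [← LinearMap.toMatrix'_comp, LinearEquiv.comp_coe, LinearEquiv.symm_trans_self,
      LinearEquiv.refl_toLinearMap, LinearMap.toMatrix'_id]
  have h2 : g' * g = 1 := by
    rw [← LinearMap.toMatrix'_comp, LinearEquiv.comp_coe, LinearEquiv.self_trans_symm,
      LinearEquiv.refl_toLinearMap, LinearMap.toMatrix'_id]
  refine ⟨g, g', h1, h2, ?_⟩
  funext x
  rcases x with ⟨i, a, b⟩ | a
  · have e2 : (Matrix.of fun a b => act g g' p (Sum.inl (i, a, b))) =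
        g * (Matrix.of fun a b => p (Sum.inl (i, a, b))) * g' := by
      ext a b
      rw [Matrix.of_apply, Matrix.mul_apply]
      simp only [Matrix.mul_apply, Finset.sum_mul, Matrix.of_apply]
      rw [Finset.sum_comm]
      rfl
    have e3 : (Matrix.of fun a b => p' (Sum.inl (i, a, b))) =
        g * (Matrix.of fun a b => p (Sum.inl (i, a, b))) * g' := by
      apply Matrix.toLin'.injective
      apply LinearMap.ext
      intro x
      rw [Matrix.toLin'_apply, Matrix.toLin'_apply, ← Matrix.mulVec_mulVec,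
        ← Matrix.mulVec_mulVec, hgv, hgv']
      have e4 : (Matrix.of fun a b => p' (Sum.inl (i, a, b))).mulVec x =
          e' (Ideal.Quotient.mk I (X i) * e'.symm x) := by
        funext a
        rw [he', LinearEquiv.apply_symm_apply]
        rfl
      have e5 : (Matrix.of fun a b => p (Sum.inl (i, a, b))).mulVec (G.symm x) =
          e (Ideal.Quotient.mk I (X i) * e'.symm x) := by
        funext a
        rw [he]
        rfl
      rw [e4, e5]
      show _ = e' (e.symm (e _))
      rw [LinearEquiv.symm_apply_apply]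
    have := congrFun (congrFun (e3.trans e2.symm) a) b
    exact this
  · show p' (Sum.inr a) = g.mulVec (fun c => p (Sum.inr c)) a
    have e6 : (fun c => p (Sum.inr c)) = e 1 := by funext c; exact (he1 c).symm
    rw [e6, hgv, ← he1' a]
    show _ = e' (e.symm (e 1)) a
    rw [LinearEquiv.symm_apply_apply]

/-- nonvanishing of a polynomial at some frame is an open condition -/
theorem isOpen_nz (u : MvPolynomial (FrameIdx r n) k) :
    IsOpen {I : Hilb k r n | ∃ p, Represents p I.1 ∧ eval p u ≠ 0} := by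
  rw [← isClosed_compl_iff, isClosed_iff_isZariskiClosed]
  refine ⟨{h | ∃ g g' : Matrix (Fin n) (Fin n) k, g * g' = 1 ∧ g' * g = 1 ∧
    h = aeval (actPoly g g') u}, fun I p hp => ?_⟩
  constructor
  · rintro hI _ ⟨g, g', h1, h2, rfl⟩
    rw [eval_actPoly]
    by_contra hne
    exact hI ⟨_, represents_act g g' h1 h2 p I.1 hp, hne⟩
  · rintro h ⟨p', hp', hne⟩
    obtain ⟨g, g', h1, h2, rfl⟩ := act_of_represents p p' I.1 hp hp'
    apply hne
    rw [← eval_actPoly]
    exact h _ ⟨g, g', h1, h2, rfl⟩

end Action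

section Component

variable {k : Type u} [Field k] [CharZero k] {r : ℕ} [NeZero r]

theorem represents_p0 (h8 : 8 ≤ r) : Represents (p0 k r) (Ann (F0 k r).1) := by
  have hs := U1_surj (F0 k r) (F0_mem h8)
  have e : p0 k r = frame 1 (cf (F0 k r).1) (GAlg.xg _) := by
    have : ∀ c : (Fin r →₀ ℕ) → k, c = c0 k r → p0 k r = frame 1 c (GAlg.xg c) := by
      rintro _ rfl; rfl
    exact this _ cf_F0
  rw [e]
  apply represents_frame 1 (by simp) _ _ _ (annEquiv (F0 k r) hs)
  intro i
  rw [Matrix.det_one, one_smul]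
  show GAlg.ev _ (X i) = _
  rw [GAlg.ev_X]

variable (k r) in
/-- the point of the Hilbert scheme given by the base cubic -/
noncomputable def pt0 (h8 : 8 ≤ r) : Hilb k r (2 * r + 2) :=
  hilbOf (Ann (F0 k r).1) (annEquiv (F0 k r) (U1_surj (F0 k r) (F0_mem h8)))

/-- an open neighbourhood of the base point inside the closure of the locus -/
theorem exists_open (h8 : 8 ≤ r) : ∃ N : Set (Hilb k r (2 * r + 2)), IsOpen N ∧
    pt0 k r h8 ∈ N ∧ N ⊆ closure (locus (U1 k r)) := by
  obtain ⟨u, hu, hJ⟩ := smooth_base (k := k) (r := r) h8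
  refine ⟨_, isOpen_nz u, ⟨p0 k r, represents_p0 h8, hu⟩, ?_⟩
  rintro I ⟨p, hp, hne⟩
  obtain ⟨S, hS⟩ := (isClosed_iff_isZariskiClosed (closure (locus (U1 k r)))).mp isClosed_closure
  rw [hS I p hp]
  intro h hh
  have hP : h ∈ PP k r := by
    show aeval (frU k r) h = 0
    apply univ_vanish (U1 k r) subset_rfl isZariskiOpen_U1 ⟨F0 k r, F0_mem h8⟩
    intro I' hI' p' hp'
    exact (hS I' p' hp').mp (subset_closure hI') h hh
  have h1 := eval_JJ p I.1 hp _ (hJ h hP)
  rw [map_mul] at h1
  exact (mul_eq_zero.mp h1).resolve_left hne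

/-- **The closure of the locus is an irreducible component.** -/
theorem mem_irreducibleComponents (h8 : 8 ≤ r) :
    closure (locus (U1 k r)) ∈ irreducibleComponents (Hilb k r (2 * r + 2)) := by
  obtain ⟨N, hN, hpt, hNs⟩ := exists_open (k := k) (r := r) h8
  refine ⟨(isIrreducible_locus h8).closure, ?_⟩
  intro C hC hle
  have h1 : C ⊆ closure (C ∩ N) :=
    subset_closure_inter_of_isPreirreducible_of_isOpen hC.2 hN ⟨pt0 k r h8, hle (hNs hpt), hpt⟩
  refine h1.trans (closure_minimal ?_ isClosed_closure)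
  exact Set.inter_subset_right.trans hNs

end Component

end Pool.Agent.J6H80.Cubic
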