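import Mathlib
import Pool.Agent.J6H80.Cubic.Component

/-!
Powers of the centred maximal ideal: closed rank conditions on the Hilbert scheme.
-/

set_option linter.unusedSectionVars false

open MvPolynomial

namespace Pool.Agent.J6H80.Cubic

universe u

section Rank

variable {k : Type*} [Field k] {n : ℕ}

/-- determinantal description of rank conditions -/
theorem finrank_span_le_iff {T : Type*} (u : T → (Fin n → k)) (q : ℕ) :
    Module.finrank k (Submodule.span k (Set.range u)) ≤ q ↔
      ∀ (τ : Fin (q + 1) → T) (f : Fin (q + 1) → Fin n → k),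
        (Matrix.of fun a b => ∑ j, f a j * u (τ b) j).det = 0 := by
  constructor
  · intro h τ f
    by_contra hne
    have hli : LinearIndependent k (fun b => u (τ b)) := by
      rw [Fintype.linearIndependent_iff]
      intro g hg
      have h1 : (Matrix.of fun a b => ∑ j, f a j * u (τ b) j).mulVec g = 0 := by
        funext a
        simp only [Matrix.mulVec, dotProduct, Matrix.of_apply, Pi.zero_apply]
        have e1 : ∀ b, (∑ j, f a j * u (τ b) j) * g b = ∑ j, f a j * (g b * u (τ b) j) := by
          intro b
          rw [Finset.sum_mul]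
          exact Finset.sum_congr rfl fun j _ => by ring
        rw [Finset.sum_congr rfl fun b _ => e1 b, Finset.sum_comm]
        refine Finset.sum_eq_zero fun j _ => ?_
        rw [← Finset.mul_sum]
        have e2 := congrFun hg j
        rw [Finset.sum_apply] at e2
        simp only [Pi.smul_apply, smul_eq_mul, Pi.zero_apply] at e2
        rw [e2, mul_zero]
      exact fun b => congrFun (Matrix.eq_zero_of_mulVec_eq_zero hne h1) b
    have h2 := finrank_span_eq_card hli
    have h3 : Module.finrank k (Submodule.span k (Set.range (fun b => u (τ b)))) ≤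
        Module.finrank k (Submodule.span k (Set.range u)) := by
      apply Submodule.finrank_mono
      apply Submodule.span_mono
      rintro _ ⟨b, rfl⟩
      exact ⟨τ b, rfl⟩
    rw [h2, Fintype.card_fin] at h3
    omega
  · intro h
    by_contra hcon
    push Not at hcon
    obtain ⟨v, hv, -, hli⟩ := Submodule.exists_fun_fin_finrank_span_eq k (Set.range u)
    choose σ hσ using hv
    let ι : Fin (q + 1) → Fin (Module.finrank k (Submodule.span k (Set.range u))) :=
      Fin.castLE hcon
    have hι : Function.Injective ι := Fin.castLE_injective _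
    have hli' : LinearIndependent k (fun b => v (ι b)) := hli.comp ι hι
    -- the dual functionals
    let L : (Fin (q + 1) → k) →ₗ[k] (Fin n → k) := Fintype.linearCombination k (fun b => v (ι b))
    have hL : LinearMap.ker L = ⊥ := by
      rw [LinearMap.ker_eq_bot]
      exact linearIndependent_iff_injective_fintypeLinearCombination.mp hli'
    obtain ⟨g, hg⟩ := LinearMap.exists_leftInverse_of_injective L hL
    have hgv : ∀ a b, g (v (ι b)) a = if a = b then 1 else 0 := by
      intro a b
      have e1 : L (Pi.single b 1) = v (ι b) := by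
        show Fintype.linearCombination k (fun b => v (ι b)) (Pi.single b 1) = _
        rw [Fintype.linearCombination_apply_single, one_smul]
      rw [← e1, ← LinearMap.comp_apply, hg, LinearMap.id_apply, Pi.single_apply]
    have hdet := h (fun b => σ (ι b)) (fun a j => g (Pi.single j 1) a)
    have hmat : (Matrix.of fun a b => ∑ j, g (Pi.single j 1) a * u (σ (ι b)) j) =
        (1 : Matrix (Fin (q + 1)) (Fin (q + 1)) k) := by
      ext a b
      rw [Matrix.of_apply, Matrix.one_apply, ← hgv a b, hσ]
      have e2 : v (ι b) = ∑ j, v (ι b) j • (Pi.single j 1 : Fin n → k) := by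
        funext j
        simp [Finset.sum_apply, Pi.single_apply]
      conv_rhs => rw [e2, map_sum, Finset.sum_apply]
      refine Finset.sum_congr rfl fun j _ => ?_
      rw [map_smul, Pi.smul_apply, smul_eq_mul, mul_comm]
    rw [hmat, Matrix.det_one] at hdet
    exact one_ne_zero hdet

end Rank

section Words

variable {k : Type u} [Field k] {r n : ℕ}

/-- centred multiplication matrices -/
noncomputable def Dm {B : Type*} [CommRing B] [Algebra k B] (x : FrameIdx r n → B) (i : Fin r) :
    Matrix (Fin n) (Fin n) B :=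
  Matrix.of fun a b => x (Sum.inl (i, a, b)) -
    if a = b then algebraMap k B ((n : k)⁻¹) * ∑ c, x (Sum.inl (i, c, c)) else 0

/-- value of a word -/
noncomputable def Vw {B : Type*} [CommRing B] [Algebra k B] (x : FrameIdx r n → B) :
    List (Fin r) → Fin n → B
  | [] => fun a => x (Sum.inr a)
  | i :: L => (Dm (k := k) x i).mulVec (Vw x L)

theorem Vw_map {B B' : Type*} [CommRing B] [Algebra k B] [CommRing B'] [Algebra k B']
    (f : B →ₐ[k] B') (x : FrameIdx r n → B) (L : List (Fin r)) (a : Fin n) :
    f (Vw (k := k) x L a) = Vw (k := k) (fun v => f (x v)) L a := by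
  induction L generalizing a with
  | nil => rfl
  | cons i L ih =>
    simp only [Vw, Matrix.mulVec, dotProduct, map_sum, map_mul, ih]
    refine Finset.sum_congr rfl fun b _ => ?_
    congr 1
    simp only [Dm, Matrix.of_apply, map_sub]
    congr 1
    split_ifs
    · rw [map_mul, map_sum, AlgHom.commutes]
    · rw [map_zero]

/-- centred generator -/
noncomputable def zc (I : Ideal (MvPolynomial (Fin r) k)) (i : Fin r) :
    MvPolynomial (Fin r) k ⧸ I :=
  Ideal.Quotient.mk I (X i) - algebraMap k _ ((Module.finrank k (MvPolynomial (Fin r) k ⧸ I) : k)⁻¹ *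
    Algebra.trace k (MvPolynomial (Fin r) k ⧸ I) (Ideal.Quotient.mk I (X i)))

/-- word in the centred generators -/
noncomputable def zw (I : Ideal (MvPolynomial (Fin r) k)) (L : List (Fin r)) :
    MvPolynomial (Fin r) k ⧸ I := (L.map (zc I)).prod

theorem trace_eq (I : Ideal (MvPolynomial (Fin r) k)) (p : FrameIdx r n → k)
    (e : (MvPolynomial (Fin r) k ⧸ I) ≃ₗ[k] (Fin n → k))
    (he : ∀ (i : Fin r) (w : MvPolynomial (Fin r) k ⧸ I) (a : Fin n),
      e (Ideal.Quotient.mk I (X i) * w) a = ∑ b, p (Sum.inl (i, a, b)) * e w b) (i : Fin r) :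
    Algebra.trace k (MvPolynomial (Fin r) k ⧸ I) (Ideal.Quotient.mk I (X i)) =
      ∑ a, p (Sum.inl (i, a, a)) := by
  rw [Algebra.trace_apply, ← LinearMap.trace_conj' _ e]
  have : e.conj (Algebra.lmul k (MvPolynomial (Fin r) k ⧸ I) (Ideal.Quotient.mk I (X i))) =
      Matrix.toLin' (Matrix.of fun a b => p (Sum.inl (i, a, b))) := by
    apply LinearMap.ext
    intro x
    rw [LinearEquiv.conj_apply_apply, Matrix.toLin'_apply]
    funext a
    show e (Ideal.Quotient.mk I (X i) * e.symm x) a = _
    rw [he, LinearEquiv.apply_symm_apply]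
    rfl
  rw [this, Matrix.trace_toLin'_eq]
  rfl

theorem e_zw (I : Ideal (MvPolynomial (Fin r) k)) (p : FrameIdx r n → k)
    (e : (MvPolynomial (Fin r) k ⧸ I) ≃ₗ[k] (Fin n → k))
    (he : ∀ (i : Fin r) (w : MvPolynomial (Fin r) k ⧸ I) (a : Fin n),
      e (Ideal.Quotient.mk I (X i) * w) a = ∑ b, p (Sum.inl (i, a, b)) * e w b)
    (he1 : ∀ a : Fin n, e 1 a = p (Sum.inr a)) (L : List (Fin r)) :
    e (zw I L) = Vw (k := k) p L := by
  have hn : Module.finrank k (MvPolynomial (Fin r) k ⧸ I) = n := by
    rw [LinearEquiv.finrank_eq e, Module.finrank_fin_fun]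
  induction L with
  | nil => funext a; simp [zw, Vw, he1]
  | cons i L ih =>
    have e1 : zw I (i :: L) = zc I i * zw I L := by simp [zw]
    rw [e1, zc, sub_mul, ← Algebra.smul_def, map_sub, map_smul, trace_eq I p e he, hn]
    funext a
    rw [Pi.sub_apply, he, ih]
    simp only [Vw, Matrix.mulVec, dotProduct, Dm, Matrix.of_apply, sub_mul,
      Finset.sum_sub_distrib, ite_mul, zero_mul, Finset.sum_ite_eq, Finset.mem_univ, if_true,
      Pi.smul_apply, smul_eq_mul, Algebra.algebraMap_self, RingHom.id_apply]

/-- span of the words in a given family of words -/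
noncomputable def WT (T : Set (List (Fin r))) (I : Ideal (MvPolynomial (Fin r) k)) :
    Submodule k (MvPolynomial (Fin r) k ⧸ I) := Submodule.span k (zw I '' T)

/-- rank conditions on spans of words are closed -/
theorem isClosed_WT (T : Set (List (Fin r))) (q : ℕ) :
    IsClosed {I : Hilb k r n | Module.finrank k (WT T I.1) ≤ q} := by
  rw [isClosed_iff_isZariskiClosed]
  refine ⟨{h | ∃ (τ : Fin (q + 1) → T) (f : Fin (q + 1) → Fin n → k),
    h = (Matrix.of fun a b => ∑ j, C (f a j) * Vw (k := k) X (τ b).1 j :
      Matrix (Fin (q + 1)) (Fin (q + 1)) (MvPolynomial (FrameIdx r n) k)).det}, fun I p hp => ?_⟩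
  obtain ⟨e, he, he1⟩ := hp
  have h1 : Module.finrank k (WT T I.1) =
      Module.finrank k (Submodule.span k (Set.range fun t : T => Vw (k := k) p t.1)) := by
    have e1 : (WT T I.1).map e.toLinearMap =
        Submodule.span k (Set.range fun t : T => Vw (k := k) p t.1) := by
      rw [WT, Submodule.map_span]
      congr 1
      ext x
      constructor
      · rintro ⟨_, ⟨t, ht, rfl⟩, rfl⟩
        exact ⟨⟨t, ht⟩, (e_zw I.1 p e he he1 t).symm⟩
      · rintro ⟨⟨t, ht⟩, rfl⟩
        exact ⟨_, ⟨t, ht, rfl⟩, e_zw I.1 p e he he1 t⟩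
    rw [← e1]
    exact (LinearEquiv.finrank_map_eq e _).symm
  have hX : ∀ t a, eval p (Vw (k := k) (X : FrameIdx r n → MvPolynomial (FrameIdx r n) k) t a) =
      Vw (k := k) p t a := by
    intro t a
    have := Vw_map (k := k) (aeval p : MvPolynomial (FrameIdx r n) k →ₐ[k] k) X t a
    simp only [aeval_X] at this
    rw [← aeval_eq_eval', this]
  show Module.finrank k (WT T I.1) ≤ q ↔ _
  rw [h1, finrank_span_le_iff]
  have hdet : ∀ (τ : Fin (q + 1) → T) (f : Fin (q + 1) → Fin n → k),
      eval p (Matrix.of fun a b => ∑ j, C (f a j) * Vw (k := k) X (τ b).1 j :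
      Matrix (Fin (q + 1)) (Fin (q + 1)) (MvPolynomial (FrameIdx r n) k)).det =
      (Matrix.of fun a b => ∑ j, f a j * Vw (k := k) p (τ b).1 j).det := by
    intro τ f
    rw [RingHom.map_det]
    congr 1
    ext a b
    simp only [RingHom.mapMatrix_apply, Matrix.map_apply, Matrix.of_apply, map_sum, map_mul,
      eval_C, hX]
  constructor
  · rintro h _ ⟨τ, f, rfl⟩
    rw [hdet]
    exact h τ f
  · intro h τ f
    rw [← hdet]
    exact h _ ⟨τ, f, rfl⟩

end Words

end Pool.Agent.J6H80.Cubic
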