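import Mathlib
import Pool.Agent.J6H80.Cubic.Strata

/-!
Locality and Hilbert functions from the rank conditions; the component is elementary.
-/

set_option linter.unusedSectionVars false

open MvPolynomial

namespace Pool.Agent.J6H80.Cubic

universe u

section Words

variable {k : Type u} [Field k] {r : ℕ} (I : Ideal (MvPolynomial (Fin r) k))

/-- words of length at least `j` -/
def Tge (r j : ℕ) : Set (List (Fin r)) := {L | j ≤ L.length}

theorem zw_append (L L' : List (Fin r)) : zw I (L ++ L') = zw I L * zw I L' := by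
  simp [zw]

theorem zw_mem (j : ℕ) (L : List (Fin r)) (h : j ≤ L.length) : zw I L ∈ WT (Tge r j) I :=
  Submodule.subset_span ⟨L, h, rfl⟩

theorem zw_single (i : Fin r) : zw I [i] = zc I i := by simp [zw]

theorem WT_mul (i j : ℕ) : WT (Tge r i) I * WT (Tge r j) I = WT (Tge r (i + j)) I := by
  unfold WT
  rw [Submodule.span_mul_span]
  congr 1
  ext x
  constructor
  · rintro ⟨_, ⟨L, hL, rfl⟩, _, ⟨L', hL', rfl⟩, rfl⟩
    refine ⟨L ++ L', ?_, zw_append I L L'⟩
    show i + j ≤ (L ++ L').length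
    rw [List.length_append]
    exact add_le_add hL hL'
  · rintro ⟨L, hL, rfl⟩
    have hL' : i + j ≤ L.length := hL
    refine ⟨zw I (L.take i), ⟨L.take i, ?_, rfl⟩, zw I (L.drop i), ⟨L.drop i, ?_, rfl⟩, ?_⟩
    · show i ≤ (L.take i).length
      rw [List.length_take]
      omega
    · show j ≤ (L.drop i).length
      rw [List.length_drop]
      omega
    · show zw I (L.take i) * zw I (L.drop i) = zw I L
      rw [← zw_append, List.take_append_drop]

theorem WT_anti {i j : ℕ} (h : i ≤ j) : WT (Tge r j) I ≤ WT (Tge r i) I :=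
  Submodule.span_mono (Set.image_mono fun _ hL => le_trans h hL)

theorem WT_zero : WT (Tge r 0) I = ⊤ := by
  rw [eq_top_iff]
  intro a _
  obtain ⟨P, rfl⟩ := Ideal.Quotient.mk_surjective a
  have hone : (1 : MvPolynomial (Fin r) k ⧸ I) ∈ WT (Tge r 0) I := by
    have := zw_mem I 0 [] (Nat.zero_le _)
    simpa [zw] using this
  induction P using MvPolynomial.induction_on with
  | C a =>
    have : Ideal.Quotient.mk I (C a) = a • (1 : MvPolynomial (Fin r) k ⧸ I) :=
      Algebra.algebraMap_eq_smul_one (A := MvPolynomial (Fin r) k ⧸ I) a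
    rw [this]
    exact Submodule.smul_mem _ _ hone
  | add P Q hP hQ => rw [map_add]; exact Submodule.add_mem _ (hP trivial) (hQ trivial)
  | mul_X P i hP =>
    rw [map_mul]
    have h1 : Ideal.Quotient.mk I (X i) ∈ WT (Tge r 0) I := by
      have : Ideal.Quotient.mk I (X i) = zc I i +
          ((Module.finrank k (MvPolynomial (Fin r) k ⧸ I) : k)⁻¹ *
          Algebra.trace k (MvPolynomial (Fin r) k ⧸ I) (Ideal.Quotient.mk I (X i))) •
            (1 : MvPolynomial (Fin r) k ⧸ I) := by
        have e := Algebra.algebraMap_eq_smul_one (A := MvPolynomial (Fin r) k ⧸ I)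
          ((Module.finrank k (MvPolynomial (Fin r) k ⧸ I) : k)⁻¹ *
          Algebra.trace k (MvPolynomial (Fin r) k ⧸ I) (Ideal.Quotient.mk I (X i)))
        refine Eq.trans ?_ (congrArg (fun y => zc I i + y) e)
        rw [zc, sub_add_cancel]
      rw [this]
      refine Submodule.add_mem _ ?_ (Submodule.smul_mem _ _ hone)
      rw [← zw_single]
      exact zw_mem I 0 _ (Nat.zero_le _)
    have h2 := Submodule.mul_mem_mul (hP trivial) h1
    rwa [WT_mul] at h2

/-- the centred ideal -/
noncomputable def mI : Ideal (MvPolynomial (Fin r) k ⧸ I) := Ideal.span (Set.range (zc I))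

theorem mI_restrict : (mI I).restrictScalars k = WT (Tge r 1) I := by
  apply le_antisymm
  · intro a ha
    have ha' : a ∈ Ideal.span (Set.range (zc I)) := ha
    induction ha' using Submodule.span_induction with
    | mem x h =>
      obtain ⟨i, rfl⟩ := h
      rw [← zw_single]
      exact zw_mem I 1 _ (by simp)
    | zero => exact Submodule.zero_mem _
    | add x y hx hy h1 h2 => exact Submodule.add_mem _ (h1 hx) (h2 hy)
    | smul a x hx h1 =>
      rw [smul_eq_mul]
      have h2 : a ∈ WT (Tge r 0) I := by rw [WT_zero]; trivial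
      have h3 := Submodule.mul_mem_mul h2 (h1 hx)
      rwa [WT_mul, zero_add] at h3
  · rw [WT, Submodule.span_le]
    rintro _ ⟨L, hL, rfl⟩
    have hL' : 1 ≤ L.length := hL
    cases L with
    | nil => simp at hL'
    | cons i L =>
      have : zw I (i :: L) = zc I i * zw I L := by simp [zw]
      rw [this]
      exact Ideal.mul_mem_right _ (mI I) (Submodule.subset_span ⟨i, rfl⟩)

theorem mI_pow_restrict (j : ℕ) : (mI I ^ j).restrictScalars k = WT (Tge r j) I := by
  induction j with
  | zero =>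
    rw [WT_zero, Submodule.pow_zero, Submodule.one_eq_range]
    ext a
    simp
  | succ j ih =>
    rw [Submodule.pow_succ, ← WT_mul, ← ih, ← mI_restrict]
    rfl

theorem exists_scalar (a : MvPolynomial (Fin r) k ⧸ I) : ∃ c : k, a - algebraMap k _ c ∈ mI I := by
  obtain ⟨P, rfl⟩ := Ideal.Quotient.mk_surjective a
  induction P using MvPolynomial.induction_on with
  | C a => exact ⟨a, by
      have : Ideal.Quotient.mk I (C a) = algebraMap k _ a := rfl
      rw [this, sub_self]; exact Submodule.zero_mem _⟩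
  | add P Q hP hQ =>
    obtain ⟨c, hc⟩ := hP
    obtain ⟨d, hd⟩ := hQ
    refine ⟨c + d, ?_⟩
    rw [map_add, map_add, add_sub_add_comm]
    exact Submodule.add_mem _ hc hd
  | mul_X P i hP =>
    obtain ⟨c, hc⟩ := hP
    let d := ((Module.finrank k (MvPolynomial (Fin r) k ⧸ I) : k)⁻¹ *
          Algebra.trace k (MvPolynomial (Fin r) k ⧸ I) (Ideal.Quotient.mk I (X i)))
    have hd : Ideal.Quotient.mk I (X i) - algebraMap k _ d ∈ mI I :=
      Submodule.subset_span ⟨i, rfl⟩
    refine ⟨c * d, ?_⟩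
    have : Ideal.Quotient.mk I (P * X i) - algebraMap k _ (c * d) =
        Ideal.Quotient.mk I P * (Ideal.Quotient.mk I (X i) - algebraMap k _ d) +
        algebraMap k _ d * (Ideal.Quotient.mk I P - algebraMap k _ c) := by
      rw [map_mul, map_mul]; ring
    rw [this]
    exact Submodule.add_mem _ (Ideal.mul_mem_left _ _ hd) (Ideal.mul_mem_left _ _ hc)

/-- if long words vanish then the centred ideal consists of nilpotents -/
theorem mI_nilpotent {j : ℕ} (h : WT (Tge r j) I = ⊥) (a : MvPolynomial (Fin r) k ⧸ I)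
    (ha : a ∈ mI I) : IsNilpotent a := by
  refine ⟨j, ?_⟩
  have h1 : a ^ j ∈ (mI I ^ j).restrictScalars k := Ideal.pow_mem_pow ha j
  rw [mI_pow_restrict, h] at h1
  exact h1

theorem isLocal_of {j : ℕ} (h : WT (Tge r j) I = ⊥) [Nontrivial (MvPolynomial (Fin r) k ⧸ I)] :
    IsLocalRing (MvPolynomial (Fin r) k ⧸ I) := by
  have hu : ∀ (a : MvPolynomial (Fin r) k ⧸ I) (c : k), a - algebraMap k _ c ∈ mI I → c ≠ 0 →
      IsUnit a := by
    intro a c hc h0
    have h1 := mI_nilpotent I h _ hc
    have h2 : IsUnit (algebraMap k (MvPolynomial (Fin r) k ⧸ I) c) :=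
      (isUnit_iff_ne_zero.mpr h0).map _
    have h3 := h1.isUnit_add_left_of_commute h2 (Commute.all _ _)
    rwa [add_sub_cancel] at h3
  apply IsLocalRing.of_isUnit_or_isUnit_one_sub_self
  intro a
  obtain ⟨c, hc⟩ := exists_scalar I a
  by_cases h0 : c = 0
  · right
    apply hu (1 - a) (1 - c) _ (by rw [h0, sub_zero]; exact one_ne_zero)
    rw [map_sub, map_one]
    have : (1 : MvPolynomial (Fin r) k ⧸ I) - a - (1 - algebraMap k _ c) =
      -(a - algebraMap k _ c) := by ring
    rw [this]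
    exact Submodule.neg_mem _ hc
  · left
    exact hu a c hc h0

theorem maximalIdeal_eq {j : ℕ} (h : WT (Tge r j) I = ⊥)
    [IsLocalRing (MvPolynomial (Fin r) k ⧸ I)] :
    IsLocalRing.maximalIdeal (MvPolynomial (Fin r) k ⧸ I) = mI I := by
  apply le_antisymm
  · intro a ha
    obtain ⟨c, hc⟩ := exists_scalar I a
    have h0 : c = 0 := by
      by_contra h0
      have h1 := mI_nilpotent I h _ hc
      have h2 : IsUnit (algebraMap k (MvPolynomial (Fin r) k ⧸ I) c) :=
        (isUnit_iff_ne_zero.mpr h0).map _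
      have h3 := h1.isUnit_add_left_of_commute h2 (Commute.all _ _)
      rw [add_sub_cancel] at h3
      exact (IsLocalRing.mem_maximalIdeal _).mp ha h3
    rw [h0, map_zero, sub_zero] at hc
    exact hc
  · intro a ha
    rw [IsLocalRing.mem_maximalIdeal]
    exact (mI_nilpotent I h a ha).not_isUnit

theorem finrank_quot {A : Type u} [CommRing A] [Algebra k A] [Module.Finite k A] (J J' : Ideal A)
    (h : J' ≤ J) :
    Module.finrank k (↥J ⧸ Submodule.comap (Submodule.subtype J) J') =
      Module.finrank k (J.restrictScalars k) - Module.finrank k (J'.restrictScalars k) := by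
  let N : Submodule A ↥J := Submodule.comap (Submodule.subtype J) J'
  have : Module.Finite k ↥J := Module.Finite.of_injective
    ((Submodule.subtype J).restrictScalars k) (Submodule.injective_subtype J)
  have e1 : Module.finrank k (↥J ⧸ N) = Module.finrank k (↥J ⧸ N.restrictScalars k) :=
    (LinearEquiv.finrank_eq (Submodule.Quotient.restrictScalarsEquiv k N)).symm
  have e2 := Submodule.finrank_quotient_add_finrank (N.restrictScalars k)
  have e3 : Module.finrank k (N.restrictScalars k) = Module.finrank k (J'.restrictScalars k) :=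
    LinearEquiv.finrank_eq ((Submodule.comapSubtypeEquivOfLe h).restrictScalars k)
  have e4 : Module.finrank k (J.restrictScalars k) = Module.finrank k ↥J := rfl
  show Module.finrank k (↥J ⧸ N) = _
  rw [e1]
  omega

/-- **The Hilbert function from the rank conditions** -/
theorem hilbert_of (hn : Module.finrank k (MvPolynomial (Fin r) k ⧸ I) = 2 * r + 2)
    (h2 : Module.finrank k (WT (Tge r 2) I) ≤ r + 1) (h3 : Module.finrank k (WT (Tge r 3) I) ≤ 1)
    (h4 : Module.finrank k (WT (Tge r 4) I) ≤ 0) (h3' : ¬ Module.finrank k (WT (Tge r 3) I) ≤ 0) :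
    HasHilbertFunction k (MvPolynomial (Fin r) k ⧸ I) (h1rr1 r) := by
  have hfin : Module.Finite k (MvPolynomial (Fin r) k ⧸ I) :=
    Module.finite_of_finrank_pos (by omega)
  have hnt : Nontrivial (MvPolynomial (Fin r) k ⧸ I) :=
    Module.nontrivial_of_finrank_pos (R := k) (by omega)
  have hb4 : WT (Tge r 4) I = ⊥ := Submodule.finrank_eq_zero.mp (by omega)
  have hloc := isLocal_of I hb4
  have hmax := maximalIdeal_eq I hb4
  have hd0 : Module.finrank k (WT (Tge r 0) I) = 2 * r + 2 := by
    rw [WT_zero, finrank_top, hn]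
  have hd1 : Module.finrank k (WT (Tge r 1) I) = 2 * r + 1 := by
    have h1 : (⊤ : Submodule k (MvPolynomial (Fin r) k ⧸ I)) =
        Submodule.span k {1} ⊔ WT (Tge r 1) I := by
      symm
      rw [eq_top_iff]
      intro a _
      obtain ⟨c, hc⟩ := exists_scalar I a
      have hc' : a - algebraMap k _ c ∈ (mI I).restrictScalars k := hc
      rw [mI_restrict] at hc'
      rw [Submodule.mem_sup]
      refine ⟨algebraMap k _ c, ?_, _, hc', by ring⟩
      rw [Submodule.mem_span_singleton]
      exact ⟨c, (Algebra.algebraMap_eq_smul_one (A := MvPolynomial (Fin r) k ⧸ I) c).symm⟩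
    have h2 := Submodule.finrank_add_le_finrank_add_finrank
      (Submodule.span k {(1 : MvPolynomial (Fin r) k ⧸ I)}) (WT (Tge r 1) I)
    rw [← h1, finrank_top, hn] at h2
    have h3 : Module.finrank k (Submodule.span k {(1 : MvPolynomial (Fin r) k ⧸ I)}) ≤ 1 := by
      have := finrank_span_le_card (R := k) ({1} : Set (MvPolynomial (Fin r) k ⧸ I))
      simpa using this
    have h4 : Module.finrank k (WT (Tge r 1) I) <
        Module.finrank k (MvPolynomial (Fin r) k ⧸ I) := by
      apply Submodule.finrank_lt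
      intro htop
      have h5 : (1 : MvPolynomial (Fin r) k ⧸ I) ∈ WT (Tge r 1) I := by rw [htop]; trivial
      rw [← mI_restrict] at h5
      exact (mI_nilpotent I hb4 1 h5).not_isUnit isUnit_one
    omega
  have hd12 : Module.finrank k (WT (Tge r 1) I) ≤ r + Module.finrank k (WT (Tge r 2) I) := by
    have h1 : WT (Tge r 1) I ≤ Submodule.span k (Set.range (zc I)) ⊔ WT (Tge r 2) I := by
      rw [WT, Submodule.span_le]
      rintro _ ⟨L, hL, rfl⟩
      have hL' : 1 ≤ L.length := hL
      rcases L with _ | ⟨i, _ | ⟨i', L⟩⟩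
      · simp at hL'
      · rw [zw_single]
        exact Submodule.mem_sup_left (Submodule.subset_span ⟨i, rfl⟩)
      · exact Submodule.mem_sup_right (zw_mem I 2 _ (by simp))
    have h2 := Submodule.finrank_mono h1
    have h3 := Submodule.finrank_add_le_finrank_add_finrank
      (Submodule.span k (Set.range (zc I))) (WT (Tge r 2) I)
    have h4 : Module.finrank k (Submodule.span k (Set.range (zc I))) ≤ r := by
      have := finrank_range_le_card (R := k) (zc I)
      rw [Fintype.card_fin] at this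
      exact this
    omega
  have hpow : ∀ i, Module.finrank k
      ((IsLocalRing.maximalIdeal (MvPolynomial (Fin r) k ⧸ I) ^ i).restrictScalars k) =
      Module.finrank k (WT (Tge r i) I) := by
    intro i
    rw [hmax, mI_pow_restrict]
  refine ⟨hloc, fun i => ?_⟩
  rw [finrank_quot _ _ (Ideal.pow_le_pow_right (Nat.le_add_right i 1)), hpow, hpow]
  have hge : ∀ j, 4 ≤ j → Module.finrank k (WT (Tge r j) I) = 0 := by
    intro j hj
    have := WT_anti I hj
    rw [hb4, le_bot_iff] at this
    rw [this, finrank_bot]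
  match i with
  | 0 => simp only [h1rr1]; rw [hd0, hd1]; omega
  | 1 => simp only [h1rr1]; rw [show 1 + 1 = 2 from rfl]; omega
  | 2 => simp only [h1rr1]; rw [show 2 + 1 = 3 from rfl]; omega
  | 3 => simp only [h1rr1]; rw [show 3 + 1 = 4 from rfl, hge 4 le_rfl]; omega
  | (i + 4) => simp only [h1rr1]; rw [hge (i + 4) (by omega), hge (i + 4 + 1) (by omega)]

end Words

section Bounds

variable {k : Type u} [Field k] [CharZero k] {r : ℕ} [NeZero r] {c : (Fin r →₀ ℕ) → k}

/-- a product of four elements without constant term vanishes -/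
theorem GAlg.mul4 (a b d e : GAlg c) (ha : a.s = 0) (hb : b.s = 0) (hd : d.s = 0) (he : e.s = 0) :
    a * (b * (d * e)) = 0 := by
  ext
  · simp [ha]
  · simp [ha, hb]
  · simp [ha, hb, hd, he, GAlg.TT_zero_right]
  · simp [ha, hb, hd, he, GAlg.TT_zero_right, GAlg.dot_zero_left, GAlg.dot_zero_right]

theorem GAlg.trace (y : GAlg c) : Algebra.trace k (GAlg c) y = ((2 * r + 2 : ℕ) : k) * y.s := by
  have h1 : y = algebraMap k (GAlg c) y.s + (y - y.s • 1) := by
    rw [Algebra.algebraMap_eq_smul_one]; ring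
  have hs : (y - y.s • (1 : GAlg c)).s = 0 := by simp
  have h2 : IsNilpotent (y - y.s • (1 : GAlg c)) := by
    refine ⟨4, ?_⟩
    have := GAlg.mul4 _ _ _ _ hs hs hs hs
    rw [← this]
    ring
  have := finite_GAlg c
  have h3 : Algebra.trace k (GAlg c) (y - y.s • (1 : GAlg c)) = 0 :=
    (Algebra.isNilpotent_trace_of_isNilpotent h2).eq_zero
  conv_lhs => rw [h1, map_add, h3, add_zero, Algebra.trace_algebraMap, finrank_GAlg]
  rw [nsmul_eq_mul]

theorem eps_zc (I : Ideal (MvPolynomial (Fin r) k))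
    (ε : (MvPolynomial (Fin r) k ⧸ I) ≃ₐ[k] GAlg c) (i : Fin r) :
    ε (zc I i) = ε (Ideal.Quotient.mk I (X i)) - (ε (Ideal.Quotient.mk I (X i))).s • 1 := by
  have hn : Module.finrank k (MvPolynomial (Fin r) k ⧸ I) = 2 * r + 2 := by
    rw [LinearEquiv.finrank_eq ε.toLinearEquiv, finrank_GAlg]
  have hne : ((2 * r + 2 : ℕ) : k) ≠ 0 := by
    rw [Nat.cast_ne_zero]; omega
  rw [zc, map_sub, AlgEquiv.commutes, hn, ← Algebra.trace_eq_of_algEquiv ε, GAlg.trace,
    inv_mul_cancel_left₀ hne, Algebra.algebraMap_eq_smul_one]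

theorem eps_zc_s (I : Ideal (MvPolynomial (Fin r) k))
    (ε : (MvPolynomial (Fin r) k ⧸ I) ≃ₐ[k] GAlg c) (i : Fin r) : (ε (zc I i)).s = 0 := by
  rw [eps_zc]; simp

theorem eps_zw (I : Ideal (MvPolynomial (Fin r) k))
    (ε : (MvPolynomial (Fin r) k ⧸ I) ≃ₐ[k] GAlg c) :
    ∀ L : List (Fin r), (1 ≤ L.length → (ε (zw I L)).s = 0) ∧
      (2 ≤ L.length → (ε (zw I L)).w = 0) ∧ (3 ≤ L.length → (ε (zw I L)).v = 0) ∧
      (4 ≤ L.length → ε (zw I L) = 0) := by
  intro L
  induction L with
  | nil => simp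
  | cons i L ih =>
    obtain ⟨h1, h2, h3, h4⟩ := ih
    have e1 : zw I (i :: L) = zc I i * zw I L := by simp [zw]
    have hs := eps_zc_s I ε i
    rw [e1, map_mul]
    refine ⟨fun _ => ?_, fun h => ?_, fun h => ?_, fun h => ?_⟩
    · rw [GAlg.mul_s, hs, zero_mul]
    · rw [List.length_cons] at h
      rw [GAlg.mul_w, hs, h1 (by omega)]; simp
    · rw [List.length_cons] at h
      rw [GAlg.mul_v, hs, h1 (by omega), h2 (by omega), GAlg.TT_zero_right]; simp
    · rw [List.length_cons] at h
      ext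
      · rw [GAlg.mul_s, hs, zero_mul]; rfl
      · rw [GAlg.mul_w, hs, h1 (by omega)]; simp
      · rw [GAlg.mul_v, hs, h1 (by omega), h2 (by omega), GAlg.TT_zero_right]; simp
      · rw [GAlg.mul_z, hs, h1 (by omega), h2 (by omega), h3 (by omega), GAlg.dot_zero_left,
          GAlg.dot_zero_right]; simp

/-- the degree two and three coordinates -/
def vzL (c : (Fin r →₀ ℕ) → k) : GAlg c →ₗ[k] (Fin r → k) × k where
  toFun a := (a.v, a.z)
  map_add' _ _ := rfl
  map_smul' _ _ := rfl

theorem bound2 (I : Ideal (MvPolynomial (Fin r) k))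
    (ε : (MvPolynomial (Fin r) k ⧸ I) ≃ₐ[k] GAlg c) :
    Module.finrank k (WT (Tge r 2) I) ≤ r + 1 := by
  have hsw : ∀ x ∈ WT (Tge r 2) I, (ε x).s = 0 ∧ (ε x).w = 0 := by
    intro x hx
    rw [WT] at hx
    induction hx using Submodule.span_induction with
    | mem x h =>
      obtain ⟨L, hL, rfl⟩ := h
      have hL' : 2 ≤ L.length := hL
      exact ⟨(eps_zw I ε L).1 (by omega), (eps_zw I ε L).2.1 hL'⟩
    | zero => simp
    | add x y hx hy h1 h2 => rw [map_add]; simp [h1, h2]
    | smul a x hx h1 => rw [map_smul]; simp [h1]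
  let f : WT (Tge r 2) I →ₗ[k] (Fin r → k) × k :=
    (vzL c).comp (ε.toLinearMap.comp (WT (Tge r 2) I).subtype)
  have hf : Function.Injective f := by
    rw [injective_iff_map_eq_zero]
    intro x hx
    have h1 := hsw x.1 x.2
    have h2 : ((ε x.1).v, (ε x.1).z) = (0 : (Fin r → k) × k) := hx
    have h3 : (ε x.1).v = 0 := congrArg Prod.fst h2
    have h4 : (ε x.1).z = 0 := congrArg Prod.snd h2
    have h5 : ε x.1 = 0 := GAlg.ext h1.1 h1.2 h3 h4
    apply Subtype.ext
    exact (map_eq_zero_iff ε ε.injective).mp h5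
  have := LinearMap.finrank_le_finrank_of_injective hf
  rw [Module.finrank_prod, Module.finrank_fin_fun, Module.finrank_self] at this
  exact this

theorem bound3 (I : Ideal (MvPolynomial (Fin r) k))
    (ε : (MvPolynomial (Fin r) k ⧸ I) ≃ₐ[k] GAlg c) :
    Module.finrank k (WT (Tge r 3) I) ≤ 1 := by
  have hsw : ∀ x ∈ WT (Tge r 3) I, (ε x).s = 0 ∧ (ε x).w = 0 ∧ (ε x).v = 0 := by
    intro x hx
    rw [WT] at hx
    induction hx using Submodule.span_induction with
    | mem x h =>
      obtain ⟨L, hL, rfl⟩ := h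
      have hL' : 3 ≤ L.length := hL
      exact ⟨(eps_zw I ε L).1 (by omega), (eps_zw I ε L).2.1 (by omega),
        (eps_zw I ε L).2.2.1 hL'⟩
    | zero => simp
    | add x y hx hy h1 h2 => rw [map_add]; simp [h1, h2]
    | smul a x hx h1 => rw [map_smul]; simp [h1]
  let f : WT (Tge r 3) I →ₗ[k] k :=
    (GAlg.zL c).comp (ε.toLinearMap.comp (WT (Tge r 3) I).subtype)
  have hf : Function.Injective f := by
    rw [injective_iff_map_eq_zero]
    intro x hx
    have h1 := hsw x.1 x.2
    have h4 : (ε x.1).z = 0 := hx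
    have h5 : ε x.1 = 0 := GAlg.ext h1.1 h1.2.1 h1.2.2 h4
    apply Subtype.ext
    exact (map_eq_zero_iff ε ε.injective).mp h5
  have := LinearMap.finrank_le_finrank_of_injective hf
  rw [Module.finrank_self] at this
  exact this

theorem bound4 (I : Ideal (MvPolynomial (Fin r) k))
    (ε : (MvPolynomial (Fin r) k ⧸ I) ≃ₐ[k] GAlg c) :
    Module.finrank k (WT (Tge r 4) I) ≤ 0 := by
  have : WT (Tge r 4) I = ⊥ := by
    rw [WT, Submodule.span_eq_bot]
    rintro _ ⟨L, hL, rfl⟩
    exact (map_eq_zero_iff ε ε.injective).mp ((eps_zw I ε L).2.2.2 hL)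
  rw [this, finrank_bot]

/-- the closed conditions hold on the closure of the locus -/
theorem closure_bounds (I : Hilb k r (2 * r + 2)) (hI : I ∈ closure (locus (U1 k r))) :
    Module.finrank k (WT (Tge r 2) I.1) ≤ r + 1 ∧ Module.finrank k (WT (Tge r 3) I.1) ≤ 1 ∧
      Module.finrank k (WT (Tge r 4) I.1) ≤ 0 := by
  have key : ∀ (j q : ℕ), (∀ (c : (Fin r →₀ ℕ) → k) (J : Ideal (MvPolynomial (Fin r) k)),
      ((MvPolynomial (Fin r) k ⧸ J) ≃ₐ[k] GAlg c) → Module.finrank k (WT (Tge r j) J) ≤ q) →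
      Module.finrank k (WT (Tge r j) I.1) ≤ q := by
    intro j q h
    have h1 : closure (locus (U1 k r)) ⊆
        {I : Hilb k r (2 * r + 2) | Module.finrank k (WT (Tge r j) I.1) ≤ q} := by
      apply closure_minimal _ (isClosed_WT (Tge r j) q)
      rintro J ⟨F, hF, ⟨ε⟩⟩
      exact h (cf F.1) J.1 (ε.trans (annEquiv F (U1_surj F hF)))
    exact h1 hI
  exact ⟨key 2 (r + 1) fun c J ε => bound2 J ε, key 3 1 fun c J ε => bound3 J ε,
    key 4 0 fun c J ε => bound4 J ε⟩

/-- **all points of the component are local** -/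
theorem isLocal_of_closure (I : Hilb k r (2 * r + 2)) (hI : I ∈ closure (locus (U1 k r))) :
    IsLocalRing (MvPolynomial (Fin r) k ⧸ I.1) := by
  have h := (closure_bounds I hI).2.2
  have := I.2.1
  have hn := I.2.2
  have hnt : Nontrivial (MvPolynomial (Fin r) k ⧸ I.1) :=
    Module.nontrivial_of_finrank_pos (R := k) (by omega)
  exact isLocal_of I.1 (Submodule.finrank_eq_zero.mp (Nat.le_zero.mp h))

theorem isElementary (h8 : 8 ≤ r) : IsElementaryComponent (closure (locus (U1 k r))) :=
  ⟨mem_irreducibleComponents h8, isLocal_of_closure⟩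

/-- the open condition -/
def NZ3 (k : Type u) [Field k] (r : ℕ) : Set (Hilb k r (2 * r + 2)) :=
  {I | ¬ Module.finrank k (WT (Tge r 3) I.1) ≤ 0}

theorem isOpen_NZ3 : IsOpen (NZ3 k r) := by
  rw [← isClosed_compl_iff]
  convert isClosed_WT (k := k) (r := r) (n := 2 * r + 2) (Tge r 3) 0 using 1
  ext I
  simp [NZ3]

theorem hilbert_of_closure (I : Hilb k r (2 * r + 2)) (hI : I ∈ closure (locus (U1 k r)))
    (h3 : I ∈ NZ3 k r) : HasHilbertFunction k (MvPolynomial (Fin r) k ⧸ I.1) (h1rr1 r) := by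
  obtain ⟨h2, h3', h4⟩ := closure_bounds I hI
  exact hilbert_of I.1 I.2.2 h2 h3' h4 h3

/-- the point of a form in `U1` -/
noncomputable def ptF (F : CubicForm k r) (hF : F ∈ U1 k r) : Hilb k r (2 * r + 2) :=
  hilbOf (Ann F.1) (annEquiv F (U1_surj F hF))

theorem ptF_mem (F : CubicForm k r) (hF : F ∈ U1 k r) : ptF F hF ∈ locus (U1 k r) :=
  ⟨F, hF, ⟨AlgEquiv.refl⟩⟩

theorem ptF_NZ3 (F : CubicForm k r) (hF : F ∈ U1 k r) : ptF F hF ∈ NZ3 k r := by
  show ¬ Module.finrank k (WT (Tge r 3) (Ann F.1)) ≤ 0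
  intro hle
  have hfin := (ptF F hF).2.1
  have hfin' : Module.Finite k (MvPolynomial (Fin r) k ⧸ Ann F.1) := hfin
  have hb : WT (Tge r 3) (Ann F.1) = ⊥ := Submodule.finrank_eq_zero.mp (Nat.le_zero.mp hle)
  let ε := annEquiv F (U1_surj F hF)
  have hε : ∀ i, ε (zc (Ann F.1) i) = GAlg.xg (cf F.1) i := by
    intro i
    rw [eps_zc]
    have : ε (Ideal.Quotient.mk (Ann F.1) (X i)) = GAlg.xg (cf F.1) i := by
      show GAlg.ev _ (X i) = _
      rw [GAlg.ev_X]
    rw [this]
    show _ - (0 : k) • _ = _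
    rw [zero_smul, sub_zero]
  have htt : ∀ i j l, tt (cf F.1) j l i = 0 := by
    intro i j l
    have h1 : zw (Ann F.1) [i, j, l] ∈ WT (Tge r 3) (Ann F.1) := zw_mem _ 3 _ (by simp)
    rw [hb, Submodule.mem_bot] at h1
    have h2 : ε (zw (Ann F.1) [i, j, l]) = ⟨0, 0, 0, tt (cf F.1) j l i⟩ := by
      have : zw (Ann F.1) [i, j, l] = zc _ i * (zc _ j * zc _ l) := by simp [zw]
      rw [this, map_mul, map_mul, hε, hε, hε, GAlg.xg_mul_xg, GAlg.xg_mul_v]
    rw [h1, map_zero] at h2
    exact (congrArg GAlg.z h2).symm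
  have hdet : (goodMat (pm r) (pp r) (cf F.1)).det ≠ 0 := hF
  apply hdet
  have : goodMat (pm r) (pp r) (cf F.1) = 0 := by
    ext a b
    exact htt _ _ _
  have hne : Nonempty (Fin r) := ⟨0⟩
  rw [this]
  exact Matrix.det_zero

theorem hilbert_AF (F : CubicForm k r) (hF : F ∈ U1 k r) :
    HasHilbertFunction k (AF F) (h1rr1 r) :=
  hilbert_of_closure (ptF F hF) (subset_closure (ptF_mem F hF)) (ptF_NZ3 F hF)

end Bounds

end Pool.Agent.J6H80.Cubic
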