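import Mathlib
import Pool.Agent.J6H80.Cubic.Elementary

/-!
Deformations of a finite algebra and the Hilbert scheme: every deformation of a point of an open
set stays in the open set near the special fibre.
-/

set_option linter.unusedSectionVars false

open MvPolynomial

namespace Pool.Agent.J6H80.Cubic

universe u

section FibreRank

variable {k : Type u} [Field k] {S : Type u} [CommRing S] [Algebra k S]
  (B : Type u) [CommRing B] [Algebra k B] [Algebra S B] [IsScalarTower k S B]

theorem ahom_surj (s : S →ₐ[k] k) : Function.Surjective s := fun a => ⟨algebraMap k S a, by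
  rw [AlgHom.commutes]; rfl⟩

/-- the dimension of the fibre is the rank at the stalk -/
theorem finrank_fibre [Module.Finite S B] [Module.Flat S B] (s : S →ₐ[k] k) :
    Module.finrank k (Fibre B s) =
      Module.rankAtStalk (R := S) B ⟨RingHom.ker s, RingHom.ker_isPrime s⟩ := by
  have hmax : (RingHom.ker s).IsMaximal := RingHom.ker_isMaximal_of_surjective s (ahom_surj s)
  letI := Ideal.Quotient.field (RingHom.ker s)
  let K := S ⧸ RingHom.ker s
  have hq : Module.finrank k K = 1 := by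
    rw [← Module.finrank_self k]
    exact LinearEquiv.finrank_eq (Ideal.quotientKerAlgEquivOfSurjective (ahom_surj s)).toLinearEquiv
  have htow : IsScalarTower k K (Fibre B s) := by
    refine ⟨fun a x y => ?_⟩
    obtain ⟨x, rfl⟩ := Ideal.Quotient.mk_surjective x
    obtain ⟨y, rfl⟩ := Ideal.Quotient.mk_surjective y
    have e1 : a • (Ideal.Quotient.mk (RingHom.ker s) x : K) =
      Ideal.Quotient.mk (RingHom.ker s) (a • x) := rfl
    have e2 : ∀ x : S, ∀ y : Fibre B s, (Ideal.Quotient.mk (RingHom.ker s) x : K) • y =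
        Ideal.Quotient.mk (Ideal.map (algebraMap S B) (RingHom.ker s)) (algebraMap S B x) * y := by
      intro x y
      rw [Algebra.smul_def]
      rfl
    rw [e1, e2, e2, Algebra.smul_def a, map_mul, ← IsScalarTower.algebraMap_apply, map_mul,
      Algebra.smul_def a, mul_assoc]
    rfl
  have h1 := Module.finrank_mul_finrank k K (Fibre B s)
  rw [hq, one_mul] at h1
  rw [← h1]
  have h2 : Module.finrank K (Fibre B s) = Module.finrank K (TensorProduct S K B) :=
    LinearEquiv.finrank_eq (Algebra.TensorProduct.quotIdealMapEquivQuotTensor B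
      (RingHom.ker s)).toLinearEquiv
  rw [h2]
  have h3 := Module.rankAtStalk_baseChange (R := S) (M := B) (S := K) ⊥
  rw [Module.rankAtStalk_eq_finrank_of_free] at h3
  have h4 : (PrimeSpectrum.comap (algebraMap S K) ⊥) =
      ⟨RingHom.ker s, RingHom.ker_isPrime s⟩ := by
    apply PrimeSpectrum.ext
    show Ideal.comap (algebraMap S K) ⊥ = _
    rw [← RingHom.ker_eq_comap_bot]
    exact Ideal.mk_ker
  rw [h4] at h3
  exact h3

/-- the dimension of the fibres is locally constant -/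
theorem exists_rank_const [Algebra.FiniteType k S] [Module.Finite S B] [Module.Flat S B]
    (s₀ : S →ₐ[k] k) : ∃ g : S, s₀ g ≠ 0 ∧ ∀ s : S →ₐ[k] k, s g ≠ 0 →
      Module.finrank k (Fibre B s) = Module.finrank k (Fibre B s₀) := by
  have hN : IsNoetherianRing S := Algebra.FiniteType.isNoetherianRing k S
  have hfp : Module.FinitePresentation S B := Module.finitePresentation_of_finite S B
  have hlc := Module.isLocallyConstant_rankAtStalk (R := S) (M := B)
  obtain ⟨V, hV, hx, hc⟩ := (IsLocallyConstant.iff_exists_open _).mp hlc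
    ⟨RingHom.ker s₀, RingHom.ker_isPrime s₀⟩
  obtain ⟨_, ⟨g, rfl⟩, hg, hgV⟩ :=
    PrimeSpectrum.isTopologicalBasis_basic_opens.exists_subset_of_mem_open hx hV
  refine ⟨g, ?_, fun s hs => ?_⟩
  · intro h0
    exact hg ((RingHom.mem_ker).mpr h0)
  · rw [finrank_fibre, finrank_fibre]
    apply hc
    apply hgV
    intro h0
    exact hs ((RingHom.mem_ker).mp h0)

end FibreRank

section Homog

variable {k : Type u} [Field k] {S : Type u} [CommRing S] [Algebra k S]

/-- homogenisation -/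
theorem exists_homog {σ : Type*} (m : σ → S) (g : S) (h : MvPolynomial σ k) :
    ∃ (N : ℕ) (G : S), ∀ s : S →ₐ[k] k, s g ≠ 0 →
      s G = (s g) ^ N * eval (fun x => s (m x) / s g) h := by
  induction h using MvPolynomial.induction_on with
  | C a => exact ⟨0, algebraMap k S a, fun s _ => by simp⟩
  | add P Q hP hQ =>
    obtain ⟨N, G, h1⟩ := hP
    obtain ⟨N', G', h2⟩ := hQ
    refine ⟨N + N', g ^ N' * G + g ^ N * G', fun s hs => ?_⟩
    rw [map_add, map_mul, map_mul, map_pow, map_pow, h1 s hs, h2 s hs, map_add]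
    ring
  | mul_X P i hP =>
    obtain ⟨N, G, h1⟩ := hP
    refine ⟨N + 1, G * m i, fun s hs => ?_⟩
    rw [map_mul, h1 s hs, map_mul, eval_X, pow_succ]
    field_simp

end Homog

section Deform

variable {k : Type u} [Field k] {S : Type u} [CommRing S] [Algebra k S]
  {B : Type u} [CommRing B] [Algebra k B] [Algebra S B] [IsScalarTower k S B]

/-- the projection to the fibre -/
noncomputable def prF (B : Type u) [CommRing B] [Algebra k B] [Algebra S B] [IsScalarTower k S B]
    (s : S →ₐ[k] k) : B →ₐ[k] Fibre B s := Ideal.Quotient.mkₐ k _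

theorem prF_surj (s : S →ₐ[k] k) : Function.Surjective (prF B s) := Ideal.Quotient.mkₐ_surjective _ _

theorem prF_eq_zero (s : S →ₐ[k] k) (b : B) :
    prF B s b = 0 ↔ b ∈ Ideal.map (algebraMap S B) (RingHom.ker s) := Ideal.Quotient.eq_zero_iff_mem

theorem prF_algebraMap (s : S →ₐ[k] k) (a : S) :
    prF B s (algebraMap S B a) = algebraMap k _ (s a) := by
  rw [← sub_eq_zero, ← AlgHom.commutes (prF B s) (s a), ← map_sub, prF_eq_zero,
    IsScalarTower.algebraMap_apply k S B, ← map_sub]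
  apply Ideal.mem_map_of_mem
  rw [RingHom.mem_ker, map_sub, AlgHom.commutes]
  exact sub_self _

theorem prF_smul (s : S →ₐ[k] k) (a : S) (b : B) : prF B s (a • b) = s a • prF B s b := by
  rw [Algebra.smul_def, map_mul, prF_algebraMap, ← Algebra.smul_def]

variable {r n : ℕ}

theorem fibre_point (Y : Fin r → B) (P : Fin n → MvPolynomial (Fin r) k) (g : S)
    (M : FrameIdx r n → S)
    (h1 : ∀ y : B, ∃ m : Fin n → S, g • y = ∑ a, m a • aeval Y (P a))
    (hM1 : ∀ i b, g • (Y i * aeval Y (P b)) = ∑ a, M (Sum.inl (i, a, b)) • aeval Y (P a))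
    (hM2 : g • (1 : B) = ∑ a, M (Sum.inr a) • aeval Y (P a))
    (s : S →ₐ[k] k) (hs : s g ≠ 0) (hn : Module.finrank k (Fibre B s) = n) :
    ∃ I : Hilb k r n, I.1 = RingHom.ker ((prF B s).comp (aeval Y)) ∧
      Nonempty (Fibre B s ≃ₐ[k] (MvPolynomial (Fin r) k ⧸ I.1)) ∧
      Represents (fun x => s (M x) / s g) I.1 := by
  have hdiv : ∀ (y : B) (m : Fin n → S), g • y = ∑ a, m a • aeval Y (P a) →
      prF B s y = ∑ a, (s (m a) / s g) • prF B s (aeval Y (P a)) := by
    intro y m h
    have h2 := congrArg (prF B s) h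
    rw [prF_smul, map_sum] at h2
    simp only [prF_smul] at h2
    have h3 : prF B s y = (s g)⁻¹ • (s g • prF B s y) := by
      rw [smul_smul, inv_mul_cancel₀ hs, one_smul]
    rw [h3, h2, Finset.smul_sum]
    refine Finset.sum_congr rfl fun a _ => ?_
    rw [smul_smul]
    congr 1
    ring
  have hspan : ⊤ ≤ Submodule.span k (Set.range fun a => prF B s (aeval Y (P a))) := by
    intro y _
    obtain ⟨y, rfl⟩ := prF_surj s y
    obtain ⟨m, hm⟩ := h1 y
    rw [hdiv y m hm]
    exact Submodule.sum_mem _ fun a _ => Submodule.smul_mem _ _ (Submodule.subset_span ⟨a, rfl⟩)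
  let β : Module.Basis (Fin n) k (Fibre B s) :=
    basisOfTopLeSpanOfCardEqFinrank _ hspan (by rw [Fintype.card_fin, hn])
  have hβ : ∀ a, β a = prF B s (aeval Y (P a)) := fun a => by
    simp [β]
  have hsurj : Function.Surjective ((prF B s).comp (aeval Y)) := by
    intro y
    have hy : y ∈ Submodule.span k (Set.range fun a => prF B s (aeval Y (P a))) := hspan trivial
    have hle : Submodule.span k (Set.range fun a => prF B s (aeval Y (P a))) ≤
        LinearMap.range ((prF B s).comp (aeval Y : MvPolynomial (Fin r) k →ₐ[k] B)).toLinearMap := by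
      rw [Submodule.span_le]
      rintro _ ⟨a, rfl⟩
      exact ⟨P a, rfl⟩
    obtain ⟨Q, hQ⟩ := hle hy
    exact ⟨Q, hQ⟩
  let ε := Ideal.quotientKerAlgEquivOfSurjective hsurj
  have hfin : Module.Finite k (Fibre B s) := Module.Finite.of_basis β
  refine ⟨⟨RingHom.ker ((prF B s).comp (aeval Y)),
    Module.Finite.equiv ε.toLinearEquiv.symm,
    by rw [LinearEquiv.finrank_eq ε.toLinearEquiv, hn]⟩, rfl, ⟨ε.symm⟩, ?_⟩
  refine ⟨ε.toLinearEquiv.trans β.equivFun, fun i w a => ?_, fun a => ?_⟩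
  · have e1 : ε (Ideal.Quotient.mk _ (X i)) = prF B s (Y i) := by
      show prF B s (aeval Y (X i)) = _
      rw [aeval_X]
    show β.repr (ε (Ideal.Quotient.mk _ (X i) * w)) a = ∑ b, _ * β.repr (ε w) b
    rw [map_mul, e1]
    obtain ⟨w', hw'⟩ : ∃ w', w' = ε w := ⟨_, rfl⟩
    rw [← hw']
    conv_lhs => rw [← β.sum_repr w', Finset.mul_sum, map_sum, Finsupp.finset_sum_apply]
    refine Finset.sum_congr rfl fun b _ => ?_
    rw [mul_smul_comm, map_smul, Finsupp.smul_apply, smul_eq_mul, mul_comm]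
    congr 1
    rw [hβ, ← map_mul, hdiv _ _ (hM1 i b)]
    simp only [← hβ]
    rw [map_sum, Finsupp.finset_sum_apply, Finset.sum_eq_single a]
    · rw [map_smul, Finsupp.smul_apply, β.repr_self, Finsupp.single_eq_same, smul_eq_mul, mul_one]
    · intro c _ hc
      rw [map_smul, Finsupp.smul_apply, β.repr_self, Finsupp.single_eq_of_ne hc.symm, smul_zero]
    · intro h; exact absurd (Finset.mem_univ _) h
  · show β.repr (ε 1) a = _
    have e1 : ε 1 = prF B s 1 := by rw [map_one, map_one]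
    rw [e1, hdiv _ _ hM2]
    simp only [← hβ]
    rw [map_sum, Finsupp.finset_sum_apply, Finset.sum_eq_single a]
    · rw [map_smul, Finsupp.smul_apply, β.repr_self, Finsupp.single_eq_same, smul_eq_mul, mul_one]
    · intro c _ hc
      rw [map_smul, Finsupp.smul_apply, β.repr_self, Finsupp.single_eq_of_ne hc.symm, smul_zero]
    · intro h; exact absurd (Finset.mem_univ _) h

/-- **Deformations stay in open sets.** -/
theorem deform [Algebra.FiniteType k S] [Module.Finite S B] [Module.Flat S B]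
    (O : Set (Hilb k r n)) (hO : IsOpen O) (I₀ : Hilb k r n) (hI₀ : I₀ ∈ O) (s₀ : S →ₐ[k] k)
    (ε₀ : Fibre B s₀ ≃ₐ[k] (MvPolynomial (Fin r) k ⧸ I₀.1)) :
    ∃ g : S, s₀ g ≠ 0 ∧ ∀ s : S →ₐ[k] k, s g ≠ 0 →
      ∃ I ∈ O, Nonempty (Fibre B s ≃ₐ[k] (MvPolynomial (Fin r) k ⧸ I.1)) := by
  -- lifts of the generators
  have hY : ∀ i : Fin r, ∃ y : B, ε₀ (prF B s₀ y) = Ideal.Quotient.mk I₀.1 (X i) := by
    intro i
    obtain ⟨y, hy⟩ := prF_surj s₀ (ε₀.symm (Ideal.Quotient.mk I₀.1 (X i)))
    exact ⟨y, by rw [hy, AlgEquiv.apply_symm_apply]⟩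
  choose Y hY using hY
  have hev : ∀ Q : MvPolynomial (Fin r) k, ε₀ (prF B s₀ (aeval Y Q)) = Ideal.Quotient.mk I₀.1 Q := by
    intro Q
    have : (ε₀.toAlgHom.comp ((prF B s₀).comp (aeval Y))) = Ideal.Quotient.mkₐ k I₀.1 := by
      apply MvPolynomial.algHom_ext
      intro i
      show ε₀ (prF B s₀ (aeval Y (X i))) = Ideal.Quotient.mk I₀.1 (X i)
      rw [aeval_X, hY]
    exact DFunLike.congr_fun this Q
  have hfin₀ := I₀.2.1
  let β₀ := Module.finBasisOfFinrankEq k (MvPolynomial (Fin r) k ⧸ I₀.1) I₀.2.2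
  choose P hP using fun a => Ideal.Quotient.mk_surjective (β₀ a)
  -- Nakayama
  let N : Submodule S B := Submodule.span S (Set.range fun a => aeval Y (P a))
  have hsup : (⊤ : Submodule S B) ≤ N ⊔ RingHom.ker s₀ • (⊤ : Submodule S B) := by
    intro y _
    rw [Submodule.mem_sup]
    let c : Fin n → k := fun a => β₀.repr (ε₀ (prF B s₀ y)) a
    refine ⟨∑ a, (algebraMap k S (c a)) • aeval Y (P a), ?_,
      y - ∑ a, (algebraMap k S (c a)) • aeval Y (P a), ?_, by ring⟩
    · exact Submodule.sum_mem _ fun a _ => Submodule.smul_mem _ _ (Submodule.subset_span ⟨a, rfl⟩)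
    · rw [Ideal.smul_top_eq_map]
      show _ ∈ Ideal.map (algebraMap S B) (RingHom.ker s₀)
      rw [← prF_eq_zero, map_sub, map_sum, sub_eq_zero]
      apply ε₀.injective
      rw [map_sum]
      conv_lhs => rw [← β₀.sum_repr (ε₀ (prF B s₀ y))]
      refine Finset.sum_congr rfl fun a _ => ?_
      rw [prF_smul, map_smul, hev, hP, AlgHom.commutes]
      rfl
  obtain ⟨g₁, hg₁, hgN⟩ := Submodule.exists_sub_one_mem_and_smul_le_of_fg_of_le_sup
    (Module.Finite.fg_top (R := S) (M := B)) le_rfl hsup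
  have hg₁' : s₀ g₁ = 1 := by
    have := (RingHom.mem_ker).mp hg₁
    rw [map_sub, map_one] at this
    exact sub_eq_zero.mp this
  have h1 : ∀ y : B, ∃ m : Fin n → S, g₁ • y = ∑ a, m a • aeval Y (P a) := by
    intro y
    have hy : g₁ • y ∈ N := hgN (Submodule.smul_mem_pointwise_smul y g₁ ⊤ trivial)
    obtain ⟨m, hm⟩ := (Submodule.mem_span_range_iff_exists_fun S).mp hy
    exact ⟨m, hm.symm⟩
  choose m hm using h1
  let M : FrameIdx r n → S := Sum.elim (fun x => m (Y x.1 * aeval Y (P x.2.2)) x.2.1) (m 1)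
  have hM1 : ∀ i b, g₁ • (Y i * aeval Y (P b)) = ∑ a, M (Sum.inl (i, a, b)) • aeval Y (P a) :=
    fun i b => hm _
  have hM2 : g₁ • (1 : B) = ∑ a, M (Sum.inr a) • aeval Y (P a) := hm 1
  obtain ⟨g₂, hg₂, hrk⟩ := exists_rank_const B s₀
  have hn₀ : Module.finrank k (Fibre B s₀) = n := by
    rw [LinearEquiv.finrank_eq ε₀.toLinearEquiv]; exact I₀.2.2
  obtain ⟨I₁, hI₁, -, hrep⟩ := fibre_point Y P g₁ M (fun y => ⟨m y, hm y⟩) hM1 hM2 s₀
    (by rw [hg₁']; exact one_ne_zero) hn₀
  have hI₁' : I₁ = I₀ := by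
    apply Subtype.ext
    rw [hI₁]
    ext Q
    rw [RingHom.mem_ker, ← Ideal.Quotient.eq_zero_iff_mem, ← hev]
    exact (map_eq_zero_iff ε₀ ε₀.injective).symm
  rw [hI₁'] at hrep
  have hcl : IsClosed Oᶜ := hO.isClosed_compl
  rw [isClosed_iff_isZariskiClosed] at hcl
  obtain ⟨T, hT⟩ := hcl
  have hnot : ¬ ∀ h ∈ T, eval (fun x => s₀ (M x) / s₀ g₁) h = 0 := by
    intro hall
    exact (hT I₀ _ hrep).mpr hall hI₀
  push Not at hnot
  obtain ⟨h, hhT, hhne⟩ := hnot
  obtain ⟨K, G, hG⟩ := exists_homog M g₁ h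
  refine ⟨g₁ * g₂ * G, ?_, fun s hs => ?_⟩
  · rw [map_mul, map_mul, hG s₀ (by rw [hg₁']; exact one_ne_zero)]
    refine mul_ne_zero (mul_ne_zero (by rw [hg₁']; exact one_ne_zero) hg₂) (mul_ne_zero ?_ hhne)
    rw [hg₁', one_pow]
    exact one_ne_zero
  · rw [map_mul, map_mul] at hs
    have hs1 : s g₁ ≠ 0 := fun h0 => hs (by rw [h0]; ring)
    have hs2 : s g₂ ≠ 0 := fun h0 => hs (by rw [h0]; ring)
    have hs3 : s G ≠ 0 := fun h0 => hs (by rw [h0]; ring)
    obtain ⟨I, hI, hiso, hrep'⟩ := fibre_point Y P g₁ M (fun y => ⟨m y, hm y⟩) hM1 hM2 s hs1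
      (by rw [hrk s hs2, hn₀])
    refine ⟨I, ?_, hiso⟩
    by_contra hIO
    have h2 := (hT I _ hrep').mp hIO h hhT
    apply hs3
    rw [hG s hs1, h2, mul_zero]

end Deform

end Pool.Agent.J6H80.Cubic
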