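import Mathlib
import Pool.Agent.J6H80.Cubic.Deform

/-!
Genericity of the general cubic Gorenstein algebra, and the main theorem.
-/

set_option linter.unusedSectionVars false

open MvPolynomial

namespace Pool.Agent.J6H80.Cubic

universe u

section Transport

variable {k : Type u} [Field k]

theorem HasHilbertFunction.congr {A A' : Type u} [CommRing A] [Algebra k A] [CommRing A']
    [Algebra k A'] [Module.Finite k A] (ε : A ≃ₐ[k] A') (h : ℕ → ℕ)
    (hA : HasHilbertFunction k A h) : HasHilbertFunction k A' h := by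
  obtain ⟨hloc, hh⟩ := hA
  have hloc' : IsLocalRing A' := RingEquiv.isLocalRing ε.toRingEquiv
  have hfin' : Module.Finite k A' := Module.Finite.equiv ε.toLinearEquiv
  have hmap : Ideal.map ε.toRingEquiv.toRingHom (IsLocalRing.maximalIdeal A) =
      IsLocalRing.maximalIdeal A' := by
    have h1 : IsLocalRing.maximalIdeal A =
        Ideal.comap ε.toRingEquiv.toRingHom (IsLocalRing.maximalIdeal A') := by
      ext x
      rw [Ideal.mem_comap, IsLocalRing.mem_maximalIdeal, IsLocalRing.mem_maximalIdeal,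
        mem_nonunits_iff, mem_nonunits_iff, not_iff_not]
      exact (MulEquiv.isUnit_map ε.toRingEquiv).symm
    rw [h1]
    exact Ideal.map_comap_of_surjective _ ε.surjective _
  have hpow : ∀ i, Module.finrank k ((IsLocalRing.maximalIdeal A ^ i).restrictScalars k) =
      Module.finrank k ((IsLocalRing.maximalIdeal A' ^ i).restrictScalars k) := by
    intro i
    have h1 : ((IsLocalRing.maximalIdeal A ^ i).restrictScalars k).map
        ε.toLinearEquiv.toLinearMap = (IsLocalRing.maximalIdeal A' ^ i).restrictScalars k := by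
      have h2 : Ideal.map ε.toRingEquiv.toRingHom (IsLocalRing.maximalIdeal A ^ i) =
          IsLocalRing.maximalIdeal A' ^ i := by
        rw [Ideal.map_pow, hmap]
      ext y
      rw [Submodule.mem_map]
      show _ ↔ y ∈ IsLocalRing.maximalIdeal A' ^ i
      rw [← h2, Ideal.mem_map_iff_of_surjective ε.toRingEquiv.toRingHom ε.surjective]
      rfl
    rw [← h1]
    exact (LinearEquiv.finrank_map_eq ε.toLinearEquiv _).symm
  refine ⟨hloc', fun i => ?_⟩
  rw [finrank_quot _ _ (Ideal.pow_le_pow_right (Nat.le_add_right i 1)), ← hpow, ← hpow,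
    ← finrank_quot _ _ (Ideal.pow_le_pow_right (Nat.le_add_right i 1))]
  exact hh i

theorem HasHilbertFunction.unique {A : Type u} [CommRing A] [Algebra k A] {h h' : ℕ → ℕ}
    (hA : HasHilbertFunction k A h) (hA' : HasHilbertFunction k A h') : h = h' := by
  obtain ⟨h1, h2⟩ := hA
  obtain ⟨h1', h2'⟩ := hA'
  funext i
  rw [← h2 i, ← h2' i]

end Transport

section Main

variable {k : Type u} [Field k] [CharZero k] {r : ℕ} [NeZero r]

theorem represents_ptF (F : CubicForm k r) (hF : F ∈ U1 k r) :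
    Represents (frame 1 (cf F.1) (GAlg.xg _)) (ptF F hF).1 := by
  apply represents_frame 1 (by simp) _ _ _ (annEquiv F (U1_surj F hF))
  intro i
  rw [Matrix.det_one, one_smul]
  show GAlg.ev _ (X i) = _
  rw [GAlg.ev_X]

theorem eval_frame1 (F : CubicForm k r) (h : MvPolynomial (FrameIdx r (2 * r + 2)) k) :
    eval (fun α => coeff α F.1) (aeval (frame 1
      (X : (Fin r →₀ ℕ) → MvPolynomial (Fin r →₀ ℕ) k) (GAlg.xg _)) h) =
      eval (frame 1 (cf F.1) (GAlg.xg _)) h := by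
  have : ((aeval (cf F.1) : MvPolynomial (Fin r →₀ ℕ) k →ₐ[k] k).comp (aeval (frame 1
      (X : (Fin r →₀ ℕ) → MvPolynomial (Fin r →₀ ℕ) k) (GAlg.xg _)))) =
      (aeval (frame 1 (cf F.1) (GAlg.xg (cf F.1))) :
        MvPolynomial (FrameIdx r (2 * r + 2)) k →ₐ[k] k) := by
    apply MvPolynomial.algHom_ext
    intro x
    rw [AlgHom.comp_apply, aeval_X, aeval_X]
    have h1 := frame_map (aeval (cf F.1) : MvPolynomial (Fin r →₀ ℕ) k →ₐ[k] k).toRingHom 1
      (X : (Fin r →₀ ℕ) → MvPolynomial (Fin r →₀ ℕ) k) (GAlg.xg _) x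
    have h2 : (fun α => (aeval (cf F.1) : MvPolynomial (Fin r →₀ ℕ) k →ₐ[k] k).toRingHom
        ((X : (Fin r →₀ ℕ) → MvPolynomial (Fin r →₀ ℕ) k) α)) = cf F.1 := by
      funext α
      exact aeval_X _ _
    refine Eq.trans h1 ?_
    have h3 : (1 : Matrix (Fin (2 * r + 2)) (Fin (2 * r + 2)) (MvPolynomial (Fin r →₀ ℕ) k)).map
        (aeval (cf F.1) : MvPolynomial (Fin r →₀ ℕ) k →ₐ[k] k).toRingHom = 1 :=
      Matrix.map_one _ (map_zero _) (map_one _)
    rw [h3]
    have h4 : ∀ (c' : (Fin r →₀ ℕ) → k) (f : MvPolynomial (Fin r →₀ ℕ) k →+* k)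
        (hc : (fun α => f ((X : (Fin r →₀ ℕ) → MvPolynomial (Fin r →₀ ℕ) k) α)) = c'),
        frame 1 (fun α => f ((X : (Fin r →₀ ℕ) → MvPolynomial (Fin r →₀ ℕ) k) α))
          (fun i => GAlg.map f X (GAlg.xg X i)) x = frame 1 c' (GAlg.xg c') x := by
      rintro _ f rfl
      congr 2
      funext i
      ext l
      · simp [GAlg.map, GAlg.xg]
      · simp [GAlg.map, GAlg.xg, Pi.single_apply, apply_ite]
      · simp [GAlg.map, GAlg.xg]
      · simp [GAlg.map, GAlg.xg]
    exact h4 _ _ h2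
  have h := DFunLike.congr_fun this h
  rw [AlgHom.comp_apply, aeval_eq_eval', aeval_eq_eval'] at h
  exact h

/-- the forms whose point lies in an open set -/
def UN (N : Set (Hilb k r (2 * r + 2))) : Set (CubicForm k r) :=
  {F | ∃ hF : F ∈ U1 k r, ptF F hF ∈ N}

theorem isZariskiOpen_UN (N : Set (Hilb k r (2 * r + 2))) (hN : IsOpen N) :
    IsZariskiOpen (UN N) := by
  have hcl : IsClosed Nᶜ := hN.isClosed_compl
  rw [isClosed_iff_isZariskiClosed] at hcl
  obtain ⟨T, hT⟩ := hcl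
  have hmem : ∀ F (hF : F ∈ U1 k r), ptF F hF ∈ N ↔
      ∃ h ∈ T, eval (frame 1 (cf F.1) (GAlg.xg _)) h ≠ 0 := by
    intro F hF
    have h1 := hT (ptF F hF) _ (represents_ptF F hF)
    rw [← not_iff_not]
    push Not
    exact h1
  refine ⟨{u | ∃ h ∈ T, u = (goodMat (pm r) (pp r)
    (X : (Fin r →₀ ℕ) → MvPolynomial (Fin r →₀ ℕ) k)).det * aeval (frame 1
      (X : (Fin r →₀ ℕ) → MvPolynomial (Fin r →₀ ℕ) k) (GAlg.xg _)) h}, ?_⟩
  have hdet : ∀ F : CubicForm k r, eval (fun α => coeff α F.1) (goodMat (pm r) (pp r)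
      (X : (Fin r →₀ ℕ) → MvPolynomial (Fin r →₀ ℕ) k)).det =
      (goodMat (pm r) (pp r) (cf F.1)).det := by
    intro F
    rw [RingHom.map_det]
    congr 1
    ext a b
    simp [goodMat, tt, cf]
  ext F
  constructor
  · rintro ⟨hF, hFN⟩
    obtain ⟨h, hhT, hne⟩ := (hmem F hF).mp hFN
    refine ⟨_, ⟨h, hhT, rfl⟩, ?_⟩
    rw [map_mul, hdet, eval_frame1]
    exact mul_ne_zero hF hne
  · rintro ⟨_, ⟨h, hhT, rfl⟩, hne⟩
    rw [map_mul, hdet, eval_frame1] at hne
    have hF : F ∈ U1 k r := left_ne_zero_of_mul hne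
    exact ⟨hF, (hmem F hF).mpr ⟨h, hhT, right_ne_zero_of_mul hne⟩⟩

/-- **genericity** at points in the open part of the component -/
theorem isGeneric_of_mem (N : Set (Hilb k r (2 * r + 2))) (hN : IsOpen N)
    (hNs : N ⊆ closure (locus (U1 k r))) (F : CubicForm k r) (hF : F ∈ UN N) :
    IsGeneric k (AF F) := by
  obtain ⟨hF1, hFN⟩ := hF
  intro S _ _ _ B _ _ _ _ _ _ s₀ hiso
  obtain ⟨ε₀⟩ := hiso
  obtain ⟨g, hg, hall⟩ := deform (N ∩ NZ3 k r) (hN.inter isOpen_NZ3) (ptF F hF1)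
    ⟨hFN, ptF_NZ3 F hF1⟩ s₀ ε₀
  refine ⟨g, hg, fun s hs h hA => ?_⟩
  obtain ⟨I, ⟨hIN, hI3⟩, ⟨ε⟩⟩ := hall s hs
  have h1 := hilbert_of_closure I (hNs hIN) hI3
  rw [hA.unique (hilbert_AF F hF1)]
  have := I.2.1
  exact h1.congr ε.symm

end Main

/-- **Main theorem.** -/
theorem main_theorem (k : Type u) [Field k] [CharZero k] (r : ℕ) (hr : 8 ≤ r) :
    ∃ U : Set (CubicForm k r), IsZariskiOpen U ∧ U.Nonempty ∧
      (∀ F ∈ U, HasHilbertFunction k (AF F) (h1rr1 r) ∧ IsGeneric k (AF F)) ∧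
      ∃ Z : Set (Hilb k r (2 * r + 2)), IsElementaryComponent Z ∧
        ∀ U' ⊆ U, IsZariskiOpen U' → U'.Nonempty → closure (locus U') = Z := by
  have : NeZero r := ⟨by omega⟩
  obtain ⟨N, hN, hpt, hNs⟩ := exists_open (k := k) (r := r) hr
  refine ⟨UN N, isZariskiOpen_UN N hN, ⟨F0 k r, F0_mem hr, hpt⟩, fun F hF =>
    ⟨hilbert_AF F hF.1, isGeneric_of_mem N hN hNs F hF⟩, closure (locus (U1 k r)),
    isElementary hr, fun U' hU' hUo hUn => ?_⟩
  exact closure_locus U' (fun F hF => (hU' hF).1) hUo hUn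

end Pool.Agent.J6H80.Cubic
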